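import Mathlib
import Pool.Agent.Q4.Cov.Two

set_option autoImplicit false
set_option linter.unusedSectionVars false

/-!
# Integral points near an irrational ray
-/

namespace Pool.Agent.Q4.Tube

open Filter Topology Pool.Agent.TH932.Abs Pool.Agent.TH932.Germs Pool.Agent.TH932.Chi
open Pool.Agent.TH796.AL Pool.Agent.Q4.Blk Pool.Agent.Q4.Gcd Pool.Agent.Q4.Cov Module

section
variable {m : ℕ} {B : Base m} {L : ℕ → ℝ} (hL : Tendsto L atTop atTop)

/-- the quotient of a nearby integer -/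
lemma quotx (h : Fin m → ℝ) (κ : KK L hL) (hκ : κ ≠ 0) (N : ℕ → ℕ) (hN : ∀ n, N n ≠ 0)
    (hNg : gm (fun n => (N n : ℚ)) = (κ : GG) * ch B hL h) (θ : ℝ) (x : ℕ → ℤ)
    (hx : ∀ ε : ℝ, 0 < ε → ∀ᶠ n in (UU : Filter ℕ), |θ * N n - x n| ≤ Real.exp (ε * L n)) :
    (∀ v, gm (fun n => (x n : ℚ) / N n) ∈ Sv B L (some v) (-lv B (some v) h)) ∧
    (algebraMap ℝ HR θ - rho (gm (fun n => (x n : ℚ) / N n)) ∈ SR L (-lv B none h)) ∧
    Sint B L (gm (fun n => (x n : ℚ) / N n)) := by
  have hκ0 : (κ : GG) ≠ 0 := fun h0 => hκ (Subtype.ext h0)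
  have hinv : (gm (fun n => (N n : ℚ)))⁻¹ = ((κ⁻¹ : KK L hL) : GG) * ch B hL (-h) := by
    rw [hNg, mul_inv, ch_neg]
    rfl
  have e : gm (fun n => (x n : ℚ) / N n)
      = gm (fun n => (x n : ℚ)) * (gm (fun n => (N n : ℚ)))⁻¹ := by
    rw [gm_inv, gm_mul]
    congr 1
  refine ⟨?_, ?_, ?_⟩
  · intro v
    rw [e, hinv]
    have h1 := (filt_v (B := B) hL (some v)).mul_mem (int_germ (B := B) hL v x)
      ((filt_v (B := B) hL (some v)).mul_mem ((filt_v (B := B) hL (some v)).alg_mem (κ⁻¹))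
        (ch_mem (B := B) hL (some v) (-h)))
    rw [lv_neg, zero_add, zero_add] at h1
    exact h1
  · have h1 : algebraMap ℝ HR θ - rho (gm (fun n => (x n : ℚ) / N n))
        = gr (fun n => θ * N n - x n) * rho ((gm (fun n => (N n : ℚ)))⁻¹) := by
      rw [gm_inv, rho_gm, rho_gm, cst_eq, gr_sub, gr_mul, gr_eq]
      refine Eventually.of_forall fun n => ?_
      have h2 : (N n : ℝ) ≠ 0 := by exact_mod_cast hN n
      push_cast
      field_simp
    rw [h1, hinv]
    have h2 : gr (fun n => θ * (N n : ℝ) - x n) ∈ SR L 0 := by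
      rw [mem_SR]
      intro ε hε
      filter_upwards [hx ε hε] with n hn
      refine hn.trans (le_of_eq ?_)
      congr 1
      ring
    have h3 := SR_rho ((filt_v (B := B) hL none).mul_mem
      ((filt_v (B := B) hL none).alg_mem (κ⁻¹)) (ch_mem (B := B) hL none (-h)))
    have h4 := SR_mul hL h2 h3
    rw [lv_neg, zero_add, zero_add] at h4
    exact h4
  · rw [e, hinv]
    exact Sint.mul hL (Sint_int hL _) (Sint.mul hL (Sint.alg hL _) (ch_sint hL _))

end

section
variable {σ : Type} [Fintype σ] [DecidableEq σ]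

/-- the point -/
def px (q : ℕ) (x : σ → ℤ) : Option σ → ℤ := fun o => o.elim (q : ℤ) x

/-- the small coordinates -/
noncomputable def fr (θ : σ → ℝ) (q : ℕ) (x : σ → ℤ) : σ → ℝ := fun s => θ s * q - x s

/-- the real values of the forms -/
noncomputable def zv (θ : σ → ℝ) (q : ℕ) (x : σ → ℤ) (a : Option σ → ℕ) : ℝ :=
  (q : ℝ) ^ (a none) * ∏ s, (fr θ q x s) ^ (a (some s))

/-- integral points near the ray -/
structure Tub (S : Finset ℕ) (θ : σ → ℝ) (q : ℕ → ℕ) (x : ℕ → σ → ℤ) : Prop where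
  big : ∀ n, n + 2 ≤ q n
  unit : ∃ u w : ℕ → ℕ, (∀ n, q n = u n * w n) ∧ (∀ n, (u n).primeFactors ⊆ S) ∧
    ∀ ε : ℝ, 0 < ε → ∀ᶠ n in (UU : Filter ℕ), (w n : ℝ) ≤ (q n : ℝ) ^ ε
  near : ∀ ε : ℝ, 0 < ε → ∀ᶠ n in (UU : Filter ℕ), ∀ s, |fr θ (q n) (x n) s| ≤ (q n : ℝ) ^ ε

lemma tub_xh {m : ℕ} {B : Base m} {L : ℕ → ℝ} (hL : Tendsto L atTop atTop) (q : ℕ → ℕ)
    (hq : ∀ n, q n ≠ 0) (x : ℕ → σ → ℤ) (κ : KK L hL) (g0 : Fin m → ℝ)
    (hu : gm (fun n => (q n : ℚ)) = (κ : GG) * ch B hL g0) (a : Option σ → ℕ) :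
    Xh hL κ g0 (fun s => gm (fun n => (x n s : ℚ) / q n)) B a
      = gm (fun n => ∏ i, (px (q n) (x n) i : ℚ) ^ (a i)) := by
  have h1 : ∀ s, gm (fun n => (x n s : ℚ))
      = ((κ : GG) * ch B hL g0) * gm (fun n => (x n s : ℚ) / q n) := by
    intro s
    rw [← hu, gm_mul, gm_eq]
    refine Eventually.of_forall fun n => ?_
    have : (q n : ℚ) ≠ 0 := by exact_mod_cast hq n
    field_simp
  have h2 : gm (fun n => ∏ i, (px (q n) (x n) i : ℚ) ^ (a i))
      = ((κ : GG) * ch B hL g0) ^ (a none) * ∏ s, (((κ : GG) * ch B hL g0)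
        * gm (fun n => (x n s : ℚ) / q n)) ^ (a (some s)) := by
    simp only [← h1]
    rw [← hu]
    simp only [gm_pow]
    rw [gm_prod, gm_mul]
    congr 1
    funext n
    rw [Fintype.prod_option]
    rfl
  rw [h2]
  unfold Xh xx om
  simp only []
  rw [ch_nsmul]
  simp only [mul_pow, Finset.prod_mul_distrib]
  rw [Finset.prod_pow_eq_pow_sum, Finset.prod_pow_eq_pow_sum, Fintype.sum_option, pow_add, pow_add]
  ring

lemma tub_zh {m : ℕ} {B : Base m} {L : ℕ → ℝ} (hL : Tendsto L atTop atTop)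
    {F : IntermediateField ℚ ℝ} [FiniteDimensional ℚ F] (θ : σ → F) (q : ℕ → ℕ)
    (hq : ∀ n, q n ≠ 0) (x : ℕ → σ → ℤ) (κ : KK L hL) (g0 : Fin m → ℝ)
    (hu : gm (fun n => (q n : ℚ)) = (κ : GG) * ch B hL g0) (a : Option σ → ℕ) :
    Zh hL κ g0 θ (fun s => gm (fun n => (x n s : ℚ) / q n)) B a
      = gr (fun n => zv (fun s => (θ s : ℝ)) (q n) (x n) a) := by
  have hu' : rho ((κ : GG) * ch B hL g0) = gr (fun n => (q n : ℝ)) := by
    rw [← hu, rho_gm]
    congr 1
  have h1 : ∀ s, rho ((κ : GG) * ch B hL g0) * (algebraMap ℝ HR (θ s : ℝ)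
      - rho (gm (fun n => (x n s : ℚ) / q n)))
      = gr (fun n => fr (fun s => (θ s : ℝ)) (q n) (x n) s) := by
    intro s
    rw [hu', rho_gm, cst_eq, gr_sub, gr_mul, gr_eq]
    refine Eventually.of_forall fun n => ?_
    have : (q n : ℝ) ≠ 0 := by exact_mod_cast hq n
    unfold fr
    push_cast
    field_simp
  have h2 : gr (fun n => zv (fun s => (θ s : ℝ)) (q n) (x n) a)
      = (rho ((κ : GG) * ch B hL g0)) ^ (a none) * ∏ s, (rho ((κ : GG) * ch B hL g0)
        * (algebraMap ℝ HR (θ s : ℝ) - rho (gm (fun n => (x n s : ℚ) / q n))))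
          ^ (a (some s)) := by
    simp only [h1]
    rw [hu']
    simp only [gr_pow']
    rw [gr_prod', gr_mul]
    rfl
  rw [h2]
  unfold Zh zz om
  simp only []
  rw [ch_nsmul]
  simp only [mul_pow, Finset.prod_mul_distrib, map_mul, map_pow]
  rw [Finset.prod_pow_eq_pow_sum, Finset.prod_pow_eq_pow_sum, Fintype.sum_option, pow_add, pow_add]
  ring

/-- the germs attached to a sequence of points -/
theorem tub_setup (S : Finset ℕ) (hS : ∀ p ∈ S, p.Prime) (θ : σ → ℝ)
    (halg : ∀ s, IsAlgebraic ℚ (θ s))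
    (hind : LinearIndependent ℚ (fun o : Option σ => (o.elim 1 (fun s => θ s) : ℝ)))
    {q : ℕ → ℕ} {x : ℕ → σ → ℤ} (H : Tub S θ q x)
    (hL : Tendsto (fun n => Real.log (q n)) atTop atTop) {κκ : Type} [Finite κκ] (c : κκ → ℝ)
    (hc : ∀ a, IsAlgebraic ℚ (c a)) :
    ∃ (F : IntermediateField ℚ ℝ) (_ : FiniteDimensional ℚ F) (θ' : σ → F) (c' : κκ → F)
      (g0 : Fin S.card → ℝ) (κ : KK (fun n => Real.log (q n)) hL) (y : σ → GG),
      (∀ a, (c' a : ℝ) = c a) ∧
      Fam (bas S hS) (fun n => Real.log (q n)) F θ' (fun _ => g0) y ∧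
      lv (bas S hS) none g0 = -1 ∧ (∀ v, 0 ≤ lv (bas S hS) (some v) g0) ∧
      κ ≠ 0 ∧ gm (fun n => (q n : ℚ)) = (κ : GG) * ch (bas S hS) hL g0 ∧
      (∀ a, Xh hL κ g0 y (bas S hS) a = gm (fun n => ∏ i, (px (q n) (x n) i : ℚ) ^ (a i))) ∧
      ∀ a, Zh hL κ g0 θ' y (bas S hS) a = gr (fun n => zv θ (q n) (x n) a) := by
  classical
  have hq0 : ∀ n, q n ≠ 0 := fun n => by have := H.big n; omega
  have hLpos : ∀ n, 0 < Real.log (q n) := fun n => by
    apply Real.log_pos
    have := H.big n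
    have h2 : 2 ≤ q n := by omega
    exact_mod_cast h2
  have hqp : ∀ n, (0 : ℝ) < q n := fun n => by exact_mod_cast Nat.pos_of_ne_zero (hq0 n)
  have hpow : ∀ n (ε : ℝ), (q n : ℝ) ^ ε = Real.exp (ε * Real.log (q n)) := fun n ε => by
    rw [Real.rpow_def_of_pos (hqp n), mul_comm]
  set F : IntermediateField ℚ ℝ := IntermediateField.adjoin ℚ (Set.range θ ∪ Set.range c) with hF
  have hfin : FiniteDimensional ℚ F := by
    have : Finite ↑(Set.range θ ∪ Set.range c) := by
      have h1 : (Set.range θ ∪ Set.range c).Finite := (Set.finite_range _).union (Set.finite_range _)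
      exact h1
    apply IntermediateField.finiteDimensional_adjoin
    rintro _ (⟨l, rfl⟩ | ⟨l, rfl⟩)
    · exact (halg l).isIntegral
    · exact (hc l).isIntegral
  have hθF : ∀ l, θ l ∈ F := fun l => IntermediateField.subset_adjoin ℚ _ (Or.inl ⟨l, rfl⟩)
  have hcF : ∀ l, c l ∈ F := fun l => IntermediateField.subset_adjoin ℚ _ (Or.inr ⟨l, rfl⟩)
  obtain ⟨u, w, huw, huS, hw⟩ := H.unit
  have hu0 : ∀ n, u n ≠ 0 := fun n h => hq0 n (by rw [huw, h, zero_mul])
  have hw0 : ∀ n, w n ≠ 0 := fun n h => hq0 n (by rw [huw, h, mul_zero])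
  have hup : ∀ n, (0 : ℝ) < u n := fun n => by exact_mod_cast Nat.pos_of_ne_zero (hu0 n)
  have hwp : ∀ n, (1 : ℝ) ≤ w n := fun n => by exact_mod_cast Nat.pos_of_ne_zero (hw0 n)
  have hlog : ∀ n, Real.log (q n) = Real.log (u n) + Real.log (w n) := fun n => by
    rw [huw n, Nat.cast_mul, Real.log_mul (hup n).ne' (by have := hwp n; positivity)]
  obtain ⟨g0, κ, hκ, hu, hlim⟩ := unit_germ (B := bas S hS) hL
    (fun n i => (u n).factorization ((bas S hS).P i)) 1 (Eventually.of_forall fun n => by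
      rw [← log_prod_bas hS, ← eq_prod hS (hu0 n) (huS n), one_mul, hlog]
      have := Real.log_nonneg (hwp n)
      linarith)
  set ω : KK (fun n => Real.log (q n)) hL := ⟨gm (fun n => ((w n : ℤ) : ℚ)), small_mem hL
    (fun n => (w n : ℤ)) (by
    intro ε hε
    filter_upwards [hw ε hε] with n hn
    rw [hpow] at hn
    have h1 : (0 : ℝ) ≤ w n := by have := hwp n; linarith
    push_cast
    rw [abs_of_nonneg h1]
    exact hn)⟩ with hω
  have hω0 : ω ≠ 0 := by
    intro h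
    have h1 : gm (fun n => ((w n : ℤ) : ℚ)) = 0 := congrArg Subtype.val h
    have h2 : gm (fun n => ((w n : ℤ) : ℚ)) ≠ 0 := by
      rw [gm_ne_zero]
      exact Eventually.of_forall fun n => by exact_mod_cast hw0 n
    exact h2 h1
  have hu' : gm (fun n => (q n : ℚ)) = ((ω * κ : KK (fun n => Real.log (q n)) hL) : GG)
      * ch (bas S hS) hL g0 := by
    have h1 : ((ω * κ : KK (fun n => Real.log (q n)) hL) : GG)
        = gm (fun n => ((w n : ℤ) : ℚ)) * (κ : GG) := rfl
    rw [h1, mul_assoc, ← hu, gm_mul, gm_eq]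
    refine Eventually.of_forall fun n => ?_
    rw [← eq_prod hS (hu0 n) (huS n)]
    push_cast
    have := huw n
    rw [this]
    push_cast
    ring
  have hlam : -lv (bas S hS) none g0 = 1 := by
    have h4 := lim_log hS _ g0 hlim
    have h5 : Tendsto (fun n => Real.log ((∏ i, (bas S hS).P i ^ ((u n).factorization ((bas S hS).P i)) : ℕ) : ℝ)
        / Real.log (q n)) (UU : Filter ℕ) (𝓝 1) := by
      have h6 : ∀ n, Real.log ((∏ i, (bas S hS).P i ^ ((u n).factorization ((bas S hS).P i)) : ℕ) : ℝ)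
          / Real.log (q n) = 1 - Real.log (w n) / Real.log (q n) := by
        intro n
        rw [← eq_prod hS (hu0 n) (huS n)]
        have h7 := hlog n
        have h8 := (hLpos n).ne'
        field_simp
        linarith
      simp only [h6]
      have h7 : Tendsto (fun n => Real.log (w n) / Real.log (q n)) (UU : Filter ℕ) (𝓝 0) := by
        rw [Metric.tendsto_nhds]
        intro ε hε
        filter_upwards [hw (ε / 2) (by positivity)] with n hn
        rw [hpow] at hn
        have h8 := Real.log_le_log (by have := hwp n; linarith) hn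
        rw [Real.log_exp] at h8
        have h9 : 0 ≤ Real.log (w n) := Real.log_nonneg (hwp n)
        rw [Real.dist_eq, sub_zero, abs_of_nonneg (div_nonneg h9 (hLpos n).le),
          div_lt_iff₀ (hLpos n)]
        have := hLpos n
        nlinarith
      have h8 := h7.const_sub 1
      rwa [sub_zero] at h8
    exact tendsto_nhds_unique h4 h5
  have hg0 : ∀ v, 0 ≤ lv (bas S hS) (some v) g0 := by
    intro v
    refine ge_of_tendsto (hlim v) (Eventually.of_forall fun n => ?_)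
    have := (bas S hS).log_pos v
    have := hLpos n
    positivity
  have hκ' : ω * κ ≠ 0 := mul_ne_zero hω0 hκ
  set yy : σ → GG := fun s => gm (fun n => (x n s : ℚ) / q n) with hyy
  have H' : Fam (bas S hS) (fun n => Real.log (q n)) F (fun s => (⟨θ s, hθF s⟩ : F)) (fun _ => g0) yy := by
    have hq' : ∀ s, _ := fun s => quotx (B := bas S hS) hL g0 (ω * κ) hκ' q hq0 hu' (θ s)
      (fun n => x n s) (by
      intro ε hε
      filter_upwards [H.near ε hε] with n hn
      have h1 := hn s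
      rw [hpow] at h1
      exact h1)
    refine ⟨fun v s => (hq' s).1 v, fun s => (hq' s).2.1, fun s => (hq' s).2.2, fun s => ?_,
      fun s => ?_⟩
    · rw [hlam]; norm_num
    · have h1 := hind.comp
        (Option.map (fun t : {t : σ // lv (bas S hS) none g0 = lv (bas S hS) none g0} => t.1))
        (Option.map_injective Subtype.val_injective)
      convert h1 using 1
      funext o
      cases o <;> rfl
  refine ⟨F, hfin, fun s => ⟨θ s, hθF s⟩, fun a => ⟨c a, hcF a⟩, g0, ω * κ, yy, fun _ => rfl, H',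
    by linarith, hg0, hκ', hu', ?_, ?_⟩
  · exact tub_xh hL q hq0 x (ω * κ) g0 hu'
  · exact tub_zh hL (fun s => (⟨θ s, hθF s⟩ : F)) q hq0 x (ω * κ) g0 hu'

end

end Pool.Agent.Q4.Tube
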