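import Mathlib
import Pool.Agent.Q4.Tube.Setup

set_option autoImplicit false
set_option linter.unusedSectionVars false

/-!
# Orders of growth and expansions at integral points near a ray
-/

namespace Pool.Agent.Q4.Tube

open Filter Topology Pool.Agent.TH932.Abs Pool.Agent.TH932.Germs Pool.Agent.TH932.Chi
open Pool.Agent.TH796.AL Pool.Agent.Q4.Blk Pool.Agent.Q4.Gcd Pool.Agent.Q4.Cov Module

/-- growth of order `e` -/
def Sm (q : ℕ → ℕ) (e : ℝ) (f : ℕ → ℂ) : Prop :=
  ∀ ε : ℝ, 0 < ε → ∀ᶠ n in (UU : Filter ℕ), ‖f n‖ ≤ (q n : ℝ) ^ (e + ε)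

section
variable {q : ℕ → ℕ} (hq : ∀ n, n + 2 ≤ q n)

include hq

lemma qpos (n : ℕ) : (0 : ℝ) < q n := by
  have := hq n
  exact_mod_cast (by omega : 0 < q n)

lemma qone (n : ℕ) : (1 : ℝ) ≤ q n := by
  have := hq n
  exact_mod_cast (by omega : 1 ≤ q n)

/-- powers of `q` tend to infinity -/
lemma big_ev (C : ℝ) {ε : ℝ} (hε : 0 < ε) : ∀ᶠ n in (UU : Filter ℕ), C ≤ (q n : ℝ) ^ ε := by
  have h1 : Tendsto (fun n => (q n : ℝ) ^ ε) atTop atTop := by
    apply (tendsto_rpow_atTop hε).comp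
    apply tendsto_natCast_atTop_atTop.comp
    exact tendsto_atTop_mono (fun n => (Nat.le_add_right n 2).trans (hq n)) tendsto_id
  exact ev_of_atTop (h1.eventually_ge_atTop C)

lemma Sm.const (C : ℂ) : Sm q 0 (fun _ => C) := by
  intro ε hε
  rw [zero_add]
  exact big_ev hq _ hε

omit hq in
lemma Sm.congr {e : ℝ} {f g : ℕ → ℂ} (hf : Sm q e f)
    (h : ∀ᶠ n in (UU : Filter ℕ), g n = f n) : Sm q e g := by
  intro ε hε
  filter_upwards [hf ε hε, h] with n h1 h2
  rw [h2]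
  exact h1

omit hq in
lemma Sm.le {e : ℝ} {f g : ℕ → ℂ} (hf : Sm q e f)
    (h : ∀ᶠ n in (UU : Filter ℕ), ‖g n‖ ≤ ‖f n‖) : Sm q e g := by
  intro ε hε
  filter_upwards [hf ε hε, h] with n h1 h2
  exact h2.trans h1

lemma Sm.mono {e e' : ℝ} {f : ℕ → ℂ} (hf : Sm q e f) (h : e ≤ e') : Sm q e' f := by
  intro ε hε
  filter_upwards [hf ε hε] with n h1
  exact h1.trans (Real.rpow_le_rpow_of_exponent_le (qone hq n) (by linarith))

lemma Sm.mul {e e' : ℝ} {f g : ℕ → ℂ} (hf : Sm q e f) (hg : Sm q e' g) :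
    Sm q (e + e') (fun n => f n * g n) := by
  intro ε hε
  filter_upwards [hf (ε / 2) (by positivity), hg (ε / 2) (by positivity)] with n h1 h2
  rw [norm_mul]
  calc ‖f n‖ * ‖g n‖ ≤ (q n : ℝ) ^ (e + ε / 2) * (q n : ℝ) ^ (e' + ε / 2) :=
        mul_le_mul h1 h2 (norm_nonneg _) (by have := qpos hq n; positivity)
    _ = (q n : ℝ) ^ (e + e' + ε) := by
        rw [← Real.rpow_add (qpos hq n)]
        congr 1
        ring

lemma Sm.add {e : ℝ} {f g : ℕ → ℂ} (hf : Sm q e f) (hg : Sm q e g) :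
    Sm q e (fun n => f n + g n) := by
  intro ε hε
  filter_upwards [hf (ε / 2) (by positivity), hg (ε / 2) (by positivity),
    big_ev hq 2 (show 0 < ε / 2 by positivity)] with n h1 h2 h3
  refine (norm_add_le _ _).trans ((add_le_add h1 h2).trans ?_)
  have h4 : (q n : ℝ) ^ (e + ε) = (q n : ℝ) ^ (ε / 2) * (q n : ℝ) ^ (e + ε / 2) := by
    rw [← Real.rpow_add (qpos hq n)]
    congr 1
    ring
  rw [h4, ← two_mul]
  exact mul_le_mul_of_nonneg_right h3 (by have := qpos hq n; positivity)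

omit hq in
lemma Sm.neg {e : ℝ} {f : ℕ → ℂ} (hf : Sm q e f) : Sm q e (fun n => -f n) :=
  hf.le (Eventually.of_forall fun n => by rw [norm_neg])

lemma Sm.sub {e : ℝ} {f g : ℕ → ℂ} (hf : Sm q e f) (hg : Sm q e g) :
    Sm q e (fun n => f n - g n) := by
  simp only [sub_eq_add_neg]
  exact Sm.add hq hf hg.neg

omit hq in
lemma Sm.zero (hq : ∀ n, n + 2 ≤ q n) (e : ℝ) : Sm q e (fun _ => 0) := by
  intro ε _
  refine Eventually.of_forall fun n => ?_
  rw [norm_zero]
  have := qpos hq n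
  positivity

lemma Sm.sum {ι : Type*} (s : Finset ι) {e : ℝ} (f : ι → ℕ → ℂ) (h : ∀ i ∈ s, Sm q e (f i)) :
    Sm q e (fun n => ∑ i ∈ s, f i n) := by
  classical
  induction s using Finset.induction_on with
  | empty => simpa using Sm.zero hq e
  | insert i s hi ih =>
    simp only [Finset.sum_insert hi]
    exact Sm.add hq (h i (Finset.mem_insert_self _ _))
      (ih fun j hj => h j (Finset.mem_insert_of_mem hj))

lemma Sm.pow {e : ℝ} {f : ℕ → ℂ} (hf : Sm q e f) (k : ℕ) : Sm q (k * e) (fun n => f n ^ k) := by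
  induction k with
  | zero => simpa using Sm.const hq 1
  | succ k ih =>
    have := Sm.mul hq ih hf
    simp only [pow_succ]
    push_cast
    rw [add_mul, one_mul]
    exact this

lemma Sm.q1 : Sm q 1 (fun n => (q n : ℂ)) := by
  intro ε hε
  refine Eventually.of_forall fun n => ?_
  rw [Complex.norm_natCast]
  calc (q n : ℝ) = (q n : ℝ) ^ (1 : ℝ) := (Real.rpow_one _).symm
    _ ≤ _ := Real.rpow_le_rpow_of_exponent_le (qone hq n) (by linarith)

lemma Sm.qinv : Sm q (-1) (fun n => 1 / (q n : ℂ)) := by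
  intro ε hε
  refine Eventually.of_forall fun n => ?_
  rw [norm_div, norm_one, Complex.norm_natCast]
  calc 1 / (q n : ℝ) = (q n : ℝ) ^ (-(1 : ℝ)) := by rw [Real.rpow_neg_one, one_div]
    _ ≤ _ := Real.rpow_le_rpow_of_exponent_le (qone hq n) (by linarith)

lemma Sm.qpow (k : ℕ) : Sm q k (fun n => (q n : ℂ) ^ k) := by
  have := Sm.pow hq (Sm.q1 hq) k
  rwa [mul_one] at this

/-- sequences of negative order tend to zero -/
lemma Sm.tendsto {e : ℝ} (he : e < 0) {f : ℕ → ℂ} (hf : Sm q e f) :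
    Tendsto f (UU : Filter ℕ) (𝓝 0) := by
  rw [Metric.tendsto_nhds]
  intro r hr
  filter_upwards [hf (-e / 2) (by linarith), big_ev hq (2 / r) (show 0 < -e / 2 by linarith)]
    with n h1 h2
  rw [dist_zero_right]
  refine h1.trans_lt ?_
  have h3 : (q n : ℝ) ^ (e + -e / 2) = ((q n : ℝ) ^ (-e / 2))⁻¹ := by
    rw [← Real.rpow_neg (qpos hq n).le]
    congr 1
    ring
  rw [h3, inv_lt_comm₀ (by have := qpos hq n; positivity) hr]
  refine lt_of_lt_of_le ?_ h2
  rw [inv_eq_one_div]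
  exact div_lt_div_of_pos_right one_lt_two hr

omit hq in
/-- from the order of growth to the filtration -/
lemma Sm.toSR (hq : ∀ n, n + 2 ≤ q n) {e : ℝ} {f : ℕ → ℝ} (hf : Sm q e (fun n => (f n : ℂ))) :
    gr f ∈ SR (fun n => Real.log (q n)) (-e) := by
  rw [mem_SR]
  intro ε hε
  filter_upwards [hf ε hε] with n h1
  rw [Complex.norm_real, Real.norm_eq_abs, Real.rpow_def_of_pos (qpos hq n)] at h1
  refine h1.trans (le_of_eq ?_)
  congr 1
  ring

end

section
variable {σ : Type} [Fintype σ] [DecidableEq σ] {K : Type*} [Field K] (φ : K →+* ℂ)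

open MvPolynomial

/-- the local parameters at the point -/
noncomputable def vs (θ : σ → ℝ) (q : ℕ → ℕ) (x : ℕ → σ → ℤ) (n : ℕ) : Option σ → ℝ :=
  vv (q n) (fr θ (q n) (x n))

/-- their size -/
noncomputable def dl (θ : σ → ℝ) (q : ℕ → ℕ) (x : ℕ → σ → ℤ) (n : ℕ) : ℝ :=
  ∑ i, |vs θ q x n i|

lemma le_dl (θ : σ → ℝ) (q : ℕ → ℕ) (x : ℕ → σ → ℤ) (n : ℕ) (i : Option σ) :
    |vs θ q x n i| ≤ dl θ q x n :=
  Finset.single_le_sum (f := fun i => |vs θ q x n i|) (fun _ _ => abs_nonneg _) (Finset.mem_univ i)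

lemma dl_nonneg (θ : σ → ℝ) (q : ℕ → ℕ) (x : ℕ → σ → ℤ) (n : ℕ) : 0 ≤ dl θ q x n :=
  Finset.sum_nonneg fun _ _ => abs_nonneg _

variable {S : Finset ℕ} {θ : σ → ℝ} {q : ℕ → ℕ} {x : ℕ → σ → ℤ} (H : Tub S θ q x)

include H

lemma sm_fr (s : σ) : Sm q 0 (fun n => ((fr θ (q n) (x n) s : ℝ) : ℂ)) := by
  intro ε hε
  filter_upwards [H.near ε hε] with n hn
  rw [Complex.norm_real, Real.norm_eq_abs, zero_add]
  exact hn s

lemma sm_vs (i : Option σ) : Sm q (-1) (fun n => ((vs θ q x n i : ℝ) : ℂ)) := by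
  cases i with
  | none =>
    refine (Sm.qinv H.big).congr (Eventually.of_forall fun n => ?_)
    simp only [vs, vv, Option.elim]
    push_cast
    rfl
  | some s =>
    have h1 := Sm.mul H.big (sm_fr H s).neg (Sm.qinv H.big)
    rw [zero_add] at h1
    refine h1.congr (Eventually.of_forall fun n => ?_)
    simp only [vs, vv, Option.elim]
    push_cast
    ring

lemma sm_dl : Sm q (-1) (fun n => ((dl θ q x n : ℝ) : ℂ)) := by
  have h1 := Sm.sum H.big Finset.univ (fun i n => ((|vs θ q x n i| : ℝ) : ℂ)) (e := -1)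
    (fun i _ => (sm_vs H i).le (Eventually.of_forall fun n => by
      rw [Complex.norm_real, Complex.norm_real, Real.norm_eq_abs, abs_abs, Real.norm_eq_abs]))
  refine h1.congr (Eventually.of_forall fun n => ?_)
  unfold dl
  push_cast
  rfl

lemma dl_tendsto : Tendsto (dl θ q x) (UU : Filter ℕ) (𝓝 0) := by
  have h1 := Sm.tendsto H.big (by norm_num) (sm_dl H)
  have h2 := (Complex.continuous_re.tendsto 0).comp h1
  simpa [Function.comp_def] using h2

lemma dl_le_one : ∀ᶠ n in (UU : Filter ℕ), dl θ q x n ≤ 1 := by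
  filter_upwards [(dl_tendsto H).eventually (gt_mem_nhds (show (0 : ℝ) < 1 by norm_num))] with n hn
  exact hn.le

lemma sm_ord {R : MvPolynomial (Option σ) K} {r : ℕ} (hR : Ord φ r R) :
    Sm q (-r) (fun n => evr φ (vs θ q x n) R) := by
  obtain ⟨C, hC, hb⟩ := hR
  have h1 := Sm.mul H.big (Sm.const H.big (C : ℂ)) (Sm.pow H.big (sm_dl H) r)
  rw [zero_add, mul_neg, mul_one] at h1
  refine h1.le ?_
  filter_upwards [dl_le_one H] with n hn
  rw [norm_mul, norm_pow, Complex.norm_real, Complex.norm_real, Real.norm_of_nonneg hC,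
    Real.norm_of_nonneg (dl_nonneg _ _ _ _)]
  exact hb _ _ (dl_nonneg _ _ _ _) hn (le_dl _ _ _ _)

lemma sm_any (R : MvPolynomial (Option σ) K) : Sm q 0 (fun n => evr φ (vs θ q x n) R) := by
  have := sm_ord φ H (Ord.any φ R)
  simpa using this

/-- limits of values -/
lemma lim_evr (f : MvPolynomial (Option σ) K) :
    Tendsto (fun n => evr φ (vs θ q x n) f) (UU : Filter ℕ) (𝓝 (φ (constantCoeff f))) := by
  have hf : f - C (constantCoeff f) ∈ RingHom.ker (constantCoeff (σ := Option σ) (R := K)) := by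
    rw [RingHom.mem_ker, map_sub, constantCoeff_C, sub_self]
  have h1 := Sm.tendsto H.big (by norm_num) (sm_ord φ H (Ord.ker φ hf))
  have h2 := h1.add_const (φ (constantCoeff f))
  rw [zero_add] at h2
  refine h2.congr fun n => ?_
  rw [map_sub]
  have h4 : evr φ (vs θ q x n) (C (constantCoeff f)) = φ (constantCoeff f) := by
    unfold evr
    simp
  rw [h4]
  ring

/-- **Approximation of a branch.** -/
theorem branch' (p : Polynomial (MvPolynomial (Option σ) K)) (η : K)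
    (h0 : (p.map constantCoeff).eval η = 0) (h1 : (p.map constantCoeff).derivative.eval η ≠ 0)
    (Y : ℕ → ℂ) (hY : Tendsto Y (UU : Filter ℕ) (𝓝 (φ η)))
    (hroot : ∀ᶠ n in (UU : Filter ℕ), (p.map (evr φ (vs θ q x n))).eval (Y n) = 0) (r : ℕ) :
    ∃ E : MvPolynomial (Option σ) K, Sm q (-(r + 1 : ℕ)) (fun n => Y n - evr φ (vs θ q x n) E) := by
  classical
  set v' : ℕ → Option σ → ℝ := fun n => if dl θ q x n ≤ 1 then vs θ q x n else 0 with hv'
  set δ' : ℕ → ℝ := fun n => if dl θ q x n ≤ 1 then dl θ q x n else 0 with hδ'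
  have hv1 : ∀ᶠ n in (UU : Filter ℕ), v' n = vs θ q x n := by
    filter_upwards [dl_le_one H] with n hn
    rw [hv']
    simp only [if_pos hn]
  have hδ1 : ∀ᶠ n in (UU : Filter ℕ), δ' n = dl θ q x n := by
    filter_upwards [dl_le_one H] with n hn
    rw [hδ']
    simp only [if_pos hn]
  obtain ⟨E, C, hC, hE⟩ := branch φ p η h0 h1 v' δ' (by
    intro n
    rw [hδ']
    simp only []
    split_ifs with h
    · exact ⟨dl_nonneg _ _ _ _, h⟩
    · exact ⟨le_rfl, zero_le_one⟩) ((dl_tendsto H).congr' (by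
      filter_upwards [hδ1] with n hn
      exact hn.symm)) (by
    intro n i
    rw [hv', hδ']
    simp only []
    split_ifs with h
    · exact le_dl _ _ _ _ _
    · simp) Y hY (by
    filter_upwards [hroot, hv1] with n h2 h3
    rw [h3]
    exact h2) r
  refine ⟨E, ?_⟩
  have h2 := Sm.mul H.big (Sm.const H.big (C : ℂ)) (Sm.pow H.big (sm_dl H) (r + 1))
  rw [zero_add, mul_neg, mul_one] at h2
  refine h2.le ?_
  filter_upwards [hE, hv1, hδ1] with n h3 h4 h5
  rw [h4, h5] at h3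
  rw [norm_mul, norm_pow, Complex.norm_real, Complex.norm_real, Real.norm_of_nonneg hC,
    Real.norm_of_nonneg (dl_nonneg _ _ _ _)]
  exact h3

omit H in
/-- **Expansion of a polynomial in the local parameters.** -/
theorem expandδ (E : MvPolynomial (Option σ) K) (D : ℕ) :
    ∃ (c : Ex (Option σ) D → K) (C : ℝ), 0 ≤ C ∧ ∀ (Q : ℝ), 0 < Q → ∀ (f : σ → ℝ) (δ : ℝ),
      0 ≤ δ → δ ≤ 1 → (∀ i, |vv Q f i| ≤ δ) →
      ‖(Q : ℂ) ^ D * evr φ (vv Q f) E - ∑ a : Ex (Option σ) D, φ (c a) *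
        ((Q : ℂ) ^ (a.1 none) * ∏ s, (f s : ℂ) ^ (a.1 (some s)))‖ ≤ Q ^ D * (C * δ ^ (D + 1)) := by
  classical
  -- the part of high order
  set E1 : MvPolynomial (Option σ) K := ∑ a : Ex (Option σ) D, monomial (fs a.1) (coeff (fs a.1) E)
    with hE1
  have hhigh : Ord φ (D + 1) (E - E1) := by
    have h1 : E - E1 = ∑ α ∈ (E - E1).support, monomial α (coeff α (E - E1)) := (E - E1).as_sum
    rw [h1]
    refine Ord.sum φ _ _ _ fun α hα => ?_
    refine (Ord.monom φ α _).mono φ ?_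
    by_contra hlt
    push Not at hlt
    rw [MvPolynomial.mem_support_iff] at hα
    apply hα
    have hmem : ((α : Option σ → ℕ)) ∈ Ex (Option σ) D := by
      rw [mem_Ex]
      omega
    rw [coeff_sub, hE1, coeff_sum, Finset.sum_eq_single ⟨(α : Option σ → ℕ), hmem⟩]
    · rw [coeff_monomial, fs_coe, if_pos rfl, sub_self]
    · intro b _ hb
      rw [coeff_monomial, if_neg]
      intro h
      apply hb
      apply Subtype.ext
      exact congrArg (fun n : Option σ →₀ ℕ => (n : Option σ → ℕ)) h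
    · intro h
      exact absurd (Finset.mem_univ _) h
  obtain ⟨C, hC, hb⟩ := hhigh
  refine ⟨fun a => coeff (fs (inv D a.1)) E * (-1) ^ (∑ s, a.1 (some s)), C, hC, ?_⟩
  intro Q hQ0 f δ hδ0 hδ1 hf
  have hQc : (Q : ℂ) ≠ 0 := by exact_mod_cast hQ0.ne'
  have hmain : (Q : ℂ) ^ D * evr φ (vv Q f) E1 = ∑ a : Ex (Option σ) D,
      φ (coeff (fs (inv D a.1)) E * (-1) ^ (∑ s, a.1 (some s))) *
        ((Q : ℂ) ^ (a.1 none) * ∏ s, (f s : ℂ) ^ (a.1 (some s))) := by
    set e : Ex (Option σ) D ≃ Ex (Option σ) D :=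
      ⟨fun a => ⟨inv D a.1, inv_mem a.2⟩, fun a => ⟨inv D a.1, inv_mem a.2⟩,
        fun a => Subtype.ext (inv_inv a.2), fun a => Subtype.ext (inv_inv a.2)⟩ with he
    rw [← Equiv.sum_comp e, hE1, map_sum, Finset.mul_sum]
    refine Finset.sum_congr rfl fun a _ => ?_
    have h1 : (e a).1 = inv D a.1 := rfl
    rw [h1, inv_inv a.2]
    have h2 : evr φ (vv Q f) (monomial (fs a.1) (coeff (fs a.1) E))
        = φ (coeff (fs a.1) E) * ((1 / Q : ℂ) ^ (a.1 none) * ∏ s, (-f s / Q : ℂ) ^ (a.1 (some s))) := by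
      unfold evr
      rw [coe_eval₂Hom, eval₂_monomial, Finsupp.prod_fintype _ _ (by simp), Fintype.prod_option]
      congr 2
      · simp only [vv, Option.elim]
        push_cast
        rfl
      · refine Finset.prod_congr rfl fun s _ => ?_
        simp only [vv, Option.elim]
        push_cast
        rfl
    rw [h2, map_mul, map_pow, map_neg, map_one]
    have h3 : (inv D a.1) none = D - ∑ i, a.1 i := rfl
    have h4 : ∀ s, (inv D a.1) (some s) = a.1 (some s) := fun s => rfl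
    simp only [h3, h4]
    have h5 : ∏ s, (-f s / Q : ℂ) ^ (a.1 (some s)) = (-1) ^ (∑ s, a.1 (some s))
        * (∏ s, (f s : ℂ) ^ (a.1 (some s))) * (1 / Q : ℂ) ^ (∑ s, a.1 (some s)) := by
      rw [← Finset.prod_pow_eq_pow_sum, ← Finset.prod_pow_eq_pow_sum, ← Finset.prod_mul_distrib,
        ← Finset.prod_mul_distrib]
      refine Finset.prod_congr rfl fun s _ => ?_
      rw [← mul_pow, ← mul_pow]
      congr 1
      ring
    rw [h5]
    have h6 : (Q : ℂ) ^ D = (Q : ℂ) ^ (D - ∑ i, a.1 i) * (Q : ℂ) ^ (a.1 none)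
        * (Q : ℂ) ^ (∑ s, a.1 (some s)) := by
      rw [← pow_add, ← pow_add]
      congr 1
      have := mem_Ex.1 a.2
      rw [Fintype.sum_option] at this ⊢
      omega
    rw [h6]
    have h7 : ∀ k : ℕ, (Q : ℂ) ^ k * (1 / Q : ℂ) ^ k = 1 := by
      intro k
      rw [← mul_pow, mul_one_div_cancel hQc, one_pow]
    calc _ = φ (coeff (fs a.1) E) * (-1) ^ (∑ s, a.1 (some s)) * ((Q : ℂ) ^ (D - ∑ i, a.1 i)
        * (∏ s, (f s : ℂ) ^ (a.1 (some s)))) * ((Q : ℂ) ^ (a.1 none) * (1 / Q : ℂ) ^ (a.1 none))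
        * ((Q : ℂ) ^ (∑ s, a.1 (some s)) * (1 / Q : ℂ) ^ (∑ s, a.1 (some s))) := by ring
      _ = _ := by rw [h7, h7]; ring
  rw [← hmain, ← mul_sub, ← map_sub, norm_mul, norm_pow, Complex.norm_real, Real.norm_of_nonneg hQ0.le]
  exact mul_le_mul_of_nonneg_left (hb (vv Q f) δ hδ0 hδ1 hf) (by positivity)

/-- the expansion along a sequence of points -/
theorem expand' (E : MvPolynomial (Option σ) K) (D : ℕ) :
    ∃ c : Ex (Option σ) D → K, Sm q (-1) (fun n => (q n : ℂ) ^ D * evr φ (vs θ q x n) E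
      - ∑ a : Ex (Option σ) D, φ (c a) * ((zv θ (q n) (x n) a.1 : ℝ) : ℂ)) := by
  obtain ⟨c, C, hC, hc⟩ := expandδ φ E D
  refine ⟨c, ?_⟩
  have h1 := Sm.mul H.big (Sm.qpow H.big D) (Sm.mul H.big (Sm.const H.big (C : ℂ))
    (Sm.pow H.big (sm_dl H) (D + 1)))
  have e1 : (D : ℝ) + (0 + ((D + 1 : ℕ) : ℝ) * -1) = -1 := by push_cast; ring
  rw [e1] at h1
  refine h1.le ?_
  filter_upwards [dl_le_one H] with n hn
  have h2 := hc (q n) (qpos H.big n) (fr θ (q n) (x n)) (dl θ q x n) (dl_nonneg _ _ _ _) hn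
    (le_dl _ _ _ _)
  have h3 : ∀ a : Ex (Option σ) D, ((zv θ (q n) (x n) a.1 : ℝ) : ℂ)
      = ((q n : ℝ) : ℂ) ^ (a.1 none) * ∏ s, (fr θ (q n) (x n) s : ℂ) ^ (a.1 (some s)) := by
    intro a
    unfold zv
    push_cast
    rfl
  simp only [h3]
  rw [norm_mul, norm_pow, norm_mul, norm_pow, Complex.norm_real, Complex.norm_real,
    Complex.norm_natCast, Real.norm_of_nonneg hC, Real.norm_of_nonneg (dl_nonneg _ _ _ _)]
  push_cast at h2 ⊢
  exact h2

end

end Pool.Agent.Q4.Tube
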