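import Mathlib
import Pool.Agent.Q4.Tube.Exp

set_option autoImplicit false
set_option linter.unusedSectionVars false

/-!
# Algebraic functions at integral points near a ray
-/

namespace Pool.Agent.Q4.Tube

open Filter Topology Pool.Agent.TH932.Abs Pool.Agent.TH932.Germs Pool.Agent.TH932.Chi
open Pool.Agent.TH796.AL Pool.Agent.Q4.Blk Pool.Agent.Q4.Gcd Pool.Agent.Q4.Cov Module

section
variable {σ : Type} [Fintype σ] [DecidableEq σ]

open MvPolynomial

lemma evr_hmgx {K : Type*} [Field K] (φ : K →+* ℂ) {θK : σ → K} {θ : σ → ℝ}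
    (hθ : ∀ s, φ (θK s) = (θ s : ℂ)) (d : ℕ)
    (F : MvPolynomial (Option σ) ℤ) (hd : F.totalDegree ≤ d) (q : ℕ) (hq : q ≠ 0) (x : σ → ℤ) :
    (q : ℂ) ^ d * evr φ (vv q (fr θ q x)) (hmg θK d F) = ((eval (px q x) F : ℤ) : ℂ) := by
  have hqc : (q : ℂ) ≠ 0 := by exact_mod_cast hq
  have hqr : (q : ℝ) ≠ 0 := by exact_mod_cast hq
  unfold hmg
  rw [map_sum, Finset.mul_sum, eval_eq', Int.cast_sum]
  refine Finset.sum_congr rfl fun α hα => ?_
  rw [map_mul, map_mul, map_pow, map_prod]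
  simp only [map_pow, map_add]
  have h1 : ∀ c : K, evr φ (vv q (fr θ q x)) (C c) = φ c := fun c => by unfold evr; simp
  have h2 : ∀ i : Option σ, evr φ (vv q (fr θ q x)) (X i) = ((vv q (fr θ q x) i : ℝ) : ℂ) :=
    fun i => by unfold evr; simp
  simp only [h1, h2, hθ]
  have h3 : ∀ s, (θ s : ℂ) + ((vv q (fr θ q x) (some s) : ℝ) : ℂ) = (x s : ℂ) * (1 / q) := by
    intro s
    have h4 : θ s + vv q (fr θ q x) (some s) = (x s : ℝ) * (1 / q) := by
      simp only [vv, Option.elim, fr]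
      field_simp
      ring
    have h5 : ((θ s + vv q (fr θ q x) (some s) : ℝ) : ℂ) = (((x s : ℝ) * (1 / q) : ℝ) : ℂ) := by
      rw [h4]
    push_cast at h5
    exact h5
  have h4 : ((vv q (fr θ q x) none : ℝ) : ℂ) = 1 / q := by
    simp only [vv, Option.elim]
    push_cast
    rfl
  simp only [h3, h4, mul_pow, Finset.prod_mul_distrib]
  rw [Finset.prod_pow_eq_pow_sum]
  have h6 : ∑ i, α i ≤ d := by
    have := le_totalDegree hα
    rw [sum_fs] at this
    exact this.trans hd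
  have h7 : (q : ℂ) ^ d = (q : ℂ) ^ (α none) * (q : ℂ) ^ (d - ∑ i, α i)
      * (q : ℂ) ^ (∑ s, α (some s)) := by
    rw [← pow_add, ← pow_add]
    congr 1
    rw [Fintype.sum_option] at h6 ⊢
    omega
  have h8 : ∀ k : ℕ, (q : ℂ) ^ k * (1 / q : ℂ) ^ k = 1 := by
    intro k
    rw [← mul_pow, mul_one_div_cancel hqc, one_pow]
  rw [h7, map_intCast]
  push_cast
  rw [Fintype.prod_option]
  simp only [px, Option.elim]
  push_cast
  calc _ = ((F.coeff α : ℤ) : ℂ) * ((q : ℂ) ^ (α none) * ∏ s, (x s : ℂ) ^ (α (some s)))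
        * ((q : ℂ) ^ (d - ∑ i, α i) * (1 / q : ℂ) ^ (d - ∑ i, α i))
        * ((q : ℂ) ^ (∑ s, α (some s)) * (1 / q : ℂ) ^ (∑ s, α (some s))) := by ring
    _ = _ := by rw [h8, h8]; ring

/-- the polynomial in the local parameters -/
noncomputable def ptl (P : Polynomial (MvPolynomial (Option σ) ℤ)) (D d : ℕ) (θK : σ → QB) :
    Polynomial (MvPolynomial (Option σ) QB) :=
  ∑ i ∈ Finset.range (P.natDegree + 1),
    Polynomial.C (hmg θK ((P.natDegree - i) * D + d) (P.coeff i)) * Polynomial.X ^ i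

/-- the polynomial at infinity -/
noncomputable def pnf {R : Type*} [CommRing R] (P : Polynomial (MvPolynomial (Option σ) ℤ))
    (D d : ℕ) (t : σ → R) : Polynomial R :=
  ∑ i ∈ Finset.range (P.natDegree + 1),
    Polynomial.C (topv ((P.natDegree - i) * D + d) (P.coeff i) t) * Polynomial.X ^ i

/-- evaluation of the coefficients at the point -/
noncomputable def evx (q : ℕ) (x : σ → ℤ) (K : Type*) [Ring K] : MvPolynomial (Option σ) ℤ →+* K :=
  (Int.castRingHom K).comp (eval (px q x))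

variable {P : Polynomial (MvPolynomial (Option σ) ℤ)} {D d : ℕ}

lemma ptl_cc (hdeg : ∀ i, (P.coeff i).totalDegree ≤ (P.natDegree - i) * D + d) (θK : σ → QB) :
    (ptl P D d θK).map constantCoeff = pnf P D d θK := by
  unfold ptl pnf
  rw [Polynomial.map_sum]
  refine Finset.sum_congr rfl fun i _ => ?_
  rw [Polynomial.map_mul, Polynomial.map_pow, Polynomial.map_X, Polynomial.map_C,
    cc_hmg θK _ _ (hdeg i)]

lemma pnf_map {R R' : Type*} [CommRing R] [CommRing R'] (f : R →+* R') (t : σ → R) :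
    (pnf P D d t).map f = pnf P D d (fun s => f (t s)) := by
  unfold pnf
  rw [Polynomial.map_sum]
  refine Finset.sum_congr rfl fun i _ => ?_
  rw [Polynomial.map_mul, Polynomial.map_pow, Polynomial.map_X, Polynomial.map_C, topv_map]

lemma pnf_coeff {R : Type*} [CommRing R] (t : σ → R) {j : ℕ} (hj : j ≤ P.natDegree) :
    (pnf P D d t).coeff j = topv ((P.natDegree - j) * D + d) (P.coeff j) t := by
  unfold pnf
  rw [Polynomial.finsetSum_coeff, Finset.sum_eq_single j]
  · rw [Polynomial.coeff_C_mul, Polynomial.coeff_X_pow, if_pos rfl, mul_one]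
  · intro i _ hi
    rw [Polynomial.coeff_C_mul, Polynomial.coeff_X_pow, if_neg (Ne.symm hi), mul_zero]
  · intro h
    exact absurd (Finset.mem_range.2 (Nat.lt_succ_of_le hj)) h

lemma pnf_coeff_top {R : Type*} [CommRing R] (t : σ → R) :
    (pnf P D d t).coeff P.natDegree = topv d P.leadingCoeff t := by
  rw [pnf_coeff t le_rfl, Nat.sub_self, zero_mul, zero_add]
  rfl

lemma ptl_eval {θ : σ → ℝ} {θK : σ → QB} (hθ : ∀ s, phi (θK s) = (θ s : ℂ))
    (hdeg : ∀ i, (P.coeff i).totalDegree ≤ (P.natDegree - i) * D + d) {q : ℕ} (hq : q ≠ 0)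
    (x : σ → ℤ) (ρ : ℂ) :
    (q : ℂ) ^ (P.natDegree * D + d) * ((ptl P D d θK).map (evr phi (vv q (fr θ q x)))).eval (ρ / q ^ D)
      = (P.map (evx q x ℂ)).eval ρ := by
  have hqc : (q : ℂ) ≠ 0 := by exact_mod_cast hq
  have h1 : (P.map (evx q x ℂ)).eval ρ
      = ∑ i ∈ Finset.range (P.natDegree + 1), ((eval (px q x) (P.coeff i) : ℤ) : ℂ) * ρ ^ i := by
    rw [Polynomial.eval_map, Polynomial.eval₂_eq_sum_range]
    rfl
  rw [h1]
  unfold ptl
  rw [Polynomial.map_sum, Polynomial.eval_finsetSum, Finset.mul_sum]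
  refine Finset.sum_congr rfl fun i hi => ?_
  rw [Polynomial.map_mul, Polynomial.map_pow, Polynomial.map_X, Polynomial.map_C,
    Polynomial.eval_mul, Polynomial.eval_pow, Polynomial.eval_X, Polynomial.eval_C,
    ← evr_hmgx phi hθ _ _ (hdeg i) q hq x]
  have hi' : i ≤ P.natDegree := Nat.lt_succ_iff.1 (Finset.mem_range.1 hi)
  have h2 : (q : ℂ) ^ (P.natDegree * D + d)
      = (q : ℂ) ^ ((P.natDegree - i) * D + d) * ((q : ℂ) ^ D) ^ i := by
    rw [← pow_mul, ← pow_add]
    congr 1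
    have : P.natDegree = (P.natDegree - i) + i := by omega
    conv_lhs => rw [this]
    ring
  rw [h2, div_pow]
  have h3 : ((q : ℂ) ^ D) ^ i ≠ 0 := pow_ne_zero _ (pow_ne_zero _ hqc)
  field_simp

variable {S : Finset ℕ} {θ : σ → ℝ} {q : ℕ → ℕ} {x : ℕ → σ → ℤ} (H : Tub S θ q x)

include H

lemma px_ne (n : ℕ) : q n ≠ 0 := by have := H.big n; omega

/-- roots of the polynomials are bounded -/
lemma root_bnd (θK : σ → QB) (hlead : topv d P.leadingCoeff θK ≠ 0)
    (hdeg : ∀ i, (P.coeff i).totalDegree ≤ (P.natDegree - i) * D + d) :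
    ∃ M : ℝ, ∀ᶠ n in (UU : Filter ℕ), ∀ y : ℂ,
      ((ptl P D d θK).map (evr phi (vs θ q x n))).eval y = 0 → ‖y‖ ≤ M := by
  have hb : ∀ E : MvPolynomial (Option σ) QB, ∃ M : ℝ, 0 ≤ M ∧ ∀ᶠ n in (UU : Filter ℕ),
      ‖evr phi (vs θ q x n) E‖ ≤ M := by
    intro E
    refine ⟨‖phi (constantCoeff E)‖ + 1, by positivity, ?_⟩
    filter_upwards [(lim_evr phi H E).norm.eventually (gt_mem_nhds
      (show ‖phi (constantCoeff E)‖ < ‖phi (constantCoeff E)‖ + 1 by linarith))] with n hn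
    exact hn.le
  choose M hM0 hM using fun i => hb (hmg θK ((P.natDegree - i) * D + d) (P.coeff i))
  have hlim := (lim_evr phi H (hmg θK d P.leadingCoeff)).norm
  have hdl : (P.leadingCoeff).totalDegree ≤ d := by
    have := hdeg P.natDegree
    rwa [Nat.sub_self, zero_mul, zero_add] at this
  rw [cc_hmg θK d _ hdl] at hlim
  set c : ℝ := ‖phi (topv d P.leadingCoeff θK)‖ with hc
  have hc0 : 0 < c := norm_pos_iff.2 ((map_ne_zero _).2 hlead)
  refine ⟨max 1 ((∑ i ∈ Finset.range P.natDegree, M i) / (c / 2)), ?_⟩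
  have hall : ∀ᶠ n in (UU : Filter ℕ), ∀ i ∈ Finset.range P.natDegree,
      ‖evr phi (vs θ q x n) (hmg θK ((P.natDegree - i) * D + d) (P.coeff i))‖ ≤ M i := by
    rw [Filter.eventually_all_finset]
    exact fun i _ => hM i
  filter_upwards [hlim.eventually (lt_mem_nhds (show c / 2 < c by linarith)), hall] with n hn hMn y hy
  by_cases hy1 : ‖y‖ ≤ 1
  · exact hy1.trans (le_max_left _ _)
  push Not at hy1
  refine le_trans ?_ (le_max_right _ _)
  unfold ptl at hy
  rw [Polynomial.map_sum, Polynomial.eval_finsetSum, Finset.sum_range_succ] at hy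
  have h1 : ∀ i, (Polynomial.map (evr phi (vs θ q x n))
      (Polynomial.C (hmg θK ((P.natDegree - i) * D + d) (P.coeff i)) * Polynomial.X ^ i)).eval y
      = evr phi (vs θ q x n) (hmg θK ((P.natDegree - i) * D + d) (P.coeff i)) * y ^ i := by
    intro i
    rw [Polynomial.map_mul, Polynomial.map_pow, Polynomial.map_X, Polynomial.map_C,
      Polynomial.eval_mul, Polynomial.eval_pow, Polynomial.eval_X, Polynomial.eval_C]
  simp only [h1] at hy
  rw [Nat.sub_self, zero_mul, zero_add] at hy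
  have hlc : P.coeff P.natDegree = P.leadingCoeff := rfl
  rw [hlc] at hy
  by_cases hk : P.natDegree = 0
  · rw [hk] at hy
    simp only [Finset.range_zero, Finset.sum_empty, pow_zero, mul_one, zero_add] at hy
    rw [hy, norm_zero] at hn
    linarith
  have h2 : evr phi (vs θ q x n) (hmg θK d P.leadingCoeff) * y ^ P.natDegree
      = -∑ i ∈ Finset.range P.natDegree,
      evr phi (vs θ q x n) (hmg θK ((P.natDegree - i) * D + d) (P.coeff i)) * y ^ i :=
    eq_neg_of_add_eq_zero_right hy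
  have h3 : c / 2 * ‖y‖ ^ P.natDegree
      ≤ (∑ i ∈ Finset.range P.natDegree, M i) * ‖y‖ ^ (P.natDegree - 1) := by
    calc c / 2 * ‖y‖ ^ P.natDegree
        ≤ ‖evr phi (vs θ q x n) (hmg θK d P.leadingCoeff)‖ * ‖y‖ ^ P.natDegree :=
          mul_le_mul_of_nonneg_right hn.le (by positivity)
      _ = ‖evr phi (vs θ q x n) (hmg θK d P.leadingCoeff) * y ^ P.natDegree‖ := by
          rw [norm_mul, norm_pow]
      _ ≤ _ := by
          rw [h2, norm_neg, Finset.sum_mul]
          refine (norm_sum_le _ _).trans (Finset.sum_le_sum fun i hi => ?_)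
          rw [norm_mul, norm_pow]
          have := Finset.mem_range.1 hi
          exact mul_le_mul (hMn i hi) (pow_le_pow_right₀ hy1.le (by omega)) (by positivity) (hM0 i)
  have h4 : ‖y‖ ^ P.natDegree = ‖y‖ * ‖y‖ ^ (P.natDegree - 1) := by
    rw [← pow_succ']
    congr 1
    omega
  rw [h4, ← mul_assoc] at h3
  have h5 : (0 : ℝ) < ‖y‖ ^ (P.natDegree - 1) := by positivity
  have h6 := le_of_mul_le_mul_right h3 h5
  rw [le_div_iff₀ (by positivity)]
  linarith

/-- **Approximation of the roots.** -/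
theorem approxS (p : Polynomial (MvPolynomial (Option σ) QB)) (hp0 : p.map constantCoeff ≠ 0)
    (hsep : ∀ η : QB, (p.map constantCoeff).eval η = 0 →
      (p.map constantCoeff).derivative.eval η ≠ 0)
    (Y : ℕ → ℂ) (M : ℝ) (hYb : ∀ᶠ n in (UU : Filter ℕ), ‖Y n‖ ≤ M)
    (hroot : ∀ᶠ n in (UU : Filter ℕ), (p.map (evr phi (vs θ q x n))).eval (Y n) = 0)
    (R : ℕ) :
    ∃ E : MvPolynomial (Option σ) QB, Sm q (-(R + 1 : ℕ)) (fun n => Y n - evr phi (vs θ q x n) E) := by
  obtain ⟨η, hη⟩ := exists_limc Y M hYb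
  have hsum : ∀ (n : ℕ) (z : ℂ), (p.map (evr phi (vs θ q x n))).eval z
      = ∑ i ∈ Finset.range (p.natDegree + 1), evr phi (vs θ q x n) (p.coeff i) * z ^ i := by
    intro n z
    rw [Polynomial.eval_map, Polynomial.eval₂_eq_sum_range]
  have h1 : Tendsto (fun n => (p.map (evr phi (vs θ q x n))).eval (Y n)) (UU : Filter ℕ)
      (𝓝 (∑ i ∈ Finset.range (p.natDegree + 1), phi (constantCoeff (p.coeff i)) * η ^ i)) := by
    simp only [hsum]
    exact tendsto_finsetSum _ fun i _ => (lim_evr phi H _).mul (hη.pow i)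
  have h2 : ∑ i ∈ Finset.range (p.natDegree + 1), phi (constantCoeff (p.coeff i)) * η ^ i = 0 := by
    refine tendsto_nhds_unique h1 ?_
    refine tendsto_const_nhds.congr' ?_
    filter_upwards [hroot] with n hn
    exact hn.symm
  have h3 : Polynomial.aeval η (p.map constantCoeff) = 0 := by
    rw [Polynomial.aeval_eq_sum_range' (n := p.natDegree + 1)
      (Nat.lt_succ_of_le Polynomial.natDegree_map_le), ← h2]
    refine Finset.sum_congr rfl fun i _ => ?_
    rw [Polynomial.coeff_map, Algebra.smul_def]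
  have h4 : IsAlgebraic ℚ η := by
    have h5 : IsAlgebraic QB η := ⟨_, hp0, h3⟩
    have h6 : Algebra.IsAlgebraic ℚ QB := algebraicClosure.isAlgebraic ℚ ℂ
    exact h5.restrictScalars ℚ
  set η' : QB := ⟨η, mem_algebraicClosure_iff.2 h4⟩ with hη'
  have h5 : phi η' = η := rfl
  have h6 : (p.map constantCoeff).eval η' = 0 := by
    apply phi.injective
    rw [map_zero, ← h3, Polynomial.aeval_def, ← h5, Polynomial.eval₂_at_apply]
  exact branch' phi H p η' h6 (hsep η' h6) Y (by rw [h5]; exact hη) hroot R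

/-- expansion of the roots -/
theorem root_exp (halg : ∀ s, IsAlgebraic ℚ (θ s)) (hlead : topv d P.leadingCoeff θ ≠ 0)
    (hdeg : ∀ i, (P.coeff i).totalDegree ≤ (P.natDegree - i) * D + d)
    (hsep : (pnf P D d θ).Separable)
    (ρ : ℕ → ℂ) (hρ : ∀ᶠ n in (UU : Filter ℕ), (P.map (evx (q n) (x n) ℂ)).eval (ρ n) = 0) (R : ℕ) :
    ∃ c : Ex (Option σ) (R + D) → QB, Sm q (-1) (fun n => (q n : ℂ) ^ R * ρ n
      - ∑ a, phi (c a) * ((zv θ (q n) (x n) a.1 : ℝ) : ℂ)) := by
  have hqn0 : ∀ n, q n ≠ 0 := px_ne H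
  set θK : σ → QB := fun s => ⟨(θ s : ℂ), mem_algebraicClosure_iff.2 (alg_of_real.2 (halg s))⟩ with hθK
  have hθ : ∀ s, phi (θK s) = (θ s : ℂ) := fun s => rfl
  have hlead' : topv d P.leadingCoeff θK ≠ 0 := by
    intro h
    have h1 := topv_map phi d P.leadingCoeff θK
    rw [h, map_zero] at h1
    have h2 := topv_map (algebraMap ℝ ℂ) d P.leadingCoeff θ
    have h3 : (fun s => phi (θK s)) = fun s => algebraMap ℝ ℂ (θ s) := rfl
    rw [h3, ← h2] at h1
    exact hlead ((map_eq_zero _).1 h1.symm)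
  obtain ⟨M, hM⟩ := root_bnd (P := P) (D := D) (d := d) H θK hlead' hdeg
  have hcc := ptl_cc hdeg θK
  have hp0 : (ptl P D d θK).map constantCoeff ≠ 0 := by
    rw [hcc]
    intro h
    have h1 := pnf_coeff_top (P := P) (D := D) (d := d) θK
    rw [h, Polynomial.coeff_zero] at h1
    exact hlead' h1.symm
  have hsep' : ∀ η : QB, ((ptl P D d θK).map constantCoeff).eval η = 0 →
      ((ptl P D d θK).map constantCoeff).derivative.eval η ≠ 0 := by
    rw [hcc]
    intro η h1 h2
    have h3 : (pnf P D d (fun s => (θ s : ℂ))).Separable := by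
      have h4 := hsep.map (f := algebraMap ℝ ℂ)
      rw [pnf_map] at h4
      exact h4
    have h4 : (pnf P D d θK).map phi = pnf P D d (fun s => (θ s : ℂ)) := pnf_map phi θK
    rw [← h4] at h3
    obtain ⟨a, b, hab⟩ := h3
    have h5 := congrArg (Polynomial.eval (phi η)) hab
    rw [Polynomial.eval_add, Polynomial.eval_mul, Polynomial.eval_mul, Polynomial.derivative_map,
      Polynomial.eval_map_apply, Polynomial.eval_map_apply, h1, h2] at h5
    simp at h5
  set Y : ℕ → ℂ := fun n => ρ n / (q n : ℂ) ^ D with hY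
  have hroot : ∀ᶠ n in (UU : Filter ℕ), ((ptl P D d θK).map (evr phi (vs θ q x n))).eval (Y n) = 0 := by
    filter_upwards [hρ] with n h1
    have hqc : (q n : ℂ) ≠ 0 := by exact_mod_cast hqn0 n
    rw [← ptl_eval hθ hdeg (hqn0 n) (x n) (ρ n)] at h1
    exact (mul_eq_zero.1 h1).resolve_left (pow_ne_zero _ hqc)
  obtain ⟨E, hE⟩ := approxS H (ptl P D d θK) hp0 hsep' Y M (by
    filter_upwards [hM, hroot] with n h1 h2
    exact h1 _ h2) hroot (R + D)
  obtain ⟨c, hc⟩ := expand' phi H E (R + D)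
  refine ⟨c, ?_⟩
  have h1 := Sm.mul H.big (Sm.qpow H.big (R + D)) hE
  have e1 : ((R + D : ℕ) : ℝ) + -((R + D + 1 : ℕ) : ℝ) = -1 := by push_cast; ring
  rw [e1] at h1
  refine (Sm.add H.big h1 hc).congr (Eventually.of_forall fun n => ?_)
  have hqc : (q n : ℂ) ≠ 0 := by exact_mod_cast hqn0 n
  have h2 : (q n : ℂ) ^ (R + D) * Y n = (q n : ℂ) ^ R * ρ n := by
    rw [hY]
    simp only []
    rw [pow_add]
    field_simp
  rw [mul_sub, h2]
  ring

end

end Pool.Agent.Q4.Tube
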