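import Mathlib
import Pool.Agent.Q4.Tube.Root
import Pool.Agent.Q4.Cov.RothThm

set_option autoImplicit false
set_option linter.unusedSectionVars false

/-!
# Applications of the subspace theorem at integral points near a ray
-/

namespace Pool.Agent.Q4.Tube

open Filter Topology Pool.Agent.TH932.Abs Pool.Agent.TH932.Germs Pool.Agent.TH932.Chi
open Pool.Agent.TH796.AL Pool.Agent.Q4.Blk Pool.Agent.Q4.Gcd Pool.Agent.Q4.Cov Module

section
variable {σ : Type} [Fintype σ] [DecidableEq σ]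

open MvPolynomial

/-- the value of a rational polynomial at the point -/
noncomputable def va (q : ℕ) (x : σ → ℤ) : MvPolynomial (Option σ) ℚ →ₐ[ℚ] ℚ :=
  aeval (fun i => (px q x i : ℚ))

lemma map_px (R : MvPolynomial (Option σ) ℤ) (q : ℕ) (x : σ → ℤ) :
    va q x (map (Int.castRingHom ℚ) R) = ((eval (px q x) R : ℤ) : ℚ) := by
  have h1 := eval₂_comp_left (Int.castRingHom ℚ) (RingHom.id ℤ) (px q x) R
  rw [eval₂_id] at h1
  unfold va
  rw [aeval_def, eval₂_map, Subsingleton.elim ((algebraMap ℚ ℚ).comp (Int.castRingHom ℚ))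
    ((Int.castRingHom ℚ).comp (RingHom.id ℤ))]
  exact h1.symm

lemma va_X (q : ℕ) (x : σ → ℤ) (i : Option σ) : va q x (X i) = (px q x i : ℚ) := by
  unfold va
  rw [aeval_X]

lemma va_X0 (q : ℕ) (x : σ → ℤ) : va q x (X none) = (q : ℚ) := by
  rw [va_X]
  simp [px]

lemma va_polyOf {D : ℕ} (γ : Ex (Option σ) D → ℚ) (q : ℕ) (x : σ → ℤ) :
    va q x (polyOf γ) = ∑ a, γ a * ∏ i, (px q x i : ℚ) ^ (a.1 i) := aeval_polyOf γ _

lemma polyOf_cf {D : ℕ} {R : MvPolynomial (Option σ) ℚ} (hR : R.totalDegree ≤ D) :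
    polyOf (cf D R) = R := by
  ext n
  by_cases h : (n : Option σ → ℕ) ∈ Ex (Option σ) D
  · have h1 := coeff_polyOf (cf D R) ⟨(n : Option σ → ℕ), h⟩
    rw [fs_coe, cf_apply, fs_coe] at h1
    exact h1
  · have h1 : coeff n R = 0 := by
      by_contra hne
      have h2 := le_totalDegree (mem_support_iff.2 hne)
      rw [sum_fs] at h2
      exact h (mem_Ex.2 (h2.trans hR))
    rw [h1]
    unfold polyOf
    rw [coeff_sum]
    refine Finset.sum_eq_zero fun a _ => ?_
    rw [coeff_monomial, if_neg]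
    rintro rfl
    exact h a.2

instance countable_mvp : Countable (MvPolynomial (Option σ) ℚ) := by
  have hs : Function.Surjective
      (fun p : Σ d : ℕ, (Ex (Option σ) d → ℚ) => (polyOf p.2 : MvPolynomial (Option σ) ℚ)) := by
    intro R
    exact ⟨⟨R.totalDegree, cf R.totalDegree R⟩, polyOf_cf le_rfl⟩
  exact hs.countable

lemma tendsto_logx {S : Finset ℕ} {θ : σ → ℝ} {q : ℕ → ℕ} {x : ℕ → σ → ℤ} (H : Tub S θ q x) :
    Tendsto (fun n => Real.log (q n)) atTop atTop := tendsto_logq H.big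

variable (S : Finset ℕ) (hS : ∀ p ∈ S, p.Prime) {θ : σ → ℝ} (halg : ∀ s, IsAlgebraic ℚ (θ s))
  (hind : LinearIndependent ℚ (fun o : Option σ => (o.elim 1 (fun s => θ s) : ℝ)))
  {q : ℕ → ℕ} {x : ℕ → σ → ℤ} (H : Tub S θ q x)

include hS halg hind H

/-- a polynomial with small values is constant -/
theorem small_constT (R : MvPolynomial (Option σ) ℚ) (z w : ℕ → ℤ) (hw : ∀ᶠ n in (UU : Filter ℕ), w n ≠ 0)
    (hz : ∀ᶠ n in (UU : Filter ℕ), va (q n) (x n) R * w n = z n)
    (hsm : ∀ ε : ℝ, 0 < ε → ∀ᶠ n in (UU : Filter ℕ), |(z n : ℝ)| ≤ (q n : ℝ) ^ ε)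
    (hsm' : ∀ ε : ℝ, 0 < ε → ∀ᶠ n in (UU : Filter ℕ), |(w n : ℝ)| ≤ (q n : ℝ) ^ ε) :
    R = C (constantCoeff R) ∧ ∀ᶠ n in (UU : Filter ℕ), constantCoeff R * w n = z n := by
  classical
  have hL := tendsto_logx H
  obtain ⟨F, hfin, θ', c', g0, κ, y, -, HF, hg, hg0, hκ, hu, hX, hZ⟩ :=
    tub_setup S hS θ halg hind H hL (fun _ : Fin 0 => (0 : ℝ)) (fun a => a.elim0)
  have hg1 : lv (bas S hS) none g0 ≠ 0 := by rw [hg]; norm_num
  have hpow : ∀ n (ε : ℝ), (q n : ℝ) ^ ε = Real.exp (ε * Real.log (q n)) := fun n ε => by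
    rw [Real.rpow_def_of_pos (qpos H.big n), mul_comm]
  set μ : KK (fun n => Real.log (q n)) hL := ⟨gm (fun n => (z n : ℚ)), small_mem hL z (by
    intro ε hε
    filter_upwards [hsm ε hε] with n hn
    rw [hpow] at hn
    exact hn)⟩ with hμ
  set ν : KK (fun n => Real.log (q n)) hL := ⟨gm (fun n => (w n : ℚ)), small_mem hL w (by
    intro ε hε
    filter_upwards [hsm' ε hε] with n hn
    rw [hpow] at hn
    exact hn)⟩ with hν
  have hν0 : ν ≠ 0 := by
    intro h
    have h1 : gm (fun n => (w n : ℚ)) = 0 := congrArg Subtype.val h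
    have h2 : gm (fun n => (w n : ℚ)) ≠ 0 := by
      rw [gm_ne_zero]
      filter_upwards [hw] with n hn
      exact_mod_cast hn
    exact h2 h1
  set d := R.totalDegree with hd
  set o0 : Ex (Option σ) d := ⟨fun _ => 0, by rw [mem_Ex]; simp⟩ with ho0
  have h1 := Xh_indep hL HF hg1 hκ d
    (fun a => ν * ((cf d R a : ℚ) : KK (fun n => Real.log (q n)) hL) - (if a = o0 then μ else 0)) (by
    have h2 : ∀ a : Ex (Option σ) d, (((ν * ((cf d R a : ℚ) : KK (fun n => Real.log (q n)) hL)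
        - (if a = o0 then μ else 0) : KK (fun n => Real.log (q n)) hL) : GG)
          * Xh hL κ g0 y (bas S hS) a.1)
        = gm (fun n => (w n : ℚ)) * (((cf d R a : ℚ) : GG) * gm (fun n => ∏ i, (px (q n) (x n) i : ℚ) ^ (a.1 i)))
          - (if a = o0 then gm (fun n => (z n : ℚ)) else 0) := by
      intro a
      rw [hX]
      push_cast
      rw [sub_mul, mul_assoc]
      congr 1
      split_ifs with h
      · rw [h]
        simp only [ho0, pow_zero, Finset.prod_const_one]
        have : gm (fun _ => (1 : ℚ)) = 1 := gm_one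
        rw [this, mul_one]
      · simp
    simp only [h2]
    rw [Finset.sum_sub_distrib, Finset.sum_ite_eq' Finset.univ o0]
    simp only [Finset.mem_univ, if_true, rat_gm, gm_mul]
    rw [gm_sum, sub_eq_zero, gm_eq]
    filter_upwards [hz] with n hn
    rw [← hn]
    unfold va
    rw [eval_cf (le_refl R.totalDegree), Finset.sum_mul]
    refine Finset.sum_congr rfl fun a _ => ?_
    change _ = (cf d R a * _) * _
    ring)
  have hcoef : ∀ a : Ex (Option σ) d, a ≠ o0 → cf d R a = 0 := by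
    intro a ha
    have h2 := h1 a
    simp only [if_neg ha, sub_zero] at h2
    have h3 := (mul_eq_zero.1 h2).resolve_left hν0
    exact_mod_cast h3
  have hR : R = C (constantCoeff R) := by
    ext n
    rw [coeff_C]
    split_ifs with h
    · rw [← h]; rfl
    · by_contra hne
      have h3 : n ∈ R.support := mem_support_iff.2 hne
      have h4 := le_totalDegree h3
      rw [sum_fs] at h4
      have h5 := hcoef ⟨(n : Option σ → ℕ), mem_Ex.2 h4⟩ (by
        intro h6
        apply h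
        have h7 := congrArg Subtype.val h6
        ext i
        exact (congrFun h7 i).symm)
      rw [cf_apply, fs_coe] at h5
      exact hne h5
  refine ⟨hR, ?_⟩
  filter_upwards [hz] with n hn
  rw [← hn]
  conv_rhs => rw [hR]
  unfold va
  rw [aeval_C]
  rfl

/-- a polynomial with zeros is zero -/
theorem vanishT (R : MvPolynomial (Option σ) ℚ)
    (hz : ∀ᶠ n in (UU : Filter ℕ), va (q n) (x n) R = 0) : R = 0 := by
  obtain ⟨h1, h2⟩ := small_constT S hS halg hind H R (fun _ => 0) (fun _ => 1)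
    (Eventually.of_forall fun _ => one_ne_zero)
    (by simpa using hz) (fun ε hε => Eventually.of_forall fun n => by
      simp only [Int.cast_zero, abs_zero]
      have := qpos H.big n
      positivity) (fun ε hε => by
      simpa using big_ev H.big 1 hε)
  obtain ⟨n, hn⟩ := h2.exists
  simp only [Int.cast_one, mul_one, Int.cast_zero] at hn
  rw [h1, hn]
  simp

/-- the nonvanishing of values -/
theorem va_ne (R : MvPolynomial (Option σ) ℚ) (hR : R ≠ 0) :
    ∀ᶠ n in (UU : Filter ℕ), va (q n) (x n) R ≠ 0 := by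
  have h1 : ¬ ∀ᶠ n in (UU : Filter ℕ), va (q n) (x n) R = 0 :=
    fun h => hR (vanishT S hS halg hind H R h)
  exact Ultrafilter.eventually_not.2 h1

/-- equality of polynomials -/
theorem va_inj {R R' : MvPolynomial (Option σ) ℚ}
    (hz : ∀ᶠ n in (UU : Filter ℕ), va (q n) (x n) R = va (q n) (x n) R') : R = R' := by
  rw [← sub_eq_zero]
  apply vanishT S hS halg hind H
  filter_upwards [hz] with n hn
  rw [map_sub, hn, sub_self]

/-- **The engine**: integers close to twisted expansions. -/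
theorem engineT (D : ℕ) (cc : ℕ → ℕ) (hc0 : ∀ n, cc n ≠ 0) (hcS : ∀ n, (cc n).primeFactors ⊆ S)
    (K R : ℕ) (hcK : ∀ n, cc n ≤ q n ^ K) (z : ℕ → ℤ) (c : Ex (Option σ) D → QB) (δ : ℝ) (hδ : 0 < δ)
    (happ : Sm q (-δ) (fun n => (z n : ℂ) - ((cc n : ℂ) / (q n : ℂ) ^ R)
      * ∑ a, phi (c a) * ((zv θ (q n) (x n) a.1 : ℝ) : ℂ))) :
    ∃ G : MvPolynomial (Option σ) ℚ, G.totalDegree ≤ D ∧ ∀ᶠ n in (UU : Filter ℕ), (z n : ℚ)
      = (cc n / (q n : ℚ) ^ R) * va (q n) (x n) G := by
  classical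
  have hL := tendsto_logx H
  have hq0 : ∀ n, q n ≠ 0 := px_ne H
  obtain ⟨F, hfin, θ', c', g0, κ, y, hc', HF, hg, hg0, hκ, hu, hX, hZ⟩ :=
    tub_setup S hS θ halg hind H hL (fun a : Ex (Option σ) D => (phi (c a)).re)
      (fun a => alg_re (alg_QB (c a)))
  have hg1 : lv (bas S hS) none g0 ≠ 0 := by rw [hg]; norm_num
  obtain ⟨h, κ', hκ', hcg⟩ := unit_seq S hS q H.big hL cc hc0 hcS K hcK
  -- the twist
  have hκR : κ' * (κ ^ R)⁻¹ ≠ 0 := mul_ne_zero hκ' (inv_ne_zero (pow_ne_zero _ hκ))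
  have hT : gm (fun n => (cc n : ℚ) / (q n : ℚ) ^ R)
      = ((κ' * (κ ^ R)⁻¹ : KK (fun n => Real.log (q n)) hL) : GG)
        * ch (bas S hS) hL (h - (R : ℝ) • g0) := by
    have h1 : gm (fun n => (cc n : ℚ) / (q n : ℚ) ^ R) * gm (fun n => (q n : ℚ)) ^ R
        = gm (fun n => (cc n : ℚ)) := by
      rw [gm_pow, gm_mul]
      congr 1
      funext n
      have : (q n : ℚ) ≠ 0 := by exact_mod_cast hq0 n
      field_simp
    have h2 : gm (fun n => (q n : ℚ)) ≠ 0 := by
      rw [gm_ne_zero]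
      exact Eventually.of_forall fun n => by exact_mod_cast hq0 n
    apply mul_right_cancel₀ (pow_ne_zero R h2)
    rw [h1, hcg, hu, mul_pow, ← ch_nsmul]
    have h3 : ch (bas S hS) hL (h - (R : ℝ) • g0) * ch (bas S hS) hL ((R : ℝ) • g0)
        = ch (bas S hS) hL h := by
      rw [← ch_add]
      congr 1
      abel
    have h4 : (κ : GG) ^ R ≠ 0 := pow_ne_zero _ fun h0 => hκ (Subtype.ext h0)
    have h5 : ((κ' * (κ ^ R)⁻¹ : KK (fun n => Real.log (q n)) hL) : GG)
        = (κ' : GG) * ((κ : GG) ^ R)⁻¹ := by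
      push_cast
      rfl
    rw [h5, ← h3]
    field_simp
  obtain ⟨γ, hγ⟩ := form_germ hL HF hg1 hκ D (h - (R : ℝ) • g0) (κ' * (κ ^ R)⁻¹) hκR
    (gm (fun n => (z n : ℚ)))
    (fun v => int_germ hL v z) (Sint_int hL z) c' δ hδ (by
      rw [← hT, rho_gm, rho_gm]
      simp only [hc', hZ, cst_eq, gr_mul]
      rw [gr_sum', gr_sub]
      have h1 : Sm q (-δ) (fun n => ((((z n : ℚ) : ℝ) - ∑ a : Ex (Option σ) D, (phi (c a)).re
          * ((((cc n : ℚ) / (q n : ℚ) ^ R : ℚ) : ℝ) * zv θ (q n) (x n) a.1) : ℝ) : ℂ)) := by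
        refine happ.le (Eventually.of_forall fun n => ?_)
        rw [Complex.norm_real]
        refine le_trans (le_of_eq ?_) (Complex.abs_re_le_norm _)
        rw [Real.norm_eq_abs]
        congr 1
        have h3 : (cc n : ℂ) / (q n : ℂ) ^ R = (((cc n : ℝ) / (q n : ℝ) ^ R : ℝ) : ℂ) := by
          push_cast; rfl
        rw [Complex.sub_re, Complex.intCast_re, h3, Complex.re_ofReal_mul, Complex.re_sum,
          Finset.mul_sum]
        push_cast
        congr 1
        refine Finset.sum_congr rfl fun a _ => ?_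
        rw [Complex.re_mul_ofReal]
        ring
      have h2 := h1.toSR H.big
      rwa [neg_neg] at h2)
  refine ⟨polyOf γ, ?_, ?_⟩
  · unfold polyOf
    refine (totalDegree_finsetSum _ _).trans (Finset.sup_le fun a _ => ?_)
    refine (totalDegree_monomial_le _ _).trans ?_
    have h3 := mem_Ex.1 a.2
    change (fs a.1).sum (fun _ e => e) ≤ _
    rw [sum_fs]
    simpa using h3
  rw [← hT] at hγ
  simp only [hX, rat_gm, gm_mul] at hγ
  rw [gm_sum, gm_eq] at hγ
  filter_upwards [hγ] with n hn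
  rw [hn, va_polyOf, Finset.mul_sum]
  exact Finset.sum_congr rfl fun a _ => by ring

end

end Pool.Agent.Q4.Tube
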