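import Mathlib
import Pool.Agent.Q4.Tube.Eng

set_option autoImplicit false
set_option linter.unusedSectionVars false

/-!
# Common divisors of values of coprime polynomials at integral points near a ray
-/

namespace Pool.Agent.Q4.Tube

open Filter Topology Pool.Agent.TH932.Abs Pool.Agent.TH932.Germs Pool.Agent.TH932.Chi
open Pool.Agent.TH796.AL Pool.Agent.Q4.Blk Pool.Agent.Q4.Gcd Pool.Agent.Q4.Cov Module MvPolynomial

section
variable {σ : Type} [Fintype σ] [DecidableEq σ]

variable (S : Finset ℕ) (hS : ∀ p ∈ S, p.Prime) {θ : σ → ℝ} (halg : ∀ s, IsAlgebraic ℚ (θ s))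
  (hind : LinearIndependent ℚ (fun o : Option σ => (o.elim 1 (fun s => θ s) : ℝ)))
  {q : ℕ → ℕ} {x : ℕ → σ → ℤ} (H : Tub S θ q x)

include hS halg hind H

theorem gcd_seqT [Nonempty σ]
    (P Q : MvPolynomial (Option σ) ℤ) (hP0 : P ≠ 0) (hQ0 : Q ≠ 0)
    (hPQ : IsRelPrime (map (Int.castRingHom ℚ) P) (map (Int.castRingHom ℚ) Q))
    {ε : ℝ} (hε : 0 < ε) (D : ℕ → ℕ) (hD0 : ∀ n, D n ≠ 0)
    (hDP : ∀ n, (D n : ℤ) ∣ eval (px (q n) (x n)) P) (hDQ : ∀ n, (D n : ℤ) ∣ eval (px (q n) (x n)) Q)
    (hbig : ∀ᶠ n in (UU : Filter ℕ), (q n : ℝ) ^ ε ≤ D n) : False := by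
  classical
  set B := bas S hS with hB
  set L : ℕ → ℝ := fun n => Real.log (q n) with hLdef
  have hL : Tendsto L atTop atTop := tendsto_logx H
  have hq0 : ∀ n, q n ≠ 0 := px_ne H
  have hLpos : ∀ n, 0 < L n := fun n => by
    apply Real.log_pos
    have := H.big n
    have h2 : 2 ≤ q n := by omega
    exact_mod_cast h2
  have hqexp : ∀ n, (q n : ℝ) = Real.exp (L n) := fun n => by
    rw [hLdef]
    have : (0 : ℝ) < q n := by exact_mod_cast Nat.pos_of_ne_zero (hq0 n)
    exact (Real.exp_log this).symm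
  obtain ⟨F, hfin, θ', c', g0, κ, y, -, HF, hg, hg0, hκ, hu, hX, hZ⟩ :=
    tub_setup S hS θ halg hind H hL (fun _ : Fin 0 => (0 : ℝ)) (fun a => a.elim0)
  have hlam : -lv B none g0 = 1 := by rw [hg]; norm_num
  have hg1 : lv B none g0 ≠ 0 := by rw [hg]; norm_num
  replace HF : Fam B L F θ' (fun _ => g0) y := HF
  replace hX : ∀ a, Xh hL κ g0 y B a = gm (fun n => ∏ i, (px (q n) (x n) i : ℚ) ^ (a i)) := hX
  replace hg0 : ∀ v, 0 ≤ lv B (some v) g0 := hg0
  -- values of polynomials
  have hval : ∀ (d : ℕ) (R : MvPolynomial (Option σ) ℚ), R.totalDegree ≤ d →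
      ∑ a : Ex (Option σ) d, ((cf d R a : ℚ) : GG) * Xh hL κ g0 y B a.1
        = gm (fun n => aeval (fun i => (px (q n) (x n) i : ℚ)) R) := by
    intro d R hR
    simp only [hX, rat_gm, gm_mul]
    rw [gm_sum]
    congr 1
    funext n
    rw [eval_cf hR]
    rfl
  have hmap : ∀ (R : MvPolynomial (Option σ) ℤ) n,
      aeval (fun i => (px (q n) (x n) i : ℚ)) (map (Int.castRingHom ℚ) R)
        = ((eval (px (q n) (x n)) R : ℤ) : ℚ) := by
    intro R n
    have h1 := eval₂_comp_left (Int.castRingHom ℚ) (RingHom.id ℤ) (px (q n) (x n)) R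
    rw [eval₂_id] at h1
    rw [aeval_def, eval₂_map, Subsingleton.elim ((algebraMap ℚ ℚ).comp (Int.castRingHom ℚ))
      ((Int.castRingHom ℚ).comp (RingHom.id ℤ))]
    exact h1.symm
  set P' := map (Int.castRingHom ℚ) P with hP'
  set Q' := map (Int.castRingHom ℚ) Q with hQ'
  -- the divisor and its part
  set s : ℕ → ℕ := fun n => spart S (D n) with hs
  have hs0 : ∀ n, 0 < s n := fun n => spart_pos hS _
  have hsD : ∀ n, s n ∣ D n := fun n => by
    have := spart_dvd hS (D n : ℤ)
    exact_mod_cast this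
  -- the part composed of the primes of `S` is small
  have hsmall : ∀ᶠ n in (UU : Filter ℕ), (s n : ℝ) ≤ Real.exp (ε / 2 * L n) := by
    by_contra hcon
    have hcon' : ∀ᶠ n in (UU : Filter ℕ), Real.exp (ε / 2 * L n) < s n := by
      have := Ultrafilter.eventually_not.2 hcon
      filter_upwards [this] with n hn
      exact not_le.1 hn
    set ee : ℕ → Fin S.card → ℝ := fun n i =>
      ((D n).factorization (B.P i) : ℝ) * Real.log (B.P i) / L n with hee
    have hee0 : ∀ n, ∀ i, 0 ≤ ee n i := by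
      intro n i
      have := B.log_pos i
      have := hLpos n
      rw [hee]
      positivity
    have hlim2 : ∀ i, ∃ x, Tendsto (fun n => min (ee n i) (ε / 2)) (UU : Filter ℕ) (𝓝 x) := by
      intro i
      apply exists_lim _ (ε / 2)
      exact Eventually.of_forall fun n => ⟨le_min (hee0 n i) (by positivity), min_le_right _ _⟩
    choose e' he' using hlim2
    have hsum : Tendsto (fun n => ∑ i, min (ee n i) (ε / 2)) (UU : Filter ℕ) (𝓝 (∑ i, e' i)) :=
      tendsto_finsetSum Finset.univ (fun i _ => he' i)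
    have hge : ε / 2 ≤ ∑ i, e' i := by
      refine ge_of_tendsto hsum ?_
      filter_upwards [hcon'] with n hn
      by_cases hb : ∃ i, ε / 2 ≤ ee n i
      · obtain ⟨i, hi⟩ := hb
        exact (min_eq_right hi).ge.trans (Finset.single_le_sum (f := fun i => min (ee n i) (ε / 2))
          (fun j _ => le_min (hee0 n j) (by positivity)) (Finset.mem_univ i))
      · push Not at hb
        have h9 : ∀ i, min (ee n i) (ε / 2) = ee n i := fun i => min_eq_left (hb i).le
        simp only [h9]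
        have h7 : Real.log (s n) = (∑ i, ee n i) * L n := by
          rw [hs]
          simp only []
          rw [spart_eq hS, log_prod_bas hS, Finset.sum_mul]
          refine Finset.sum_congr rfl fun i _ => ?_
          rw [hee]
          simp only [Int.natAbs_natCast]
          have := (hLpos n).ne'
          field_simp
          rfl
        have h8 : ε / 2 * L n ≤ Real.log (s n) := by
          rw [Real.le_log_iff_exp_le (by exact_mod_cast hs0 n)]
          exact hn.le
        rw [h7] at h8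
        exact le_of_mul_le_mul_right h8 (hLpos n)
    -- a polynomial which is not divisible by the unit variable
    have hstep : ∀ R : MvPolynomial (Option σ) ℤ, (∀ n, (D n : ℤ) ∣ eval (px (q n) (x n)) R) →
        X none ∣ map (Int.castRingHom ℚ) R := by
      intro R hR
      by_contra hn
      obtain ⟨k, hk, hk2⟩ := exists_coeff none hn
      set R' := map (Int.castRingHom ℚ) R with hR'
      have hkm : k ∈ R'.support := mem_support_iff.2 hk2
      have hkd := le_totalDegree hkm
      rw [sum_fs] at hkd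
      have hR2 := hval R'.totalDegree R' le_rfl
      have h1 := Xh_divis hL HF hg1 hκ R'.totalDegree (fun a => ((cf R'.totalDegree R' a : ℚ) : KK L hL))
        e' (by
        intro v
        have h2 : ∑ a : Ex (Option σ) R'.totalDegree, ((((cf R'.totalDegree R' a : ℚ) : KK L hL)) : GG)
            * Xh hL κ g0 y B a.1 = gm (fun n => ((eval (px (q n) (x n)) R : ℤ) : ℚ)) := by
          simp only [rat_coe]
          rw [hR2]
          congr 1
          funext n
          exact hmap R n
        rw [h2]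
        apply dvd_germ hL
        intro η hη
        filter_upwards [(he' v).eventually (lt_mem_nhds (show e' v - η < e' v by linarith))]
          with n h1
        refine ⟨(D n).factorization (B.P v), ?_, ?_⟩
        · have h3 : (B.P v) ^ ((D n).factorization (B.P v)) ∣ D n := Nat.ordProj_dvd _ _
          have h4 : ((B.P v : ℤ)) ^ ((D n).factorization (B.P v)) ∣ (D n : ℤ) := by exact_mod_cast h3
          exact h4.trans (hR n)
        · have h3 : e' v - η ≤ ee n v := h1.le.trans (min_le_left _ _)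
          rw [hee] at h3
          simp only [] at h3
          rwa [le_div_iff₀ (hLpos n)] at h3) ⟨(k : Option σ → ℕ), mem_Ex.2 hkd⟩ (by
        intro h0
        apply hk2
        have h2 : ((cf R'.totalDegree R' ⟨(k : Option σ → ℕ), mem_Ex.2 hkd⟩ : ℚ) : KK L hL) = 0 := h0
        have h3 := Rat.cast_eq_zero.1 h2
        rw [cf_apply, fs_coe] at h3
        exact h3)
      simp only [hk, Nat.cast_zero, zero_mul] at h1
      linarith
    have hunit := hPQ (hstep P hDP) (hstep Q hDQ)
    have h1 := hunit.map (eval (fun _ : Option σ => (0 : ℚ)))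
    rw [eval_X] at h1
    exact not_isUnit_zero h1
  -- the rest of the divisor
  set t : ℕ → ℕ := fun n => D n / s n with ht
  have hst : ∀ n, s n * t n = D n := fun n => Nat.mul_div_cancel' (hsD n)
  have ht0 : ∀ n, t n ≠ 0 := fun n h => hD0 n (by rw [← hst n, h, mul_zero])
  have htcop : ∀ n v, IsCoprime (t n : ℤ) (B.P v : ℤ) := by
    intro n v
    rw [Nat.isCoprime_iff_coprime]
    have hp : (B.P v).Prime := bas_prime hS v
    rw [Nat.coprime_comm, hp.coprime_iff_not_dvd]
    intro hdvd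
    have h1 : 0 < (t n).factorization (B.P v) := hp.factorization_pos_of_dvd (ht0 n) hdvd
    have h2 : (D n).factorization (B.P v)
        = (s n).factorization (B.P v) + (t n).factorization (B.P v) := by
      rw [← hst n, Nat.factorization_mul (hs0 n).ne' (ht0 n)]
      rfl
    have h3 : (s n).factorization (B.P v) = (D n).factorization (B.P v) := by
      have h4 : B.P v ∈ S := (S.equivFin.symm v).2
      have h5 : (B.P v) ^ ((D n).factorization (B.P v)) ∣ s n := by
        rw [hs]
        simp only []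
        unfold spart
        simp only [Int.natAbs_natCast]
        exact Finset.dvd_prod_of_mem (fun p => p ^ (D n).factorization p) h4
      have h6 := (hp.pow_dvd_iff_le_factorization (hs0 n).ne').1 h5
      omega
    omega
  have htbig : ∀ᶠ n in (UU : Filter ℕ), Real.exp (ε / 2 * L n) ≤ t n := by
    filter_upwards [hsmall, hbig] with n hn h1
    rw [← hst n, hqexp n, ← Real.exp_mul, Nat.cast_mul] at h1
    have h2 : Real.exp (L n * ε) = Real.exp (ε / 2 * L n) * Real.exp (ε / 2 * L n) := by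
      rw [← Real.exp_add]
      congr 1
      ring
    rw [h2] at h1
    have h3 : (0 : ℝ) ≤ t n := Nat.cast_nonneg _
    have h4 := h1.trans (mul_le_mul_of_nonneg_right hn h3)
    exact le_of_mul_le_mul_left h4 (Real.exp_pos _)
  set DD : GG := gm (fun n => (t n : ℚ)) with hDD
  have hDD0 : DD ≠ 0 := by
    rw [hDD, gm_ne_zero]
    exact Eventually.of_forall fun n => by exact_mod_cast ht0 n
  have hDDinv : DD⁻¹ = gm (fun n => ((t n : ℚ))⁻¹) := gm_inv _
  have hDv : ∀ v, DD⁻¹ ∈ Sv B L (some v) 0 := by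
    intro v
    rw [hDDinv]
    change gm _ ∈ SS L (Rv B (some v)) 0
    rw [mem_SS]
    intro η hη
    refine Eventually.of_forall fun n => ?_
    refine ⟨1, t n, 1, 0, one_ne_zero, ?_, htcop n v, ?_, ?_⟩
    · simp only [Int.cast_one, abs_one]
      exact Real.one_le_exp (mul_nonneg hη.le (hLpos n).le)
    · have : (t n : ℚ) ≠ 0 := by exact_mod_cast ht0 n
      push_cast
      rw [zpow_zero, one_mul, mul_inv_cancel₀ this]
      norm_num
    · have := hLpos n
      push_cast
      nlinarith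
  have hδ : rho DD⁻¹ ∈ SR L (ε / 2) := by
    rw [hDDinv, rho_gm, mem_SR]
    intro η hη
    filter_upwards [htbig] with n hn
    push_cast
    have h1 : (0 : ℝ) < t n := by exact_mod_cast Nat.pos_of_ne_zero (ht0 n)
    rw [abs_of_pos (inv_pos.2 h1)]
    calc ((t n : ℝ))⁻¹ ≤ (Real.exp (ε / 2 * L n))⁻¹ := by
          rw [inv_le_inv₀ h1 (Real.exp_pos _)]
          exact hn
      _ = Real.exp (-(ε / 2) * L n) := by rw [← Real.exp_neg]; congr 1; ring
      _ ≤ Real.exp (-(ε / 2 - η) * L n) := by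
          apply Real.exp_le_exp.2
          have := hLpos n
          nlinarith
  have hDi : ∀ d, P'.totalDegree ≤ d → Q'.totalDegree ≤ d → ∀ u ∈ US P' Q' d,
      Sint B L (DD⁻¹ * ∑ a, (u a : GG) * Xh hL κ g0 y B a.1) := by
    intro d hd1 hd2 u hu
    obtain ⟨R, hR, rfl⟩ := hu
    rw [hval d R (UU'_deg hd1 hd2 hR)]
    obtain ⟨A, A', rfl⟩ := UU'_comb hR
    obtain ⟨N, hN, hA⟩ := int_mul A
    obtain ⟨N', hN', hA'⟩ := int_mul A'
    have hz : ∀ n, ∃ z : ℤ, ((N : ℚ) * N') * aeval (fun i => (px (q n) (x n) i : ℚ)) (P' * A + Q' * A')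
        = (t n : ℚ) * z := by
      intro n
      obtain ⟨a, ha⟩ := hA (px (q n) (x n))
      obtain ⟨a', ha'⟩ := hA' (px (q n) (x n))
      have htD : (t n : ℤ) ∣ D n := by
        have : t n ∣ D n := ⟨s n, by rw [mul_comm, hst]⟩
        exact_mod_cast this
      obtain ⟨b, hb⟩ := htD.trans (hDP n)
      obtain ⟨b', hb'⟩ := htD.trans (hDQ n)
      refine ⟨N' * a * b + N * a' * b', ?_⟩
      rw [map_add, map_mul, map_mul, hP', hQ', hmap, hmap, hb, hb']
      push_cast
      rw [← ha, ← ha']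
      ring
    choose z hz using hz
    have h1 : DD⁻¹ * gm (fun n => aeval (fun i => (px (q n) (x n) i : ℚ)) (P' * A + Q' * A'))
        = ((((1 / ((N : ℚ) * N') : ℚ)) : KK L hL) : GG) * gm (fun n => (z n : ℚ)) := by
      rw [rat_coe, rat_gm, hDDinv, gm_mul, gm_mul, gm_eq]
      refine Eventually.of_forall fun n => ?_
      have h2 := hz n
      have h3 : (t n : ℚ) ≠ 0 := by exact_mod_cast ht0 n
      have h4 : (N : ℚ) ≠ 0 := by exact_mod_cast hN
      have h5 : (N' : ℚ) ≠ 0 := by exact_mod_cast hN'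
      field_simp
      rw [← h2]
      ring
    rw [h1]
    exact Sint.mul hL (Sint.alg hL _) (Sint_int hL _)
  have hinj : Function.Injective (map (Int.castRingHom ℚ) :
      MvPolynomial (Option σ) ℤ → MvPolynomial (Option σ) ℚ) :=
    map_injective _ Int.cast_injective
  have hP0' : P' ≠ 0 := by
    intro h
    apply hP0
    apply hinj
    rw [map_zero]
    exact h
  have hQ0' : Q' ≠ 0 := by
    intro h
    apply hQ0
    apply hinj
    rw [map_zero]
    exact h
  -- the dimension count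
  obtain ⟨s0⟩ := ‹Nonempty σ›
  have hne : (none : Option σ) ≠ some s0 := by simp
  set T := Fintype.card (Option σ) with hT
  have hT2 : 2 ≤ T := by
    rw [hT, Fintype.card_option]
    have : 0 < Fintype.card σ := Fintype.card_pos_iff.2 ⟨s0⟩
    omega
  set f := P'.totalDegree with hf
  set g := Q'.totalDegree with hg
  have hmain : ∀ d, f + g ≤ d → ((Ex (Option σ) d).card : ℝ) * (ε / 2)
      ≤ (f * g * (d + 1) ^ (T - 2) : ℝ) * (d + ε / 2) := by
    intro d hd
    have h1 := gcd_germ hL HF hg1 hκ hg0 (P := P') (Q := Q') d DD hDD0 hDv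
      (hDi d (by omega) (by omega)) (ε / 2) hδ
    rw [hlam, mul_one] at h1
    have h2 := finrank_US hP0' hQ0' hPQ hd hne
    have h3 : ((Ex (Option σ) d).card : ℝ) ≤ finrank ℚ (US P' Q' d)
        + (f * g * (d + 1) ^ (T - 2) : ℝ) := by exact_mod_cast h2
    have h4 : (0 : ℝ) ≤ d := Nat.cast_nonneg _
    nlinarith
  -- the contradiction
  set K : ℝ := f * g * (T : ℝ) ^ (T - 2) * (T + ε / 2) with hK
  obtain ⟨e1, he1⟩ := exists_nat_gt (2 * K / ε)
  set e2 := e1 + f + g with he2
  have hd : f + g ≤ T * e2 := by nlinarith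
  have h1 := hmain (T * e2) hd
  have h2 : ((e2 : ℝ) + 1) ^ T ≤ (Ex (Option σ) (T * e2)).card := by
    exact_mod_cast card_big (τ := Option σ) e2
  have hTp : (0 : ℝ) < T := by exact_mod_cast (by omega : 0 < T)
  have hT1 : (1 : ℝ) ≤ T := by exact_mod_cast (by omega : 1 ≤ T)
  have he2p : (0 : ℝ) ≤ e2 := Nat.cast_nonneg _
  have h3 : ((T * e2 : ℕ) : ℝ) + 1 ≤ T * (e2 + 1) := by push_cast; nlinarith
  have h4 : ((T * e2 : ℕ) : ℝ) + ε / 2 ≤ (T + ε / 2) * (e2 + 1) := by push_cast; nlinarith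
  have h5 : (((T * e2 : ℕ) : ℝ) + 1) ^ (T - 2) ≤ (T * (e2 + 1) : ℝ) ^ (T - 2) :=
    pow_le_pow_left₀ (by positivity) h3 _
  have h6 : (f * g * (((T * e2 : ℕ) : ℝ) + 1) ^ (T - 2) : ℝ) * (((T * e2 : ℕ) : ℝ) + ε / 2)
      ≤ (f * g * (T * (e2 + 1) : ℝ) ^ (T - 2)) * ((T + ε / 2) * (e2 + 1)) := by
    apply mul_le_mul _ h4 (by positivity) (by positivity)
    exact mul_le_mul_of_nonneg_left h5 (by positivity)
  have h7 : (f * g * (T * (e2 + 1) : ℝ) ^ (T - 2)) * ((T + ε / 2) * (e2 + 1))
      = K * ((e2 : ℝ) + 1) ^ (T - 1) := by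
    have h8 : T - 1 = (T - 2) + 1 := by omega
    rw [hK, h8, pow_succ, mul_pow]
    ring
  have h8 : ((e2 : ℝ) + 1) ^ T = ((e2 : ℝ) + 1) * ((e2 : ℝ) + 1) ^ (T - 1) := by
    have h9 : T = (T - 1) + 1 := by omega
    conv_lhs => rw [h9, pow_succ]
    ring
  have h9 : ((e2 : ℝ) + 1) ^ T * (ε / 2) ≤ K * ((e2 : ℝ) + 1) ^ (T - 1) := by
    calc ((e2 : ℝ) + 1) ^ T * (ε / 2) ≤ ((Ex (Option σ) (T * e2)).card : ℝ) * (ε / 2) :=
          mul_le_mul_of_nonneg_right h2 (by positivity)
      _ ≤ _ := h1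
      _ ≤ _ := h6
      _ = _ := h7
  rw [h8] at h9
  have h10 : (0 : ℝ) < ((e2 : ℝ) + 1) ^ (T - 1) := by positivity
  have h11 : ((e2 : ℝ) + 1) * (ε / 2) ≤ K := by
    have h12 : (((e2 : ℝ) + 1) * (ε / 2)) * ((e2 : ℝ) + 1) ^ (T - 1)
        ≤ K * ((e2 : ℝ) + 1) ^ (T - 1) := by linarith
    exact le_of_mul_le_mul_right h12 h10
  rw [div_lt_iff₀ hε] at he1
  have h12 : (e1 : ℝ) ≤ e2 := by
    rw [he2]
    push_cast
    have : (0 : ℝ) ≤ f := Nat.cast_nonneg _
    have : (0 : ℝ) ≤ g := Nat.cast_nonneg _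
    linarith
  nlinarith


/-- **Greatest common divisors at integral points near a ray.** -/
theorem gcdT [Nonempty σ]
    (P Q : MvPolynomial (Option σ) ℤ) (hP0 : P ≠ 0) (hQ0 : Q ≠ 0)
    (hPQ : IsRelPrime (map (Int.castRingHom ℚ) P) (map (Int.castRingHom ℚ) Q))
    (D : ℕ → ℤ) (hDP : ∀ᶠ n in (UU : Filter ℕ), D n ∣ eval (px (q n) (x n)) P)
    (hDQ : ∀ᶠ n in (UU : Filter ℕ), D n ∣ eval (px (q n) (x n)) Q)
    {ε : ℝ} (hε : 0 < ε) : ∀ᶠ n in (UU : Filter ℕ), |(D n : ℝ)| ≤ (q n : ℝ) ^ ε := by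
  classical
  by_contra hcon
  have hcon' : ∀ᶠ n in (UU : Filter ℕ), (q n : ℝ) ^ ε < |(D n : ℝ)| := by
    have := Ultrafilter.eventually_not.2 hcon
    filter_upwards [this] with n hn
    exact not_le.1 hn
  set D' : ℕ → ℕ := fun n => if D n ∣ eval (px (q n) (x n)) P ∧ D n ∣ eval (px (q n) (x n)) Q ∧ D n ≠ 0
    then (D n).natAbs else 1 with hD'
  have h1 : ∀ n, D' n = (D n).natAbs ∧ D n ∣ eval (px (q n) (x n)) P ∧
      D n ∣ eval (px (q n) (x n)) Q ∧ D n ≠ 0 ∨ D' n = 1 := by
    intro n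
    rw [hD']
    simp only []
    split_ifs with h
    · exact Or.inl ⟨rfl, h⟩
    · exact Or.inr rfl
  refine gcd_seqT S hS halg hind H P Q hP0 hQ0 hPQ hε D' (fun n => ?_) (fun n => ?_) (fun n => ?_) ?_
  · rcases h1 n with ⟨h, -, -, h2⟩ | h
    · rw [h]
      exact Int.natAbs_ne_zero.2 h2
    · rw [h]
      exact one_ne_zero
  · rcases h1 n with ⟨h, h2, -, -⟩ | h
    · rw [h, Int.natAbs_dvd]
      exact h2
    · rw [h]
      exact one_dvd _
  · rcases h1 n with ⟨h, -, h2, -⟩ | h
    · rw [h, Int.natAbs_dvd]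
      exact h2
    · rw [h]
      exact one_dvd _
  · filter_upwards [hcon', hDP, hDQ] with n h2 h3 h4
    have h5 : D n ≠ 0 := by
      intro h
      rw [h, Int.cast_zero, abs_zero] at h2
      have := qpos H.big n
      have : (0 : ℝ) < (q n : ℝ) ^ ε := by positivity
      linarith
    have h6 : D' n = (D n).natAbs := by
      rw [hD']
      simp only []
      rw [if_pos ⟨h3, h4, h5⟩]
    rw [h6, Nat.cast_natAbs, Int.cast_abs]
    exact h2.le

end

end Pool.Agent.Q4.Tube
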