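import Mathlib
import Pool.Agent.Q4.Tube.Eng

set_option autoImplicit false
set_option linter.unusedSectionVars false

/-!
# Rational approximations to algebraic functions at integral points near a ray
-/

namespace Pool.Agent.Q4.Tube

open Filter Topology Pool.Agent.TH932.Abs Pool.Agent.TH932.Germs Pool.Agent.TH932.Chi
open Pool.Agent.TH796.AL Pool.Agent.Q4.Blk Pool.Agent.Q4.Gcd Pool.Agent.Q4.Cov Module

section
variable {σ : Type} [Fintype σ] [DecidableEq σ]

open MvPolynomial

lemma zv_add (θ : σ → ℝ) (q : ℕ) (x : σ → ℤ) (a b : Option σ → ℕ) :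
    zv θ q x (a + b) = zv θ q x a * zv θ q x b := by
  unfold zv
  simp only [Pi.add_apply, pow_add, Finset.prod_mul_distrib]
  ring

lemma Sm.prod {q : ℕ → ℕ} (hq : ∀ n, n + 2 ≤ q n) {ι : Type*} (s : Finset ι) (f : ι → ℕ → ℂ)
    (h : ∀ i ∈ s, Sm q 0 (f i)) : Sm q 0 (fun n => ∏ i ∈ s, f i n) := by
  classical
  induction s using Finset.induction_on with
  | empty => simpa using Sm.const hq 1
  | insert i s hi ih =>
    simp only [Finset.prod_insert hi]
    have := Sm.mul hq (h i (Finset.mem_insert_self _ _))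
      (ih fun j hj => h j (Finset.mem_insert_of_mem hj))
    rwa [add_zero] at this

variable (S : Finset ℕ) (hS : ∀ p ∈ S, p.Prime) {θ : σ → ℝ} (halg : ∀ s, IsAlgebraic ℚ (θ s))
  (hind : LinearIndependent ℚ (fun o : Option σ => (o.elim 1 (fun s => θ s) : ℝ)))
  {q : ℕ → ℕ} {x : ℕ → σ → ℤ} (H : Tub S θ q x)

include H in
lemma sm_zv (a : Option σ → ℕ) : Sm q (a none) (fun n => ((zv θ (q n) (x n) a : ℝ) : ℂ)) := by
  have h1 := Sm.mul H.big (Sm.qpow H.big (a none)) (Sm.prod H.big Finset.univ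
    (fun s n => ((fr θ (q n) (x n) s : ℝ) : ℂ) ^ (a (some s))) (fun s _ => by
      have := Sm.pow H.big (sm_fr H s) (a (some s))
      rwa [mul_zero] at this))
  rw [add_zero] at h1
  refine h1.congr (Eventually.of_forall fun n => ?_)
  unfold zv
  push_cast
  rfl

/-- the exponent of a sequence of positive integers of polynomial size -/
lemma exists_mu {q : ℕ → ℕ} (hq : ∀ n, n + 2 ≤ q n) (v : ℕ → ℕ) (hv0 : ∀ n, v n ≠ 0) (K : ℕ)
    (hvK : ∀ n, v n ≤ q n ^ K) :
    ∃ μ : ℝ, 0 ≤ μ ∧ μ ≤ K ∧ Sm q μ (fun n => (v n : ℂ)) ∧ Sm q (-μ) (fun n => 1 / (v n : ℂ)) := by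
  have hLpos : ∀ n, 0 < Real.log (q n) := fun n => by
    apply Real.log_pos
    have := hq n
    have h2 : 2 ≤ q n := by omega
    exact_mod_cast h2
  have hvp : ∀ n, (0 : ℝ) < v n := fun n => by exact_mod_cast Nat.pos_of_ne_zero (hv0 n)
  have hb : ∀ n, 0 ≤ Real.log (v n) / Real.log (q n) ∧ Real.log (v n) / Real.log (q n) ≤ K := by
    intro n
    refine ⟨div_nonneg (Real.log_natCast_nonneg _) (hLpos n).le, ?_⟩
    rw [div_le_iff₀ (hLpos n)]
    have h2 : (v n : ℝ) ≤ (q n : ℝ) ^ K := by exact_mod_cast hvK n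
    have h3 := Real.log_le_log (hvp n) h2
    rwa [Real.log_pow] at h3
  obtain ⟨μ, hμ⟩ := exists_lim _ (K : ℝ) (Eventually.of_forall hb)
  refine ⟨μ, ge_of_tendsto hμ (Eventually.of_forall fun n => (hb n).1),
    le_of_tendsto hμ (Eventually.of_forall fun n => (hb n).2), ?_, ?_⟩
  · intro ε hε
    filter_upwards [hμ.eventually (gt_mem_nhds (show μ < μ + ε by linarith))] with n hn
    rw [div_lt_iff₀ (hLpos n)] at hn
    rw [Complex.norm_natCast, Real.rpow_def_of_pos (qpos hq n), ← Real.log_le_iff_le_exp (hvp n)]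
    linarith
  · intro ε hε
    filter_upwards [hμ.eventually (lt_mem_nhds (show μ - ε < μ by linarith))] with n hn
    rw [lt_div_iff₀ (hLpos n)] at hn
    rw [norm_div, norm_one, Complex.norm_natCast, one_div, Real.rpow_def_of_pos (qpos hq n),
      inv_le_comm₀ (hvp n) (Real.exp_pos _), ← Real.exp_neg, ← Real.le_log_iff_exp_le (hvp n)]
    linarith

include hS halg hind H in
/-- **Roth's theorem** for algebraic functions, along a sequence of points near a ray. -/
theorem rothT (D K : ℕ) (δ : ℝ) (hδ : 0 < δ) (lam : ℕ → ℂ)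
    (hexp : ∃ c : Ex (Option σ) (3 * K + D) → QB, Sm q (-1) (fun n => (q n : ℂ) ^ (3 * K) * lam n
      - ∑ a, phi (c a) * ((zv θ (q n) (x n) a.1 : ℝ) : ℂ)))
    (cc : ℕ → ℕ) (hc0 : ∀ n, cc n ≠ 0) (hcS : ∀ n, (cc n).primeFactors ⊆ S)
    (hcK : ∀ n, cc n ≤ q n ^ K) (v : ℕ → ℕ) (hv0 : ∀ n, v n ≠ 0) (hvK : ∀ n, v n ≤ q n ^ K)
    (t : ℕ → ℤ)
    (happ : ∀ᶠ n in (UU : Filter ℕ), ‖(cc n : ℂ) * v n * lam n - t n‖ ≤ (q n : ℝ) ^ (-δ) / v n) :
    ∃ A B : MvPolynomial (Option σ) ℚ, B ≠ 0 ∧ ∀ᶠ n in (UU : Filter ℕ),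
      (t n : ℚ) * va (q n) (x n) B = (cc n : ℚ) * v n * va (q n) (x n) A := by
  classical
  have hL := tendsto_logx H
  have hqn0 : ∀ n, q n ≠ 0 := px_ne H
  set R : ℕ := 3 * K with hR
  obtain ⟨c, hc⟩ := hexp
  set δ' : ℝ := min δ 1 with hδ'
  have hδ'0 : 0 < δ' := lt_min hδ one_pos
  obtain ⟨e, he⟩ := card_ratio (Option σ) (R + D) (η := δ' / (2 * (K + 1))) (by positivity)
  by_contra hcon
  push Not at hcon
  obtain ⟨F, hfin, θ', c', g0, κ, y, hc', HF, hlam, hg0, hκ, hu, hX, hZ⟩ :=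
    tub_setup S hS θ halg hind H hL (fun a : Ex (Option σ) (R + D) => (phi (c a)).re)
      (fun a => alg_re (alg_QB (c a)))
  have hg1 : lv (bas S hS) none g0 ≠ 0 := by rw [hlam]; norm_num
  have hqp : ∀ n, (0 : ℝ) < q n := qpos H.big
  -- germs of the denominators
  obtain ⟨h, κc, hκc, hcg⟩ := unit_seq S hS q H.big hL cc hc0 hcS K hcK
  obtain ⟨μ, hμ0, hμK, hμ1, hμ2⟩ := exists_mu H.big v hv0 K hvK
  -- the twist
  have hκR : κc * (κ ^ R)⁻¹ ≠ 0 := mul_ne_zero hκc (inv_ne_zero (pow_ne_zero _ hκ))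
  set hh : Fin S.card → ℝ := h - (R : ℝ) • g0 with hhh
  have hT1 : gm (fun n => (cc n : ℚ) / (q n : ℚ) ^ R)
      = ((κc * (κ ^ R)⁻¹ : KK (fun n => Real.log (q n)) hL) : GG) * ch (bas S hS) hL hh := by
    have h1 : gm (fun n => (cc n : ℚ) / (q n : ℚ) ^ R) * gm (fun n => (q n : ℚ)) ^ R
        = gm (fun n => (cc n : ℚ)) := by
      rw [gm_pow, gm_mul]
      congr 1
      funext n
      have : (q n : ℚ) ≠ 0 := by exact_mod_cast hqn0 n
      field_simp
    have h2 : gm (fun n => (q n : ℚ)) ≠ 0 := by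
      rw [gm_ne_zero]
      exact Eventually.of_forall fun n => by exact_mod_cast hqn0 n
    apply mul_right_cancel₀ (pow_ne_zero R h2)
    rw [h1, hcg, hu, mul_pow, ← ch_nsmul]
    have h3 : ch (bas S hS) hL hh * ch (bas S hS) hL ((R : ℝ) • g0)
        = ch (bas S hS) hL h := by
      rw [← ch_add]
      congr 1
      rw [hhh]
      abel
    have h4 : (κ : GG) ^ R ≠ 0 := pow_ne_zero _ fun h0 => hκ (Subtype.ext h0)
    have h5 : ((κc * (κ ^ R)⁻¹ : KK (fun n => Real.log (q n)) hL) : GG)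
        = (κc : GG) * ((κ : GG) ^ R)⁻¹ := by
      push_cast
      rfl
    rw [h5, ← h3]
    field_simp
  obtain ⟨T, hTdef⟩ : ∃ T : GG, T = gm (fun n => (cc n : ℚ) / (q n : ℚ) ^ R) * gm (fun n => (v n : ℚ)) :=
    ⟨_, rfl⟩
  have hTgm : T = gm (fun n => (cc n : ℚ) / (q n : ℚ) ^ R * v n) := by
    rw [hTdef, gm_mul]
  have hT0 : T ≠ 0 := by
    rw [hTgm, gm_ne_zero]
    refine Eventually.of_forall fun n => ?_
    have h1 : (cc n : ℚ) ≠ 0 := by exact_mod_cast hc0 n
    have h2 : (v n : ℚ) ≠ 0 := by exact_mod_cast hv0 n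
    have h3 : (q n : ℚ) ≠ 0 := by exact_mod_cast hqn0 n
    positivity
  have hvint : gm (fun n => (v n : ℚ)) = gm (fun n => (((v n : ℤ)) : ℚ)) := by
    congr 1
  have hT1v : ∀ w : Option (Fin S.card), gm (fun n => (cc n : ℚ) / (q n : ℚ) ^ R)
      ∈ Sv (bas S hS) (fun n => Real.log (q n)) w (lv (bas S hS) w hh) := by
    intro w
    rw [hT1]
    have := (filt_v (B := bas S hS) hL w).mul_mem
      ((filt_v (B := bas S hS) hL w).alg_mem (κc * (κ ^ R)⁻¹)) (ch_mem (B := bas S hS) hL w hh)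
    rw [zero_add] at this
    exact this
  have hκv : ∀ (w : Option (Fin S.card)) (k : ℕ),
      (κ : GG) ^ k ∈ Sv (bas S hS) (fun n => Real.log (q n)) w 0 := by
    intro w k
    have := (filt_v (B := bas S hS) hL w).alg_mem (κ ^ k)
    have h2 : algebraMap (KK (fun n => Real.log (q n)) hL) GG (κ ^ k) = (κ : GG) ^ k := by
      rw [map_pow]; rfl
    rwa [h2] at this
  have hXv : ∀ (w : Fin S.card) (a : Option σ → ℕ), Xh hL κ g0 y (bas S hS) a
      ∈ Sv (bas S hS) (fun n => Real.log (q n)) (some w) ((a none : ℝ) * lv (bas S hS) (some w) g0) := by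
    intro w a
    have h1 := (filt_v (B := bas S hS) hL (some w)).mul_mem (hκv (some w) (∑ i, a i))
      (HF.x_fin hL w (om g0 a))
    rw [sh_om, lv_smul, zero_add] at h1
    exact h1
  have hZI : ∀ a : Option σ → ℕ, Zh hL κ g0 θ' y (bas S hS) a
      ∈ SR (fun n => Real.log (q n)) ((a none : ℝ) * lv (bas S hS) none g0) := by
    intro a
    have h1 := SR_mul hL (SR_rho (hκv none (∑ i, a i))) (HF.z_inf hL (om g0 a))
    rw [sh_om, lv_smul, zero_add, map_pow] at h1
    exact h1
  have hXint : ∀ a : Option σ → ℕ, Sint (bas S hS) (fun n => Real.log (q n))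
      (Xh hL κ g0 y (bas S hS) a) := fun a =>
    Sint.mul hL (Sint_pow (Sint.alg hL _) _ hL) (HF.x_int hL _)
  have hTint : Sint (bas S hS) (fun n => Real.log (q n)) T := by
    rw [hTdef, hT1, hvint]
    exact Sint.mul hL (Sint.mul hL (Sint.alg hL _) (ch_sint hL _)) (Sint_int hL _)
  have hcoe : ∀ a b : F, ((a * b : F) : ℝ) = (a : ℝ) * (b : ℝ) := fun a b => rfl
  -- the size of the denominators
  have hvI : gr (fun n => (v n : ℝ)) ∈ SR (fun n => Real.log (q n)) (-μ) := by
    apply Sm.toSR H.big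
    exact hμ1.congr (Eventually.of_forall fun n => by push_cast; rfl)
  set cM : Ex (Option σ) e → Ex (Option σ) (e + (R + D)) → F := fun b a =>
    ∑ a' : Ex (Option σ) (R + D), if a'.1 + b.1 = a.1 then c' a' else 0 with hcM
  have key := two_block (B := bas S hS) hL F
    (fun a : Ex (Option σ) (e + (R + D)) => T * Xh hL κ g0 y (bas S hS) a.1)
    (fun a : Ex (Option σ) (e + (R + D)) => rho T * Zh hL κ g0 θ' y (bas S hS) a.1)
    (fun a b => Mh θ' a.1 b.1) (Mh_sq hL (B := bas S hS) hg1 (e + (R + D))) ?_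
    (fun a : Ex (Option σ) e => gm (fun n => (t n : ℚ)) * Xh hL κ g0 y (bas S hS) a.1)
    (fun a : Ex (Option σ) e => rho (gm (fun n => (t n : ℚ))) * Zh hL κ g0 θ' y (bas S hS) a.1)
    (fun a b => Mh θ' a.1 b.1) (Mh_sq hL (B := bas S hS) hg1 e) ?_ ?_ cM
    (fun w a => lv (bas S hS) (some w) hh + (a.1 none : ℝ) * lv (bas S hS) (some w) g0)
    (fun a => lv (bas S hS) none hh - μ + (a.1 none : ℝ) * lv (bas S hS) none g0)
    (fun w a => (a.1 none : ℝ) * lv (bas S hS) (some w) g0)
    (fun a => (μ + δ') + (a.1 none : ℝ) * lv (bas S hS) none g0) ?_ ?_ ?_ ?_ ?_ ?_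
  · -- the contradiction
    have e1 : ∀ a : Ex (Option σ) (e + (R + D)),
        ∑ w, (lv (bas S hS) (some w) hh + (a.1 none : ℝ) * lv (bas S hS) (some w) g0)
          + (lv (bas S hS) none hh - μ + (a.1 none : ℝ) * lv (bas S hS) none g0) = -μ := by
      intro a
      rw [Finset.sum_add_distrib, ← Finset.mul_sum, sum_fin_lv, sum_fin_lv]
      ring
    have e2 : ∀ a : Ex (Option σ) e, ∑ w, (a.1 none : ℝ) * lv (bas S hS) (some w) g0
          + ((μ + δ') + (a.1 none : ℝ) * lv (bas S hS) none g0) = μ + δ' := by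
      intro a
      rw [← Finset.mul_sum, sum_fin_lv]
      ring
    simp only [e1, e2] at key
    rw [Finset.sum_const, Finset.sum_const, Finset.card_univ, Finset.card_univ, Fintype.card_coe,
      Fintype.card_coe, nsmul_eq_mul, nsmul_eq_mul] at key
    have hN : (0 : ℝ) < (Ex (Option σ) e).card := by
      have : 0 < (Ex (Option σ) e).card := Finset.card_pos.2 ⟨0, mem_Ex.2 (by simp)⟩
      exact_mod_cast this
    have h1 : ((Ex (Option σ) (e + (R + D))).card : ℝ) * μ
        ≤ (1 + δ' / (2 * (K + 1))) * (Ex (Option σ) e).card * μ :=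
      mul_le_mul_of_nonneg_right he hμ0
    have h2 : δ' / (2 * (K + 1)) * μ ≤ δ' / 2 := by
      have h3 : δ' / (2 * (K + 1)) * μ ≤ δ' / (2 * (K + 1)) * (K + 1) :=
        mul_le_mul_of_nonneg_left (by linarith) (by positivity)
      refine h3.trans (le_of_eq ?_)
      field_simp
    nlinarith
  · intro a
    rw [Zh_eq hL hg1 κ (e + (R + D)) a, Finset.mul_sum]
    refine Finset.sum_congr rfl fun b _ => ?_
    rw [map_mul]
    ring
  · intro a
    rw [Zh_eq hL hg1 κ e a, Finset.mul_sum]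
    refine Finset.sum_congr rfl fun b _ => ?_
    rw [map_mul]
    ring
  · -- independence
    intro b b' hb
    have hb2 : ∀ᶠ n in (UU : Filter ℕ), (cc n : ℚ) / (q n : ℚ) ^ R * v n
        * ∑ a, b a * ∏ i, (px (q n) (x n) i : ℚ) ^ (a.1 i)
        + t n * ∑ a, b' a * ∏ i, (px (q n) (x n) i : ℚ) ^ (a.1 i) = 0 := by
      have hbi : ∀ z : ℤ, (z : GG) = gm (fun _ => (z : ℚ)) := fun z => by
        have := rat_gm (z : ℚ)
        simpa using this
      simp only [hX, hbi, hTgm, gm_mul] at hb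
      rw [gm_sum, gm_sum, gm_add] at hb
      have hb3 : gm (fun n => ∑ i : Ex (Option σ) (e + (R + D)), (b i : ℚ) *
          ((cc n : ℚ) / (q n : ℚ) ^ R * v n * ∏ j, (px (q n) (x n) j : ℚ) ^ (i.1 j))
          + ∑ i : Ex (Option σ) e, (b' i : ℚ) * ((t n : ℚ) * ∏ j, (px (q n) (x n) j : ℚ) ^ (i.1 j)))
          = gm (fun _ => (0 : ℚ)) := by
        rw [hb]
        exact (rat_gm 0).symm.trans (by simp) |>.symm
      rw [gm_eq] at hb3
      filter_upwards [hb3] with n hn
      rw [← hn, Finset.mul_sum, Finset.mul_sum]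
      congr 1
      · exact Finset.sum_congr rfl fun a _ => by ring
      · exact Finset.sum_congr rfl fun a _ => by ring
    have hb'0 : ∀ i, b' i = 0 := by
      by_contra hne
      push Not at hne
      obtain ⟨i0, hi0⟩ := hne
      have hB : X none ^ R * polyOf (fun a => (b' a : ℚ)) ≠ (0 : MvPolynomial (Option σ) ℚ) := by
        apply mul_ne_zero (pow_ne_zero _ (X_ne_zero _))
        intro h
        have h1 := coeff_polyOf (fun a => (b' a : ℚ)) i0
        rw [h, coeff_zero] at h1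
        exact hi0 (by exact_mod_cast h1.symm)
      have hc1 : ∀ᶠ n in (UU : Filter ℕ), (t n : ℚ) * va (q n) (x n)
          (X none ^ R * polyOf (fun a => (b' a : ℚ))) ≠ (cc n : ℚ) * v n *
          va (q n) (x n) (polyOf (fun a : Ex (Option σ) (e + (R + D)) => -(b a : ℚ))) :=
        hcon (polyOf (fun a : Ex (Option σ) (e + (R + D)) => -(b a : ℚ)))
          (X none ^ R * polyOf (fun a => (b' a : ℚ))) hB
      obtain ⟨n, hn1, hn2⟩ := (hc1.and hb2).exists
      apply hn1
      have h3 : (q n : ℚ) ≠ 0 := by exact_mod_cast hqn0 n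
      have h4 : (t n : ℚ) * ∑ a, b' a * ∏ i, (px (q n) (x n) i : ℚ) ^ (a.1 i)
          = -((cc n : ℚ) / (q n : ℚ) ^ R * v n
            * ∑ a, b a * ∏ i, (px (q n) (x n) i : ℚ) ^ (a.1 i)) := by linarith
      have h5 : ∑ a : Ex (Option σ) (e + (R + D)), -(b a : ℚ) * ∏ i, (px (q n) (x n) i : ℚ) ^ (a.1 i)
          = - ∑ a : Ex (Option σ) (e + (R + D)), (b a : ℚ) * ∏ i, (px (q n) (x n) i : ℚ) ^ (a.1 i) := by
        rw [← Finset.sum_neg_distrib]
        refine Finset.sum_congr rfl fun a _ => ?_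
        ring
      rw [map_mul, map_pow, va_X0, va_polyOf, va_polyOf, h5]
      calc (t n : ℚ) * ((q n : ℚ) ^ R * ∑ a, b' a * ∏ i, (px (q n) (x n) i : ℚ) ^ (a.1 i))
          = (q n : ℚ) ^ R * ((t n : ℚ) * ∑ a, b' a * ∏ i, (px (q n) (x n) i : ℚ) ^ (a.1 i)) := by ring
        _ = (q n : ℚ) ^ R * -((cc n : ℚ) / (q n : ℚ) ^ R * v n
            * ∑ a, b a * ∏ i, (px (q n) (x n) i : ℚ) ^ (a.1 i)) := by rw [h4]
        _ = _ := by field_simp
    refine ⟨?_, hb'0⟩
    have h1 : T * ∑ a : Ex (Option σ) (e + (R + D)),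
        ((b a : KK (fun n => Real.log (q n)) hL) : GG) * Xh hL κ g0 y (bas S hS) a.1 = 0 := by
      simp only [hb'0, Int.cast_zero, zero_mul, Finset.sum_const_zero, add_zero] at hb
      rw [Finset.mul_sum, ← hb]
      refine Finset.sum_congr rfl fun a _ => ?_
      push_cast
      ring
    intro a
    have h2 := Xh_indep hL HF hg1 hκ (e + (R + D)) (fun a => (b a : KK (fun n => Real.log (q n)) hL))
      ((mul_eq_zero.1 h1).resolve_left hT0) a
    exact_mod_cast h2
  · intro w a
    have h1 := (filt_v (B := bas S hS) hL (some w)).mul_mem (hT1v (some w))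
      (int_germ hL w (fun n => (v n : ℤ)))
    rw [← hvint, ← hTdef, add_zero] at h1
    exact (filt_v (B := bas S hS) hL (some w)).mul_mem h1 (hXv w a.1)
  · intro a
    have h1 := SR_mul hL (SR_rho (hT1v none)) hvI
    have h2 : rho (gm (fun n => (cc n : ℚ) / (q n : ℚ) ^ R)) * gr (fun n => (v n : ℝ)) = rho T := by
      rw [hTdef, map_mul]
      congr 1
    rw [h2, ← sub_eq_add_neg] at h1
    exact SR_mul hL h1 (hZI a.1)
  · intro a
    exact Sint.mul hL hTint (hXint a.1)
  · intro w a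
    have h1 := (filt_v (B := bas S hS) hL (some w)).mul_mem (int_germ hL w t) (hXv w a.1)
    rwa [zero_add] at h1
  · -- the small forms
    intro b
    have e0 : rho (gm (fun n => (t n : ℚ))) = gr (fun n => (t n : ℝ)) := by
      rw [rho_gm]
      congr 1
    have e0' : rho T = gr (fun n => (cc n : ℝ) / (q n : ℝ) ^ R * v n) := by
      rw [hTgm, rho_gm]
      congr 1
      funext n
      push_cast
      ring
    have e1 : ∑ a : Ex (Option σ) (e + (R + D)), algebraMap ℝ HR (cM b a : ℝ)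
        * (rho T * Zh hL κ g0 θ' y (bas S hS) a.1)
        = gr (fun n => (cc n : ℝ) / (q n : ℝ) ^ R * v n
          * (zv θ (q n) (x n) b.1 * ∑ a' : Ex (Option σ) (R + D), (phi (c a')).re * zv θ (q n) (x n) a'.1)) := by
      rw [e0']
      simp only [hZ, cst_eq, gr_mul]
      rw [gr_sum', gr_eq]
      refine Eventually.of_forall fun n => ?_
      have h1 : ∀ a : Ex (Option σ) (e + (R + D)), (cM b a : ℝ)
          = ∑ a' : Ex (Option σ) (R + D), if a'.1 + b.1 = a.1 then (phi (c a')).re else 0 := by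
        intro a
        rw [hcM]
        simp only []
        rw [AddSubmonoidClass.coe_finsetSum]
        refine Finset.sum_congr rfl fun a' _ => ?_
        split_ifs
        · exact hc' a'
        · rfl
      simp only [h1, Finset.sum_mul, Finset.mul_sum]
      rw [Finset.sum_comm]
      refine Finset.sum_congr rfl fun a' _ => ?_
      have hmem : a'.1 + b.1 ∈ Ex (Option σ) (e + (R + D)) := by
        have h2 := mem_Ex.1 a'.2
        have h3 := mem_Ex.1 b.2
        rw [mem_Ex]
        simp only [Pi.add_apply, Finset.sum_add_distrib]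
        omega
      rw [Finset.sum_eq_single (⟨a'.1 + b.1, hmem⟩ : Ex (Option σ) (e + (R + D)))]
      · rw [if_pos rfl, zv_add]
        ring
      · intro a _ hne
        rw [if_neg (fun h => hne (Subtype.ext h.symm)), zero_mul]
      · intro h
        exact absurd (Finset.mem_univ _) h
    rw [e1, e0, hZ, gr_mul, gr_sub]
    -- the two errors
    have g1 : Sm q (-μ - δ') (fun n => ((((t n : ℝ) - cc n * v n * (lam n).re : ℝ)) : ℂ)) := by
      have h1 : Sm q (-δ') (fun n => (((q n : ℝ) ^ (-δ) : ℝ) : ℂ)) := by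
        intro ε hε
        refine Eventually.of_forall fun n => ?_
        rw [Complex.norm_real, Real.norm_of_nonneg (by have := hqp n; positivity)]
        exact Real.rpow_le_rpow_of_exponent_le (qone H.big n) (by
          have := min_le_left δ 1
          linarith)
      have h2 := Sm.mul H.big hμ2 h1
      rw [← sub_eq_add_neg] at h2
      refine h2.le ?_
      filter_upwards [happ] with n hn
      have h4 := (Complex.abs_re_le_norm _).trans hn
      have h5 : ((cc n : ℂ) * v n * lam n - t n).re = cc n * v n * (lam n).re - t n := by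
        have h6 : (cc n : ℂ) * v n * lam n = (((cc n : ℝ) * v n : ℝ) : ℂ) * lam n := by push_cast; ring
        rw [Complex.sub_re, h6, Complex.re_ofReal_mul, Complex.intCast_re]
      rw [h5, abs_sub_comm] at h4
      rw [Complex.norm_real, Real.norm_eq_abs, norm_mul, norm_div, norm_one, Complex.norm_natCast,
        Complex.norm_real, Real.norm_of_nonneg (by have := hqp n; positivity)]
      refine h4.trans (le_of_eq ?_)
      ring
    have g2 : Sm q (-μ - δ') (fun n => (((cc n : ℝ) / (q n : ℝ) ^ R * v n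
        * ((lam n).re * (q n : ℝ) ^ R - ∑ a' : Ex (Option σ) (R + D), (phi (c a')).re * zv θ (q n) (x n) a'.1) : ℝ) : ℂ)) := by
      have h1 := Sm.mul H.big hμ2 hc
      have h2 : -μ + -1 ≤ -μ - δ' := by
        have := min_le_right δ 1
        linarith
      refine (Sm.mono H.big h1 h2).le (Eventually.of_forall fun n => ?_)
      have hvp : (0 : ℝ) < v n := by exact_mod_cast Nat.pos_of_ne_zero (hv0 n)
      have h3 : (cc n : ℝ) / (q n : ℝ) ^ R * v n ≤ 1 / v n := by
        have := hqp n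
        rw [div_mul_eq_mul_div, div_le_div_iff₀ (by positivity) hvp]
        have h4 : (cc n : ℝ) ≤ (q n : ℝ) ^ K := by exact_mod_cast hcK n
        have h5 : (v n : ℝ) ≤ (q n : ℝ) ^ K := by exact_mod_cast hvK n
        have h6 : (q n : ℝ) ^ R = (q n : ℝ) ^ K * (q n : ℝ) ^ K * (q n : ℝ) ^ K := by
          rw [hR]
          ring
        rw [h6, one_mul]
        have h7 : (0 : ℝ) ≤ (q n : ℝ) ^ K := by positivity
        exact mul_le_mul (mul_le_mul h4 h5 hvp.le h7) h5 hvp.le (by positivity)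
      have h4 : |(lam n).re * (q n : ℝ) ^ R - ∑ a' : Ex (Option σ) (R + D), (phi (c a')).re * zv θ (q n) (x n) a'.1|
          ≤ ‖(q n : ℂ) ^ R * lam n - ∑ a, phi (c a) * ((zv θ (q n) (x n) a.1 : ℝ) : ℂ)‖ := by
        refine le_trans (le_of_eq ?_) (Complex.abs_re_le_norm _)
        congr 1
        have h5 : (q n : ℂ) ^ R = (((q n : ℝ) ^ R : ℝ) : ℂ) := by push_cast; rfl
        rw [Complex.sub_re, h5, Complex.re_ofReal_mul, Complex.re_sum, mul_comm]
        congr 1
        refine Finset.sum_congr rfl fun a _ => ?_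
        rw [Complex.re_mul_ofReal]
      rw [Complex.norm_real, Real.norm_eq_abs, abs_mul, norm_mul, norm_div, norm_one,
        Complex.norm_natCast, abs_of_nonneg (show 0 ≤ (cc n : ℝ) / (q n : ℝ) ^ R * v n by
          have := hqp n; positivity)]
      exact mul_le_mul h3 h4 (abs_nonneg _) (by positivity)
    have g3 := Sm.mul H.big (sm_zv S H b.1) (Sm.add H.big g1 g2)
    have g4 : Sm q (-((μ + δ') + (b.1 none : ℝ) * lv (bas S hS) none g0))
        (fun n => (((t n : ℝ) * zv θ (q n) (x n) b.1 - cc n / (q n : ℝ) ^ R * v n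
        * (zv θ (q n) (x n) b.1 * ∑ a' : Ex (Option σ) (R + D), (phi (c a')).re * zv θ (q n) (x n) a'.1) : ℝ) : ℂ)) := by
      have e5 : -((μ + δ') + (b.1 none : ℝ) * lv (bas S hS) none g0)
          = (b.1 none : ℝ) + (-μ - δ') := by
        rw [hlam]
        ring
      rw [e5]
      refine g3.congr (Eventually.of_forall fun n => ?_)
      have hq' : (q n : ℝ) ≠ 0 := (hqp n).ne'
      rw [← Complex.ofReal_add, ← Complex.ofReal_mul]
      congr 1
      field_simp
      ring
    have g5 := g4.toSR H.big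
    rwa [neg_neg] at g5
  · intro a
    exact Sint.mul hL (Sint_int hL _) (hXint a.1)

end

end Pool.Agent.Q4.Tube
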