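import Mathlib
import Pool.Agent.Q4.Tube.Roth
import Pool.Agent.Q4.Tube.Gcd

set_option autoImplicit false
set_option linter.unusedSectionVars false

/-!
# From sequences of points to all points near a ray
-/

namespace Pool.Agent.Q4.Tube

open Filter Topology Pool.Agent.TH932.Abs Pool.Agent.TH932.Germs Pool.Agent.TH932.Chi
open Pool.Agent.TH796.AL Pool.Agent.Q4.Blk Pool.Agent.Q4.Gcd Pool.Agent.Q4.Cov Module MvPolynomial

section
variable {σ : Type} [Fintype σ] [DecidableEq σ]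

/-- the points near the ray -/
def Near (S : Finset ℕ) (θ : σ → ℝ) (η : ℝ) (q : ℕ) (x : σ → ℤ) : Prop :=
  (∃ u w : ℕ, q = u * w ∧ u.primeFactors ⊆ S ∧ (w : ℝ) ≤ (q : ℝ) ^ η) ∧
  ∀ s, |θ s * q - x s| ≤ (q : ℝ) ^ η

/-- **Selection**: data attached to the points near the ray are represented by finitely many of
countably many objects if this holds along sequences. -/
theorem finite_rep' (S : Finset ℕ) (θ : σ → ℝ) {β Δ : Type*} [Countable β] [Nonempty β]
    (Hyp : ℝ → ℕ → (σ → ℤ) → Δ → Prop) (Rep : β → ℕ → (σ → ℤ) → Δ → Prop)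
    (h : ∀ (q : ℕ → ℕ) (x : ℕ → σ → ℤ) (d : ℕ → Δ), Tub S θ q x →
      (∀ n : ℕ, Hyp (1 / ((n : ℝ) + 1)) (q n) (x n) (d n)) →
      ∃ b, ∀ᶠ n in (UU : Filter ℕ), Rep b (q n) (x n) (d n)) :
    ∃ (η : ℝ) (N : ℕ) (A : Finset β), 0 < η ∧ ∀ q ≥ N, ∀ x, Near S θ η q x → ∀ d, Hyp η q x d →
      ∃ b ∈ A, Rep b q x d := by
  classical
  by_contra hcon
  push Not at hcon
  obtain ⟨e, he⟩ := exists_surjective_nat β
  choose q hq x hx d hd hno using fun n : ℕ =>
    hcon (1 / (n + 1 : ℝ)) (n + 2) ((Finset.range (n + 1)).image e) (by positivity)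
  have hq' : ∀ n, n + 2 ≤ q n := hq
  have hexp : ∀ ε : ℝ, 0 < ε → ∀ᶠ n in (UU : Filter ℕ), (q n : ℝ) ^ (1 / (n + 1 : ℝ)) ≤ (q n : ℝ) ^ ε := by
    intro ε hε
    have h1 : ∀ᶠ n : ℕ in atTop, 1 / ((n : ℝ) + 1) ≤ ε := by
      have h2 := tendsto_one_div_add_atTop_nhds_zero_nat (𝕜 := ℝ)
      filter_upwards [h2.eventually (gt_mem_nhds hε)] with n hn
      exact hn.le
    filter_upwards [ev_of_atTop h1] with n hn
    exact Real.rpow_le_rpow_of_exponent_le (qone hq' n) hn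
  choose hu hnear using hx
  choose u w huw huS hw using hu
  have H : Tub S θ q x := by
    refine ⟨hq', ⟨u, w, huw, huS, fun ε hε => ?_⟩, fun ε hε => ?_⟩
    · filter_upwards [hexp ε hε] with n hn
      exact (hw n).trans hn
    · filter_upwards [hexp ε hε] with n hn s
      exact (hnear n s).trans hn
  obtain ⟨b, hb⟩ := h q x d H hd
  obtain ⟨i, rfl⟩ := he b
  have hbig : ∀ᶠ n in (UU : Filter ℕ), i ≤ n := ev_of_atTop (Filter.eventually_ge_atTop i)
  obtain ⟨n, h1, h2⟩ := (hb.and hbig).exists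
  exact hno n (e i) (Finset.mem_image.2 ⟨i, Finset.mem_range.2 (by omega), rfl⟩) h1

omit [Fintype σ] [DecidableEq σ] in
/-- small bounds along the selected sequence -/
lemma small_of {q : ℕ → ℕ} (hq : ∀ n, n + 2 ≤ q n) (f : ℕ → ℝ)
    (h : ∀ n : ℕ, f n ≤ (q n : ℝ) ^ (1 / ((n : ℝ) + 1))) (ε : ℝ) (hε : 0 < ε) :
    ∀ᶠ n in (UU : Filter ℕ), f n ≤ (q n : ℝ) ^ ε := by
  have h1 : ∀ᶠ n : ℕ in atTop, 1 / ((n : ℝ) + 1) ≤ ε := by
    have h2 := tendsto_one_div_add_atTop_nhds_zero_nat (𝕜 := ℝ)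
    filter_upwards [h2.eventually (gt_mem_nhds hε)] with n hn
    exact hn.le
  filter_upwards [ev_of_atTop h1] with n hn
  exact (h n).trans (Real.rpow_le_rpow_of_exponent_le (qone hq n) hn)

/-- the version with a fixed hypothesis -/
theorem finite_rep (S : Finset ℕ) (θ : σ → ℝ) {β Δ : Type*} [Countable β] [Nonempty β]
    (Hyp : ℕ → (σ → ℤ) → Δ → Prop) (Rep : β → ℕ → (σ → ℤ) → Δ → Prop)
    (h : ∀ (q : ℕ → ℕ) (x : ℕ → σ → ℤ) (d : ℕ → Δ), Tub S θ q x → (∀ n, Hyp (q n) (x n) (d n)) →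
      ∃ b, ∀ᶠ n in (UU : Filter ℕ), Rep b (q n) (x n) (d n)) :
    ∃ (η : ℝ) (N : ℕ) (A : Finset β), 0 < η ∧ ∀ q ≥ N, ∀ x, Near S θ η q x → ∀ d, Hyp q x d →
      ∃ b ∈ A, Rep b q x d :=
  finite_rep' S θ (fun _ => Hyp) Rep h

/-- the version without representations -/
theorem none_left (S : Finset ℕ) (θ : σ → ℝ) {Δ : Type*} (Hyp : ℕ → (σ → ℤ) → Δ → Prop)
    (h : ∀ (q : ℕ → ℕ) (x : ℕ → σ → ℤ) (d : ℕ → Δ), Tub S θ q x → (∀ n, Hyp (q n) (x n) (d n)) → False) :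
    ∃ (η : ℝ) (N : ℕ), 0 < η ∧ ∀ q ≥ N, ∀ x, Near S θ η q x → ∀ d, ¬ Hyp q x d := by
  obtain ⟨η, N, A, hη, hA⟩ := finite_rep S θ (β := Unit) Hyp (fun _ _ _ _ => False)
    (fun q x d H hd => (h q x d H hd).elim)
  refine ⟨η, N, hη, fun q hq x hx d hd => ?_⟩
  obtain ⟨_, _, h1⟩ := hA q hq x hx d hd
  exact h1

end

section
variable {σ : Type} [Fintype σ] [DecidableEq σ]

/-- a common denominator -/
lemma exists_int (R : MvPolynomial (Option σ) ℚ) :
    ∃ (m : ℤ) (R' : MvPolynomial (Option σ) ℤ), m ≠ 0 ∧ map (Int.castRingHom ℚ) R' = C (m : ℚ) * R := by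
  classical
  set m : ℤ := ∏ n ∈ R.support, ((coeff n R).den : ℤ) with hm
  have hm0 : m ≠ 0 := Finset.prod_ne_zero_iff.2 fun n _ => by exact_mod_cast (coeff n R).den_nz
  have hd : ∀ n ∈ R.support, ∃ c : ℤ, m = ((coeff n R).den : ℤ) * c := fun n hn =>
    Finset.dvd_prod_of_mem (fun n => ((coeff n R).den : ℤ)) hn
  choose! c hc using hd
  refine ⟨m, ∑ n ∈ R.support, monomial n (c n * (coeff n R).num), hm0, ?_⟩
  ext k
  rw [coeff_map, coeff_sum, coeff_C_mul]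
  by_cases hk : k ∈ R.support
  · rw [Finset.sum_eq_single k]
    · rw [coeff_monomial, if_pos rfl, hc k hk]
      have h3 := Rat.den_mul_eq_num (coeff k R)
      rw [eq_intCast]
      push_cast
      rw [← h3]
      ring
    · intro b _ hb
      rw [coeff_monomial, if_neg hb]
    · intro h
      exact absurd hk h
  · rw [Finset.sum_eq_zero]
    · have : coeff k R = 0 := by simpa [MvPolynomial.mem_support_iff] using hk
      rw [this, mul_zero, map_zero]
    · intro b hb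
      rw [coeff_monomial, if_neg]
      rintro rfl
      exact hk hb

end

end Pool.Agent.Q4.Tube
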