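import Mathlib
import Pool.Agent.Q4.Tube.Sel
import Pool.Agent.Q4.Blk.Real

set_option autoImplicit false
set_option linter.unusedSectionVars false

/-!
# Proximity to arbitrary divisors at integral points near a ray
-/

namespace Pool.Agent.Q4.Tube

open Filter Topology Pool.Agent.TH932.Abs Pool.Agent.TH932.Germs Pool.Agent.TH932.Chi
open Pool.Agent.TH796.AL Pool.Agent.Q4.Blk Pool.Agent.Q4.Gcd Pool.Agent.Q4.Cov Module MvPolynomial

section
variable {σ : Type} [Fintype σ] [DecidableEq σ]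
variable (S : Finset ℕ) (hS : ∀ p ∈ S, p.Prime) {θ : σ → ℝ} (halg : ∀ s, IsAlgebraic ℚ (θ s))
  (hind : LinearIndependent ℚ (fun o : Option σ => (o.elim 1 (fun s => θ s) : ℝ)))
  {q : ℕ → ℕ} {x : ℕ → σ → ℤ} (H : Tub S θ q x)

include hS halg hind H

/-- the `S`-part of the values of a polynomial -/
theorem spartT (R : MvPolynomial (Option σ) ℤ) (hR : ¬ X none ∣ map (Int.castRingHom ℚ) R)
    {ε : ℝ} (hε : 0 < ε) :
    ∀ᶠ n in (UU : Filter ℕ), (spart S (eval (px (q n) (x n)) R) : ℝ) ≤ (q n : ℝ) ^ ε := by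
  classical
  set B := bas S hS with hB
  set L : ℕ → ℝ := fun n => Real.log (q n) with hLdef
  have hL : Tendsto L atTop atTop := tendsto_logx H
  obtain ⟨F, hfin, θ', c', g0, κ, y, -, HF, hg, hg0, hκ, hu, hX, hZ⟩ :=
    tub_setup S hS θ halg hind H hL (fun _ : Fin 0 => (0 : ℝ)) (fun a => a.elim0)
  have hg1 : lv B none g0 ≠ 0 := by rw [hg]; norm_num
  replace hX : ∀ a, Xh hL κ g0 y B a = gm (fun n => ∏ i, (px (q n) (x n) i : ℚ) ^ (a i)) := hX
  have hLpos : ∀ n, 0 < L n := fun n => by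
    apply Real.log_pos
    have := H.big n
    have h2 : 2 ≤ q n := by omega
    exact_mod_cast h2
  have hqexp : ∀ n, (q n : ℝ) ^ ε = Real.exp (ε * L n) := fun n => by
    rw [Real.rpow_def_of_pos (qpos H.big n), mul_comm]
  simp only [hqexp]
  set D : ℕ → ℤ := fun n => eval (px (q n) (x n)) R with hD
  set s : ℕ → ℕ := fun n => spart S (D n) with hs
  have hs0 : ∀ n, 0 < s n := fun n => spart_pos hS _
  by_contra hcon
  have hcon' : ∀ᶠ n in (UU : Filter ℕ), Real.exp (ε * L n) < s n := by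
    have := Ultrafilter.eventually_not.2 hcon
    filter_upwards [this] with n hn
    exact not_le.1 hn
  set ee : ℕ → Fin S.card → ℝ := fun n i =>
    ((D n).natAbs.factorization (B.P i) : ℝ) * Real.log (B.P i) / L n with hee
  have hee0 : ∀ n, ∀ i, 0 ≤ ee n i := by
    intro n i
    have := B.log_pos i
    have := hLpos n
    rw [hee]
    positivity
  have hlim2 : ∀ i, ∃ x, Tendsto (fun n => min (ee n i) ε) (UU : Filter ℕ) (𝓝 x) := by
    intro i
    apply exists_lim _ ε
    exact Eventually.of_forall fun n => ⟨le_min (hee0 n i) hε.le, min_le_right _ _⟩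
  choose e' he' using hlim2
  have hsum : Tendsto (fun n => ∑ i, min (ee n i) ε) (UU : Filter ℕ) (𝓝 (∑ i, e' i)) :=
    tendsto_finsetSum Finset.univ (fun i _ => he' i)
  have hge : ε ≤ ∑ i, e' i := by
    refine ge_of_tendsto hsum ?_
    filter_upwards [hcon'] with n hn
    by_cases hb : ∃ i, ε ≤ ee n i
    · obtain ⟨i, hi⟩ := hb
      exact (min_eq_right hi).ge.trans (Finset.single_le_sum (f := fun i => min (ee n i) ε)
        (fun j _ => le_min (hee0 n j) hε.le) (Finset.mem_univ i))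
    · push Not at hb
      have h9 : ∀ i, min (ee n i) ε = ee n i := fun i => min_eq_left (hb i).le
      simp only [h9]
      have h7 : Real.log (s n) = (∑ i, ee n i) * L n := by
        rw [hs]
        simp only []
        rw [spart_eq hS, log_prod_bas hS, Finset.sum_mul]
        refine Finset.sum_congr rfl fun i _ => ?_
        rw [hee]
        have := (hLpos n).ne'
        field_simp
        try rfl
      have h8 : ε * L n ≤ Real.log (s n) := by
        rw [Real.le_log_iff_exp_le (by exact_mod_cast hs0 n)]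
        exact hn.le
      rw [h7] at h8
      exact le_of_mul_le_mul_right h8 (hLpos n)
  obtain ⟨k, hk, hk2⟩ := exists_coeff none hR
  set R' := map (Int.castRingHom ℚ) R with hR'
  have hkm : k ∈ R'.support := mem_support_iff.2 hk2
  have hkd := le_totalDegree hkm
  rw [sum_fs] at hkd
  have h1 := Xh_divis hL HF hg1 hκ R'.totalDegree (fun a => ((cf R'.totalDegree R' a : ℚ) : KK L hL))
    e' (by
    intro v
    have h2 : ∑ a : Ex (Option σ) R'.totalDegree, ((((cf R'.totalDegree R' a : ℚ) : KK L hL)) : GG)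
        * Xh hL κ g0 y B a.1 = gm (fun n => ((eval (px (q n) (x n)) R : ℤ) : ℚ)) := by
      simp only [rat_coe, hX, rat_gm, gm_mul]
      rw [gm_sum]
      congr 1
      funext n
      rw [← map_px]
      unfold va
      rw [eval_cf (le_refl R'.totalDegree)]
      rfl
    rw [h2]
    apply dvd_germ hL
    intro η hη
    filter_upwards [(he' v).eventually (lt_mem_nhds (show e' v - η < e' v by linarith))]
      with n h1
    refine ⟨(D n).natAbs.factorization (B.P v), ?_, ?_⟩
    · have h3 : (B.P v) ^ ((D n).natAbs.factorization (B.P v)) ∣ (D n).natAbs := Nat.ordProj_dvd _ _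
      have h4 : ((B.P v : ℤ)) ^ ((D n).natAbs.factorization (B.P v)) ∣ ((D n).natAbs : ℤ) := by
        exact_mod_cast h3
      exact Int.dvd_natAbs.1 h4
    · have h3 : e' v - η ≤ ee n v := h1.le.trans (min_le_left _ _)
      rw [hee] at h3
      simp only [] at h3
      rwa [le_div_iff₀ (hLpos n)] at h3) ⟨(k : Option σ → ℕ), mem_Ex.2 hkd⟩ (by
    intro h0
    apply hk2
    have h2 : ((cf R'.totalDegree R' ⟨(k : Option σ → ℕ), mem_Ex.2 hkd⟩ : ℚ) : KK L hL) = 0 := h0
    have h3 := Rat.cast_eq_zero.1 h2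
    rw [cf_apply, fs_coe] at h3
    exact h3)
  simp only [hk, Nat.cast_zero, zero_mul] at h1
  linarith

/-- **Real values of polynomials in the small coordinates.** -/
theorem lowT (D : ℕ) (c : Ex (Option σ) D → ℝ) (hc : ∀ a, IsAlgebraic ℚ (c a)) (e : ℝ)
    (he : Sm q e (fun n => ((∑ a, c a * zv θ (q n) (x n) a.1 : ℝ) : ℂ)))
    (a0 : Ex (Option σ) D) (ha0 : c a0 ≠ 0) : (a0.1 none : ℝ) ≤ e := by
  classical
  set B := bas S hS with hB
  set L : ℕ → ℝ := fun n => Real.log (q n) with hLdef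
  have hL : Tendsto L atTop atTop := tendsto_logx H
  obtain ⟨F, hfin, θ', c', g0, κ, y, hc', HF, hg, hg0, hκ, hu, hX, hZ⟩ :=
    tub_setup S hS θ halg hind H hL c hc
  have hg1 : lv B none g0 ≠ 0 := by rw [hg]; norm_num
  set co : Om σ S.card → KA F hL := fun ω => if h : ∃ a : Ex (Option σ) D, om g0 a.1 = ω then
    algebraMap F (KA F hL) (c' h.choose) * Lin.inc hL F κ ^ (∑ i, h.choose.1 i) else 0 with hco
  have hco1 : ∀ a : Ex (Option σ) D, co (om g0 a.1)
      = algebraMap F (KA F hL) (c' a) * Lin.inc hL F κ ^ (∑ i, a.1 i) := by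
    intro a
    have h : ∃ b : Ex (Option σ) D, om g0 b.1 = om g0 a.1 := ⟨a, rfl⟩
    have h2 : h.choose = a := Subtype.ext (om_inj (B := B) hg1 h.choose_spec)
    rw [hco]
    simp only []
    rw [dif_pos h, h2]
  have hsum : ∑ ω ∈ Omd σ g0 D, (co ω : HR) * zz hL F θ' y B ω
      = gr (fun n => ∑ a, c a * zv θ (q n) (x n) a.1) := by
    rw [sum_Omd (B := B) hg1, ← gr_sum']
    refine Finset.sum_congr rfl fun a _ => ?_
    rw [hco1, MulMemClass.coe_mul, SubmonoidClass.coe_pow, Lin.inc_coe]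
    have e1 : ((algebraMap F (KA F hL) (c' a) : KA F hL) : HR) = algebraMap ℝ HR ((c' a : F) : ℝ) := rfl
    rw [e1, hc' a, cst_eq]
    have h2 := hZ a.1
    unfold Zh at h2
    rw [← gr_mul, ← h2]
    ring
  have h1 := realp hL HF (Omd σ g0 D) (Omd_dn D) co (-e) (by
    rw [hsum]
    exact he.toSR H.big) (om g0 a0.1) (Finset.mem_image.2 ⟨a0.1, a0.2, rfl⟩) (by
    rw [hco1]
    refine mul_ne_zero ?_ (pow_ne_zero _ ?_)
    · intro h0
      have h3 : c' a0 = 0 := by
        have : Nontrivial (KA F hL) := inferInstance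
        exact (map_eq_zero (algebraMap F (KA F hL))).1 h0
      apply ha0
      rw [← hc' a0, h3]
      rfl
    · exact fun h0 => hκ ((map_eq_zero (Lin.inc hL F)).1 h0))
  rw [sh_om, lv_smul, hg] at h1
  linarith

end

section
variable {σ : Type} [Fintype σ] [DecidableEq σ]

/-- the substitution `X_s ↦ θ_s X_0 - X_s` -/
noncomputable def tw {R : Type*} [CommRing R] (θ : σ → R) :
    MvPolynomial (Option σ) R →ₐ[R] MvPolynomial (Option σ) R :=
  bind₁ (fun o => o.elim (X none) (fun s => C (θ s) * X none - X (some s)))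

lemma tw_tw {R : Type*} [CommRing R] (θ : σ → R) (F : MvPolynomial (Option σ) R) :
    tw θ (tw θ F) = F := by
  have h : (tw θ).comp (tw θ) = AlgHom.id R _ := by
    apply algHom_ext
    intro o
    unfold tw
    cases o with
    | none => simp
    | some s => simp [algebraMap_eq]
  exact DFunLike.congr_fun h F

lemma tw_ne {R : Type*} [CommRing R] (θ : σ → R) {F : MvPolynomial (Option σ) R} (hF : F ≠ 0) :
    tw θ F ≠ 0 := by
  intro h
  apply hF
  rw [← tw_tw θ F, h, map_zero]

lemma tw_map {R R' : Type*} [CommRing R] [CommRing R'] (f : R →+* R') (θ : σ → R)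
    (F : MvPolynomial (Option σ) R) : map f (tw θ F) = tw (fun s => f (θ s)) (map f F) := by
  unfold tw
  rw [map_bind₁]
  congr 2
  funext o
  cases o with
  | none => simp
  | some s => simp

lemma tw_eval (θ : σ → ℝ) (F : MvPolynomial (Option σ) ℝ) (q : ℕ) (x : σ → ℤ) :
    eval (fun o => ((px q x o : ℤ) : ℝ)) F
      = eval (fun o : Option σ => (o.elim (q : ℝ) (fun s => fr θ q x s) : ℝ)) (tw θ F) := by
  unfold tw
  rw [← coe_aeval_eq_eval, ← coe_aeval_eq_eval]
  change aeval _ F = aeval _ (bind₁ _ F)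
  rw [aeval_bind₁]
  congr 2
  funext o
  cases o with
  | none => simp [px]
  | some s =>
    simp only [map_sub, map_mul, aeval_C, aeval_X, Option.elim, px]
    unfold fr
    simp

lemma eval_Ex {τ : Type} [Fintype τ] [DecidableEq τ] {d : ℕ} {P : MvPolynomial τ ℝ}
    (hP : P.totalDegree ≤ d) (x : τ → ℝ) :
    eval x P = ∑ a : Ex τ d, coeff (fs a.1) P * ∏ i, x i ^ (a.1 i) := by
  rw [MvPolynomial.eval_eq']
  have h0 : ∑ a : Ex τ d, coeff (fs a.1) P * ∏ i, x i ^ (a.1 i)
      = ∑ a ∈ Ex τ d, coeff (fs a) P * ∏ i, x i ^ (a i) :=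
    Finset.sum_coe_sort (Ex τ d) (fun a => coeff (fs a) P * ∏ i, x i ^ (a i))
  rw [h0]
  have h1 : ∑ n ∈ P.support, coeff n P * ∏ i, x i ^ n i
      = ∑ a ∈ P.support.image (fun n : τ →₀ ℕ => (n : τ → ℕ)),
        coeff (fs a) P * ∏ i, x i ^ a i := by
    rw [Finset.sum_image (by
      intro a _ b _ h
      exact DFunLike.coe_injective h)]
    refine Finset.sum_congr rfl fun n _ => ?_
    rw [fs_coe]
  rw [h1]
  apply Finset.sum_subset
  · intro a ha
    obtain ⟨n, hn, rfl⟩ := Finset.mem_image.1 ha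
    rw [mem_Ex]
    have := le_totalDegree hn
    rw [sum_fs] at this
    exact this.trans hP
  · intro a _ ha
    have : fs a ∉ P.support := fun h => ha (Finset.mem_image.2 ⟨_, h, rfl⟩)
    rw [notMem_support_iff.1 this, zero_mul]

/-- the coefficients stay algebraic -/
lemma tw_alg {θ : σ → ℝ} (halg : ∀ s, IsAlgebraic ℚ (θ s)) {F : MvPolynomial (Option σ) ℝ}
    (hF : ∀ m, IsAlgebraic ℚ (coeff m F)) (m : Option σ →₀ ℕ) : IsAlgebraic ℚ (coeff m (tw θ F)) := by
  classical
  set A := algebraicClosure ℚ ℝ with hA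
  set θ' : σ → A := fun s => ⟨θ s, mem_algebraicClosure_iff.2 (halg s)⟩ with hθ'
  set F' : MvPolynomial (Option σ) A := ∑ k ∈ F.support,
    monomial k (⟨coeff k F, mem_algebraicClosure_iff.2 (hF k)⟩ : A) with hF'
  have h1 : map (algebraMap A ℝ) F' = F := by
    rw [hF', map_sum]
    conv_rhs => rw [as_sum F]
    refine Finset.sum_congr rfl fun k _ => ?_
    rw [map_monomial]
    rfl
  have h2 : tw θ F = map (algebraMap A ℝ) (tw θ' F') := by
    rw [tw_map, h1]
    rfl
  rw [h2, coeff_map]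
  exact mem_algebraicClosure_iff.1 (coeff m (tw θ' F')).2

variable (S : Finset ℕ) (hS : ∀ p ∈ S, p.Prime) {θ : σ → ℝ} (halg : ∀ s, IsAlgebraic ℚ (θ s))
  (hind : LinearIndependent ℚ (fun o : Option σ => (o.elim 1 (fun s => θ s) : ℝ)))
  {q : ℕ → ℕ} {x : ℕ → σ → ℤ} (H : Tub S θ q x)

include hS halg hind H

/-- lower bounds for the values of real algebraic polynomials -/
theorem realT (F : MvPolynomial (Option σ) ℝ) (hFa : ∀ m, IsAlgebraic ℚ (coeff m F)) (hF : F ≠ 0)
    {ε : ℝ} (hε : 0 < ε) : ∀ᶠ n in (UU : Filter ℕ),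
      (q n : ℝ) ^ ((degreeOf none (tw θ F) : ℝ) - ε) ≤ |eval (fun o => ((px (q n) (x n) o : ℤ) : ℝ)) F| := by
  classical
  by_contra hcon
  have hcon' := Ultrafilter.eventually_not.2 hcon
  set D := (tw θ F).totalDegree with hD
  set c : Ex (Option σ) D → ℝ := fun a => coeff (fs a.1) (tw θ F) with hc
  have hval : ∀ n, eval (fun o => ((px (q n) (x n) o : ℤ) : ℝ)) F
      = ∑ a, c a * zv θ (q n) (x n) a.1 := by
    intro n
    rw [tw_eval θ F, eval_Ex (d := D) le_rfl]
    refine Finset.sum_congr rfl fun a _ => ?_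
    rw [hc]
    simp only []
    congr 1
    unfold zv
    rw [Fintype.prod_option]
    rfl
  have hne : (tw θ F).support.Nonempty := support_nonempty.2 (tw_ne θ hF)
  obtain ⟨k, hk, hk2⟩ := Finset.exists_mem_eq_sup _ hne (fun m : Option σ →₀ ℕ => m none)
  have hkd : degreeOf none (tw θ F) = k none := by rw [degreeOf_eq_sup, hk2]
  have hkD := le_totalDegree hk
  rw [sum_fs] at hkD
  have h1 := lowT S hS halg hind H D c (fun a => tw_alg halg hFa _)
    ((degreeOf none (tw θ F) : ℝ) - ε) (by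
      intro ε' hε'
      filter_upwards [hcon'] with n hn
      rw [not_le, hval] at hn
      rw [Complex.norm_real, Real.norm_eq_abs]
      refine hn.le.trans ?_
      exact Real.rpow_le_rpow_of_exponent_le (qone H.big n) (by linarith))
    ⟨(k : Option σ → ℕ), mem_Ex.2 hkD⟩ (by
      rw [hc]
      simp only []
      rw [fs_coe]
      exact mem_support_iff.1 hk)
  simp only [hkd] at h1
  linarith

omit [Fintype σ] [DecidableEq σ] hS halg hind H in
lemma not_dvd_map {R : MvPolynomial (Option σ) ℤ} (hR : ¬ X none ∣ R) :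
    ¬ X none ∣ map (Int.castRingHom ℚ) R := by
  classical
  intro h
  apply hR
  rw [X_dvd_iff_modMonomial_eq_zero] at h ⊢
  ext n
  rw [coeff_zero]
  by_cases hle : Finsupp.single none 1 ≤ n
  · rw [coeff_modMonomial_of_le _ hle]
  · rw [coeff_modMonomial_of_not_le _ hle]
    have h1 := congrArg (coeff n) h
    rw [coeff_modMonomial_of_not_le _ hle, coeff_zero, coeff_map, eq_intCast] at h1
    exact_mod_cast h1

/-- the local parts of the values of a polynomial -/
theorem ppartT (G : MvPolynomial (Option σ) ℤ) (ν : ℕ) (hG : ¬ X none ^ (ν + 1) ∣ G) {p : ℕ}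
    (hp : p ∈ S) {ε : ℝ} (hε : 0 < ε) : ∀ᶠ n in (UU : Filter ℕ),
      (((p ^ ((eval (px (q n) (x n)) G).natAbs.factorization p) : ℕ)) : ℝ)
        ≤ ((p ^ ((q n).factorization p) : ℕ) : ℝ) ^ ν * (q n : ℝ) ^ ε := by
  classical
  obtain ⟨k, hkν, hk1, hk2⟩ : ∃ k ≤ ν, X none ^ k ∣ G ∧ ¬ X none ^ (k + 1) ∣ G := by
    have hex : ∃ k, ¬ X none ^ (k + 1) ∣ G := ⟨ν, hG⟩
    refine ⟨Nat.find hex, Nat.find_min' hex hG, ?_, Nat.find_spec hex⟩
    rcases Nat.eq_zero_or_pos (Nat.find hex) with h | h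
    · rw [h, pow_zero]
      exact one_dvd _
    · have h1 := Nat.find_min hex (m := Nat.find hex - 1) (by omega)
      rw [not_not] at h1
      rwa [show Nat.find hex - 1 + 1 = Nat.find hex by omega] at h1
  obtain ⟨R, rfl⟩ := hk1
  have hR : ¬ X none ∣ R := by
    rintro ⟨T, rfl⟩
    apply hk2
    exact ⟨T, by rw [pow_succ]; ring⟩
  have hR0 : R ≠ 0 := by
    rintro rfl
    exact hR (dvd_zero _)
  have hRq : map (Int.castRingHom ℚ) R ≠ 0 := by
    intro h
    exact hR0 (map_injective _ Int.cast_injective (by rw [h, map_zero]))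
  filter_upwards [spartT S hS halg hind H R (not_dvd_map hR) hε, va_ne S hS halg hind H _ hRq]
    with n h1 h2
  have hq0 : q n ≠ 0 := px_ne H n
  have hRn : (eval (px (q n) (x n)) R).natAbs ≠ 0 := by
    intro h
    apply h2
    rw [map_px, Int.natAbs_eq_zero.1 h, Int.cast_zero]
  have h3 : (eval (px (q n) (x n)) (X none ^ k * R)).natAbs
      = (q n) ^ k * (eval (px (q n) (x n)) R).natAbs := by
    rw [map_mul, map_pow, eval_X, Int.natAbs_mul, Int.natAbs_pow]
    rfl
  rw [h3, Nat.factorization_mul (pow_ne_zero _ hq0) hRn, Nat.factorization_pow]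
  simp only [Finsupp.add_apply, Finsupp.smul_apply, smul_eq_mul]
  rw [pow_add, Nat.cast_mul]
  have hpp : 0 < p := (hS p hp).pos
  apply mul_le_mul _ _ (by positivity) (by positivity)
  · rw [mul_comm, pow_mul, Nat.cast_pow]
    apply pow_le_pow_right₀ _ hkν
    exact_mod_cast Nat.one_le_pow _ _ hpp
  · refine le_trans ?_ h1
    have h4 : p ^ ((eval (px (q n) (x n)) R).natAbs.factorization p)
        ≤ spart S (eval (px (q n) (x n)) R) := by
      apply Nat.le_of_dvd (spart_pos hS _)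
      exact Finset.dvd_prod_of_mem (fun p => p ^ ((eval (px (q n) (x n)) R).natAbs.factorization p)) hp
    exact_mod_cast h4

/-- **Vojta's inequality along a sequence of points near a ray.** -/
theorem voj_seq (F : MvPolynomial (Option σ) ℝ) (hFa : ∀ m, IsAlgebraic ℚ (coeff m F)) (hF : F ≠ 0)
    (G : ℕ → MvPolynomial (Option σ) ℤ) (ν : ℕ) (hG : ∀ p ∈ S, ¬ X none ^ (ν + 1) ∣ G p)
    {ε : ℝ} (hε : 0 < ε) : ∀ᶠ n in (UU : Filter ℕ),
      (∏ p ∈ S, (p : ℝ) ^ ((eval (px (q n) (x n)) (G p)).natAbs.factorization p))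
        * (q n : ℝ) ^ ((degreeOf none (tw θ F) : ℝ) - ν - ε)
        ≤ |eval (fun o => ((px (q n) (x n) o : ℤ) : ℝ)) F| := by
  classical
  set ε' : ℝ := ε / (S.card + 1) with hε'
  have hε'0 : 0 < ε' := by positivity
  have hall : ∀ᶠ n in (UU : Filter ℕ), ∀ p ∈ S,
      (((p ^ ((eval (px (q n) (x n)) (G p)).natAbs.factorization p) : ℕ)) : ℝ)
        ≤ ((p ^ ((q n).factorization p) : ℕ) : ℝ) ^ ν * (q n : ℝ) ^ ε' := by
    rw [Filter.eventually_all_finset]
    exact fun p hp => ppartT S hS halg hind H (G p) ν (hG p hp) hp hε'0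
  filter_upwards [hall, realT S hS halg hind H F hFa hF hε'0] with n h1 h2
  have hqp := qpos H.big n
  have hq1 := qone H.big n
  have h3 : (∏ p ∈ S, (p : ℝ) ^ ((eval (px (q n) (x n)) (G p)).natAbs.factorization p))
      ≤ (q n : ℝ) ^ (ν : ℝ) * (q n : ℝ) ^ (S.card * ε') := by
    calc (∏ p ∈ S, (p : ℝ) ^ ((eval (px (q n) (x n)) (G p)).natAbs.factorization p))
        ≤ ∏ p ∈ S, (((p ^ ((q n).factorization p) : ℕ) : ℝ) ^ ν * (q n : ℝ) ^ ε') := by
          apply Finset.prod_le_prod (fun p _ => by positivity)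
          intro p hp
          have := h1 p hp
          push_cast at this ⊢
          exact this
      _ = ((spart S (q n : ℤ) : ℕ) : ℝ) ^ ν * (q n : ℝ) ^ (S.card * ε') := by
          rw [Finset.prod_mul_distrib, Finset.prod_pow, Finset.prod_const]
          congr 1
          · unfold spart
            rw [Int.natAbs_natCast]
            push_cast
            rfl
          · rw [← Real.rpow_natCast, ← Real.rpow_mul hqp.le]
            congr 1
            ring
      _ ≤ _ := by
          apply mul_le_mul_of_nonneg_right _ (by positivity)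
          rw [Real.rpow_natCast]
          apply pow_le_pow_left₀ (by positivity)
          have h4 : spart S (q n : ℤ) ≤ q n := by
            apply Nat.le_of_dvd (Nat.pos_of_ne_zero (px_ne H n))
            have := spart_dvd hS (q n : ℤ)
            exact_mod_cast this
          exact_mod_cast h4
  refine le_trans ?_ h2
  calc _ ≤ ((q n : ℝ) ^ (ν : ℝ) * (q n : ℝ) ^ (S.card * ε'))
        * (q n : ℝ) ^ ((degreeOf none (tw θ F) : ℝ) - ν - ε) :=
        mul_le_mul_of_nonneg_right h3 (by positivity)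
    _ = (q n : ℝ) ^ ((ν : ℝ) + S.card * ε' + ((degreeOf none (tw θ F) : ℝ) - ν - ε)) := by
        rw [← Real.rpow_add hqp, ← Real.rpow_add hqp]
    _ ≤ _ := by
        apply Real.rpow_le_rpow_of_exponent_le hq1
        have : ε = (S.card + 1) * ε' := by
          rw [hε']
          field_simp
        rw [this]
        linarith

end

section
variable {σ : Type} [Fintype σ] [DecidableEq σ]

/-- **Vojta's inequality over all integral points near a ray.** -/
theorem voj_main (S : Finset ℕ) (hS : ∀ p ∈ S, p.Prime) {θ : σ → ℝ}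
    (halg : ∀ s, IsAlgebraic ℚ (θ s))
    (hind : LinearIndependent ℚ (fun o : Option σ => (o.elim 1 (fun s => θ s) : ℝ)))
    (F : MvPolynomial (Option σ) ℝ) (hFa : ∀ m, IsAlgebraic ℚ (coeff m F)) (hF : F ≠ 0)
    (G : ℕ → MvPolynomial (Option σ) ℤ) (ν : ℕ) (hG : ∀ p ∈ S, ¬ X none ^ (ν + 1) ∣ G p)
    (ε : ℝ) (hε : 0 < ε) :
    ∃ (η : ℝ) (N : ℕ), 0 < η ∧ ∀ q ≥ N, ∀ x, Near S θ η q x →
      (∀ p ∈ S, eval (px q x) (G p) ≠ 0) ∧
      (∏ p ∈ S, (p : ℝ) ^ ((eval (px q x) (G p)).natAbs.factorization p))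
        * (q : ℝ) ^ ((degreeOf none (tw θ F) : ℝ) - ν - ε)
        ≤ |eval (fun o => ((px q x o : ℤ) : ℝ)) F| := by
  obtain ⟨η, N, hη, h⟩ := none_left S θ (Δ := Unit) (fun q x _ =>
    ¬ ((∀ p ∈ S, eval (px q x) (G p) ≠ 0) ∧
      (∏ p ∈ S, (p : ℝ) ^ ((eval (px q x) (G p)).natAbs.factorization p))
        * (q : ℝ) ^ ((degreeOf none (tw θ F) : ℝ) - ν - ε)
        ≤ |eval (fun o => ((px q x o : ℤ) : ℝ)) F|)) (by
    intro q x d H hd
    have hall : ∀ᶠ n in (UU : Filter ℕ), ∀ p ∈ S, eval (px (q n) (x n)) (G p) ≠ 0 := by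
      rw [Filter.eventually_all_finset]
      intro p hp
      have h1 : map (Int.castRingHom ℚ) (G p) ≠ 0 := by
        intro h
        have h2 : G p = 0 := map_injective _ Int.cast_injective (by rw [h, map_zero])
        apply hG p hp
        rw [h2]
        exact dvd_zero _
      filter_upwards [va_ne S hS halg hind H _ h1] with n hn h2
      rw [map_px, h2, Int.cast_zero] at hn
      exact hn rfl
    obtain ⟨n, hn, hn'⟩ := (hall.and (voj_seq S hS halg hind H F hFa hF G ν hG hε)).exists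
    exact hd n ⟨hn, hn'⟩)
  exact ⟨η, N, hη, fun q hq x hx => not_not.1 (h q hq x hx ())⟩

end

end Pool.Agent.Q4.Tube
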