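import Mathlib
import Pool.Agent.Q4.Tube.Sel

set_option autoImplicit false
set_option linter.unusedSectionVars false

/-!
# Primitive representations
-/

namespace Pool.Agent.Q4.Tube

open Filter Topology Pool.Agent.TH932.Abs Pool.Agent.TH932.Germs Pool.Agent.TH932.Chi
open Pool.Agent.TH796.AL Pool.Agent.Q4.Blk Pool.Agent.Q4.Gcd Pool.Agent.Q4.Cov Module MvPolynomial

/-- equal fractions -/
lemma prim_int {u v a b : ℤ} (hv : v ≠ 0) (hb : b ≠ 0) (h : u * b = v * a) :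
    ∃ m : ℤ, m ≠ 0 ∧ (Int.gcd a b : ℤ) * u = m * a ∧ (Int.gcd a b : ℤ) * v = m * b ∧
      m ∣ u ∧ m ∣ v := by
  have h1 : 0 < Int.gcd u v := Int.gcd_pos_of_ne_zero_right _ hv
  have h2 : 0 < Int.gcd a b := Int.gcd_pos_of_ne_zero_right _ hb
  obtain ⟨u', v', hc, hu', hv'⟩ := Int.exists_gcd_one h1
  obtain ⟨a', b', hc', ha', hb'⟩ := Int.exists_gcd_one h2
  set g : ℤ := (Int.gcd u v : ℤ) with hg
  set e : ℤ := (Int.gcd a b : ℤ) with he
  have hg0 : g ≠ 0 := by rw [hg]; exact_mod_cast h1.ne'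
  have he0 : e ≠ 0 := by rw [he]; exact_mod_cast h2.ne'
  have h3 : u' * b' = v' * a' := by
    have h4 : (g * e) * (u' * b') = (g * e) * (v' * a') := by
      calc (g * e) * (u' * b') = (u' * g) * (b' * e) := by ring
        _ = u * b := by rw [← hu', ← hb']
        _ = v * a := h
        _ = (v' * g) * (a' * e) := by rw [← hv', ← ha']
        _ = _ := by ring
    exact mul_left_cancel₀ (mul_ne_zero hg0 he0) h4
  have hcu : IsCoprime u' v' := Int.isCoprime_iff_gcd_eq_one.2 hc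
  have hca : IsCoprime a' b' := Int.isCoprime_iff_gcd_eq_one.2 hc'
  have hb'0 : b' ≠ 0 := by
    rintro rfl
    rw [zero_mul] at hb'
    exact hb hb'
  have hvb : v' ∣ b' := hcu.symm.dvd_of_dvd_mul_left ⟨a', h3⟩
  have hbv : b' ∣ v' := by
    apply hca.symm.dvd_of_dvd_mul_right
    exact ⟨u', by rw [← h3]; ring⟩
  obtain ⟨s, hs⟩ : ∃ s : ℤ, v' = s * b' := by
    obtain ⟨s, hs⟩ := hbv
    exact ⟨s, by rw [hs]; ring⟩
  have hsu : u' = s * a' := by
    have h4 : b' * u' = b' * (s * a') := by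
      rw [hs] at h3
      linear_combination h3
    exact mul_left_cancel₀ hb'0 h4
  have hs1 : IsUnit s := by
    obtain ⟨r, hr⟩ := hvb
    rw [hs] at hr
    have h4 : b' * (s * r) = b' * 1 := by linear_combination -hr
    exact IsUnit.of_mul_eq_one _ (mul_left_cancel₀ hb'0 h4)
  refine ⟨s * g, mul_ne_zero hs1.ne_zero hg0, ?_, ?_, ?_, ?_⟩
  · calc e * u = e * (u' * g) := by rw [← hu']
      _ = s * g * (a' * e) := by rw [hsu]; ring
      _ = s * g * a := by rw [← ha']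
  · calc e * v = e * (v' * g) := by rw [← hv']
      _ = s * g * (b' * e) := by rw [hs]; ring
      _ = s * g * b := by rw [← hb']
  · rw [hs1.mul_left_dvd, hu']
    exact dvd_mul_left _ _
  · rw [hs1.mul_left_dvd, hv']
    exact dvd_mul_left _ _

section
variable {σ : Type} [Fintype σ] [DecidableEq σ]
variable (S : Finset ℕ) (hS : ∀ p ∈ S, p.Prime) {θ : σ → ℝ} (halg : ∀ s, IsAlgebraic ℚ (θ s))
  (hind : LinearIndependent ℚ (fun o : Option σ => (o.elim 1 (fun s => θ s) : ℝ)))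
  {q : ℕ → ℕ} {x : ℕ → σ → ℤ} (H : Tub S θ q x)

include hS halg hind H

/-- small common divisors, also with a zero polynomial -/
lemma gcd_small' [Nonempty σ] (P Q : MvPolynomial (Option σ) ℤ) (hQ0 : Q ≠ 0)
    (hPQ : IsRelPrime (map (Int.castRingHom ℚ) P) (map (Int.castRingHom ℚ) Q))
    {ε : ℝ} (hε : 0 < ε) : ∀ᶠ n in (UU : Filter ℕ),
      |((Int.gcd (eval (px (q n) (x n)) P) (eval (px (q n) (x n)) Q) : ℤ) : ℝ)| ≤ (q n : ℝ) ^ ε := by
  by_cases hP0 : P = 0
  · rw [hP0, map_zero] at hPQ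
    have hu : IsUnit (map (Int.castRingHom ℚ) Q) := hPQ (dvd_zero _) dvd_rfl
    obtain ⟨r, hr, hrQ⟩ := MvPolynomial.isUnit_iff_eq_C_of_isReduced.1 hu
    have h1 : ∀ n, ((eval (px (q n) (x n)) Q : ℤ) : ℚ) = r := by
      intro n
      rw [← map_px, hrQ]
      unfold va
      rw [aeval_C]
      rfl
    filter_upwards [big_ev H.big (|((r : ℚ) : ℝ)|) hε] with n hn
    rw [hP0, map_zero, Int.gcd_zero_left]
    refine le_trans (le_of_eq ?_) hn
    have h2 := h1 n
    have h3 : ((eval (px (q n) (x n)) Q : ℤ) : ℝ) = ((r : ℚ) : ℝ) := by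
      rw [← h2]
      push_cast
      rfl
    rw [← h3, Int.natCast_natAbs, Int.cast_abs, abs_abs]
  · exact gcdT S hS halg hind H P Q hP0 hQ0 hPQ _ (Eventually.of_forall fun n => Int.gcd_dvd_left _ _)
      (Eventually.of_forall fun n => Int.gcd_dvd_right _ _) hε

/-- **Primitive representations** -/
theorem prim_rep [Nonempty σ] (A B : MvPolynomial (Option σ) ℚ) (hB : B ≠ 0) (u v : ℕ → ℤ)
    (hv : ∀ᶠ n in (UU : Filter ℕ), v n ≠ 0)
    (h : ∀ᶠ n in (UU : Filter ℕ), (u n : ℚ) * va (q n) (x n) B = v n * va (q n) (x n) A) :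
    ∃ (A' B' : MvPolynomial (Option σ) ℤ) (e m : ℕ → ℤ), B' ≠ 0 ∧
      IsRelPrime (map (Int.castRingHom ℚ) A') (map (Int.castRingHom ℚ) B') ∧
      (∀ᶠ n in (UU : Filter ℕ), e n ≠ 0 ∧ m n ≠ 0 ∧ e n * u n = m n * eval (px (q n) (x n)) A' ∧
        e n * v n = m n * eval (px (q n) (x n)) B' ∧ m n ∣ u n ∧ m n ∣ v n) ∧
      ∀ ε : ℝ, 0 < ε → ∀ᶠ n in (UU : Filter ℕ), |(e n : ℝ)| ≤ (q n : ℝ) ^ ε := by
  classical
  obtain ⟨B0, A0, c0, hrel, hcB, hcA⟩ := UniqueFactorizationMonoid.exists_reduced_factors B hB A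
  have hc0 : c0 ≠ 0 := by rintro rfl; rw [zero_mul] at hcB; exact hB hcB.symm
  have hB0 : B0 ≠ 0 := by rintro rfl; rw [mul_zero] at hcB; exact hB hcB.symm
  obtain ⟨m1, B1, hm1, hB1⟩ := exists_int B0
  obtain ⟨m2, A1, hm2, hA1⟩ := exists_int A0
  set A' : MvPolynomial (Option σ) ℤ := C m1 * A1 with hA'
  set B' : MvPolynomial (Option σ) ℤ := C m2 * B1 with hB'
  have hmu : IsUnit (C ((m1 : ℚ) * m2) : MvPolynomial (Option σ) ℚ) := by
    apply IsUnit.map C
    exact (mul_ne_zero (by exact_mod_cast hm1) (by exact_mod_cast hm2)).isUnit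
  have hmA : map (Int.castRingHom ℚ) A' = C ((m1 : ℚ) * m2) * A0 := by
    rw [hA', map_mul, hA1, map_C, ← mul_assoc, ← map_mul]
    rfl
  have hmB : map (Int.castRingHom ℚ) B' = C ((m1 : ℚ) * m2) * B0 := by
    rw [hB', map_mul, hB1, map_C, ← mul_assoc, ← map_mul]
    congr 2
    rw [mul_comm]
    rfl
  have hrel' : IsRelPrime (map (Int.castRingHom ℚ) A') (map (Int.castRingHom ℚ) B') := by
    rw [hmA, hmB]
    rw [isRelPrime_mul_unit_left_left hmu, isRelPrime_mul_unit_left_right hmu]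
    exact hrel.symm
  have hB'0 : B' ≠ 0 := by
    intro h0
    rw [h0, map_zero] at hmB
    exact (mul_ne_zero hmu.ne_zero hB0) hmB.symm
  have hev : ∀ᶠ n in (UU : Filter ℕ), u n * eval (px (q n) (x n)) B' = v n * eval (px (q n) (x n)) A' ∧
      eval (px (q n) (x n)) B' ≠ 0 := by
    filter_upwards [h, va_ne S hS halg hind H c0 hc0, va_ne S hS halg hind H B0 hB0] with n h1 h2 h3
    rw [← hcB, ← hcA, map_mul, map_mul] at h1
    have h4 : (u n : ℚ) * va (q n) (x n) B0 = v n * va (q n) (x n) A0 := by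
      apply mul_left_cancel₀ h2
      linear_combination h1
    have h5 : ((eval (px (q n) (x n)) B' : ℤ) : ℚ) = ((m1 : ℚ) * m2) * va (q n) (x n) B0 := by
      rw [← map_px, hmB, map_mul]
      congr 1
      unfold va
      rw [aeval_C]
      rfl
    have h6 : ((eval (px (q n) (x n)) A' : ℤ) : ℚ) = ((m1 : ℚ) * m2) * va (q n) (x n) A0 := by
      rw [← map_px, hmA, map_mul]
      congr 1
      unfold va
      rw [aeval_C]
      rfl
    constructor
    · have h7 : ((u n * eval (px (q n) (x n)) B' : ℤ) : ℚ) = ((v n * eval (px (q n) (x n)) A' : ℤ) : ℚ) := by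
        rw [Int.cast_mul, Int.cast_mul, h5, h6]
        linear_combination ((m1 : ℚ) * m2) * h4
      exact_mod_cast h7
    · intro h0
      rw [h0, Int.cast_zero] at h5
      have : (m1 : ℚ) * m2 ≠ 0 := mul_ne_zero (by exact_mod_cast hm1) (by exact_mod_cast hm2)
      exact (mul_ne_zero this h3) h5.symm
  have hm : ∀ n, ∃ m : ℤ, (v n ≠ 0 → u n * eval (px (q n) (x n)) B' = v n * eval (px (q n) (x n)) A' →
      eval (px (q n) (x n)) B' ≠ 0 → (m ≠ 0 ∧
      (Int.gcd (eval (px (q n) (x n)) A') (eval (px (q n) (x n)) B') : ℤ) * u n = m * eval (px (q n) (x n)) A' ∧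
      (Int.gcd (eval (px (q n) (x n)) A') (eval (px (q n) (x n)) B') : ℤ) * v n = m * eval (px (q n) (x n)) B' ∧
      m ∣ u n ∧ m ∣ v n)) := by
    intro n
    by_cases h1 : v n ≠ 0 ∧ u n * eval (px (q n) (x n)) B' = v n * eval (px (q n) (x n)) A' ∧
      eval (px (q n) (x n)) B' ≠ 0
    · obtain ⟨m, h2⟩ := prim_int h1.1 h1.2.2 h1.2.1
      exact ⟨m, fun _ _ _ => h2⟩
    · exact ⟨0, fun h2 h3 h4 => absurd ⟨h2, h3, h4⟩ h1⟩
  choose m hm using hm
  refine ⟨A', B', fun n => (Int.gcd (eval (px (q n) (x n)) A') (eval (px (q n) (x n)) B') : ℤ), m,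
    hB'0, hrel', ?_, ?_⟩
  · filter_upwards [hev, hv] with n h1 h2
    obtain ⟨h3, h4, h5, h6, h7⟩ := hm n h2 h1.1 h1.2
    refine ⟨?_, h3, h4, h5, h6, h7⟩
    have : 0 < Int.gcd (eval (px (q n) (x n)) A') (eval (px (q n) (x n)) B') :=
      Int.gcd_pos_of_ne_zero_right _ h1.2
    exact_mod_cast this.ne'
  · intro ε hε
    exact gcd_small' S hS halg hind H A' B' hB'0 hrel' hε

end

end Pool.Agent.Q4.Tube
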