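import Mathlib
import Pool.Agent.Q4.Tube.Prim

set_option autoImplicit false
set_option linter.unusedSectionVars false

/-!
# Thue and Pell equations over integral points near a ray
-/

namespace Pool.Agent.Q4.Tube

open Filter Topology Pool.Agent.TH932.Abs Pool.Agent.TH932.Germs Pool.Agent.TH932.Chi
open Pool.Agent.TH796.AL Pool.Agent.Q4.Blk Pool.Agent.Q4.Gcd Pool.Agent.Q4.Cov Module MvPolynomial

/-- bounded integer sequences are constant along the ultrafilter -/
lemma const_seq (f : ℕ → ℤ) (M : ℤ) (h : ∀ᶠ n in (UU : Filter ℕ), |f n| ≤ M) :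
    ∃ c : ℤ, ∀ᶠ n in (UU : Filter ℕ), f n = c := by
  have h1 : ∀ᶠ n in (UU : Filter ℕ), ∃ c ∈ Set.Icc (-M) M, f n = c := by
    filter_upwards [h] with n hn
    exact ⟨f n, abs_le.1 hn, rfl⟩
  obtain ⟨c, _, hc⟩ := (Ultrafilter.eventually_exists_mem_iff (f := UU)
    (P := fun c n => f n = c) (Set.finite_Icc (-M) M)).1 h1
  exact ⟨c, hc⟩

lemma prod_cmp (s : Multiset ℂ) (ρ z : ℂ) (h : ∀ a ∈ s, ‖ρ - a‖ ≤ 2 * ‖z - a‖) :
    ‖((s.map fun a => Polynomial.X - Polynomial.C a).prod).eval ρ‖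
      ≤ 2 ^ (Multiset.card s) * ‖((s.map fun a => Polynomial.X - Polynomial.C a).prod).eval z‖ := by
  induction s using Multiset.induction_on with
  | empty => simp
  | cons a s ih =>
    rw [Multiset.map_cons, Multiset.prod_cons, Polynomial.eval_mul, Polynomial.eval_mul, norm_mul,
      norm_mul, Multiset.card_cons, pow_succ]
    have h1 := h a (Multiset.mem_cons_self _ _)
    have h2 := ih fun b hb => h b (Multiset.mem_cons_of_mem hb)
    simp only [Polynomial.eval_sub, Polynomial.eval_X, Polynomial.eval_C]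
    calc ‖ρ - a‖ * ‖((s.map fun a => Polynomial.X - Polynomial.C a).prod).eval ρ‖
        ≤ (2 * ‖z - a‖) * (2 ^ (Multiset.card s)
          * ‖((s.map fun a => Polynomial.X - Polynomial.C a).prod).eval z‖) :=
          mul_le_mul h1 h2 (norm_nonneg _) (by positivity)
      _ = _ := by ring

/-- the nearest root -/
lemma nearest (f : Polynomial ℂ) (hf : 0 < f.natDegree) (z : ℂ) :
    ∃ ρ : ℂ, f.eval ρ = 0 ∧
      ‖z - ρ‖ * ‖f.derivative.eval ρ‖ ≤ 2 ^ (f.natDegree - 1) * ‖f.eval z‖ := by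
  classical
  have hf0 : f ≠ 0 := by
    rintro rfl
    simp at hf
  have hcard : Multiset.card f.roots = f.natDegree :=
    (IsAlgClosed.splits f).natDegree_eq_card_roots.symm
  have hne : f.roots.toFinset.Nonempty := by
    rw [Multiset.toFinset_nonempty]
    intro h
    rw [h, Multiset.card_zero] at hcard
    omega
  obtain ⟨ρ, hρ, hmin⟩ := f.roots.toFinset.exists_min_image (fun a => ‖z - a‖) hne
  rw [Multiset.mem_toFinset] at hρ
  refine ⟨ρ, (Polynomial.mem_roots hf0).1 hρ, ?_⟩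
  obtain ⟨s, hs⟩ := Multiset.exists_cons_of_mem hρ
  have hfac : f = Polynomial.C f.leadingCoeff
      * (f.roots.map fun a => Polynomial.X - Polynomial.C a).prod :=
    (Polynomial.C_leadingCoeff_mul_prod_multiset_X_sub_C hcard).symm
  set g : Polynomial ℂ := Polynomial.C f.leadingCoeff
    * (s.map fun a => Polynomial.X - Polynomial.C a).prod with hg
  have hfg : f = (Polynomial.X - Polynomial.C ρ) * g := by
    conv_lhs => rw [hfac, hs, Multiset.map_cons, Multiset.prod_cons]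
    rw [hg]
    ring
  have hder : f.derivative.eval ρ = g.eval ρ := by
    rw [hfg, Polynomial.derivative_mul, Polynomial.eval_add, Polynomial.eval_mul,
      Polynomial.eval_mul]
    simp
  have hz : f.eval z = (z - ρ) * g.eval z := by
    conv_lhs => rw [hfg]
    rw [Polynomial.eval_mul]
    simp
  have hs1 : Multiset.card s = f.natDegree - 1 := by
    rw [← hcard, hs, Multiset.card_cons]
    omega
  have h1 := prod_cmp s ρ z (by
    intro a ha
    have h2 : ‖z - ρ‖ ≤ ‖z - a‖ := hmin a (by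
      rw [Multiset.mem_toFinset, hs]
      exact Multiset.mem_cons_of_mem ha)
    have h3 : ρ - a = (z - a) - (z - ρ) := by ring
    rw [h3]
    refine (norm_sub_le _ _).trans ?_
    linarith)
  rw [hder, hz, norm_mul, hg, Polynomial.eval_mul, Polynomial.eval_mul, norm_mul, norm_mul, ← hs1]
  calc ‖z - ρ‖ * (‖(Polynomial.C f.leadingCoeff).eval ρ‖
        * ‖((s.map fun a => Polynomial.X - Polynomial.C a).prod).eval ρ‖)
      ≤ ‖z - ρ‖ * (‖(Polynomial.C f.leadingCoeff).eval ρ‖ * (2 ^ (Multiset.card s)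
        * ‖((s.map fun a => Polynomial.X - Polynomial.C a).prod).eval z‖)) := by
        apply mul_le_mul_of_nonneg_left _ (norm_nonneg _)
        exact mul_le_mul_of_nonneg_left h1 (norm_nonneg _)
    _ = _ := by
        simp only [Polynomial.eval_C]
        ring

section
variable {σ : Type} [Fintype σ] [DecidableEq σ]

/-- the values of the binary form -/
noncomputable def fval (P : Polynomial (MvPolynomial (Option σ) ℤ)) (y : Option σ → ℤ) (u v : ℤ) : ℤ :=
  ∑ i ∈ Finset.range (P.natDegree + 1), eval y (P.coeff i) * u ^ i * v ^ (P.natDegree - i)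

/-- the binary form over the polynomials -/
noncomputable def fpol (P : Polynomial (MvPolynomial (Option σ) ℤ)) (A B : MvPolynomial (Option σ) ℚ) :
    MvPolynomial (Option σ) ℚ :=
  ∑ i ∈ Finset.range (P.natDegree + 1), map (Int.castRingHom ℚ) (P.coeff i) * A ^ i
    * B ^ (P.natDegree - i)

variable (S : Finset ℕ) (hS : ∀ p ∈ S, p.Prime) {θ : σ → ℝ} (halg : ∀ s, IsAlgebraic ℚ (θ s))
  (hind : LinearIndependent ℚ (fun o : Option σ => (o.elim 1 (fun s => θ s) : ℝ)))
  {q : ℕ → ℕ} {x : ℕ → σ → ℤ} (H : Tub S θ q x)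
variable {P : Polynomial (MvPolynomial (Option σ) ℤ)} {D d : ℕ}

include halg H in
/-- lower bound for the derivative at a sequence of roots -/
theorem deriv_seq (hk : 0 < P.natDegree) (hlead : topv d P.leadingCoeff θ ≠ 0)
    (hdeg : ∀ i, (P.coeff i).totalDegree ≤ (P.natDegree - i) * D + d)
    (hsep : (pnf P D d θ).Separable)
    (ρ : ℕ → ℂ) (hρ : ∀ᶠ n in (UU : Filter ℕ), (P.map (evx (q n) (x n) ℂ)).eval (ρ n) = 0) :
    ∃ c : ℝ, 0 < c ∧ ∀ᶠ n in (UU : Filter ℕ), c * (q n : ℝ) ^ ((P.natDegree - 1) * D + d)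
      ≤ ‖(P.map (evx (q n) (x n) ℂ)).derivative.eval (ρ n)‖ := by
  have hqn0 : ∀ n, q n ≠ 0 := px_ne H
  set θK : σ → QB := fun s => ⟨(θ s : ℂ), mem_algebraicClosure_iff.2 (alg_of_real.2 (halg s))⟩ with hθK
  have hθ : ∀ s, phi (θK s) = (θ s : ℂ) := fun s => rfl
  have hlead' : topv d P.leadingCoeff θK ≠ 0 := by
    intro h
    have h1 := topv_map phi d P.leadingCoeff θK
    rw [h, map_zero] at h1
    have h2 := topv_map (algebraMap ℝ ℂ) d P.leadingCoeff θ
    have h3 : (fun s => phi (θK s)) = fun s => algebraMap ℝ ℂ (θ s) := rfl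
    rw [h3, ← h2] at h1
    exact hlead ((map_eq_zero _).1 h1.symm)
  obtain ⟨M, hM⟩ := root_bnd (P := P) (D := D) (d := d) H θK hlead' hdeg
  set p : Polynomial (MvPolynomial (Option σ) QB) := ptl P D d θK with hp
  have hcc := ptl_cc hdeg θK
  set Y : ℕ → ℂ := fun n => ρ n / (q n : ℂ) ^ D with hY
  have hqc : ∀ n, (q n : ℂ) ≠ 0 := fun n => by exact_mod_cast hqn0 n
  have hroot : ∀ᶠ n in (UU : Filter ℕ), (p.map (evr phi (vs θ q x n))).eval (Y n) = 0 := by
    filter_upwards [hρ] with n h1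
    rw [← ptl_eval hθ hdeg (hqn0 n) (x n) (ρ n)] at h1
    exact (mul_eq_zero.1 h1).resolve_left (pow_ne_zero _ (hqc n))
  obtain ⟨η, hη⟩ := exists_limc Y M (by
    filter_upwards [hM, hroot] with n h1 h2
    exact h1 _ h2)
  -- limits of values of polynomials
  have hlim : ∀ g : Polynomial (MvPolynomial (Option σ) QB), Tendsto
      (fun n => (g.map (evr phi (vs θ q x n))).eval (Y n)) (UU : Filter ℕ)
      (𝓝 (((g.map constantCoeff).map phi).eval η)) := by
    intro g
    have hsum : ∀ (n : ℕ) (z : ℂ), (g.map (evr phi (vs θ q x n))).eval z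
        = ∑ i ∈ Finset.range (g.natDegree + 1), evr phi (vs θ q x n) (g.coeff i) * z ^ i := by
      intro n z
      rw [Polynomial.eval_map, Polynomial.eval₂_eq_sum_range]
    have h2 : ((g.map constantCoeff).map phi).eval η
        = ∑ i ∈ Finset.range (g.natDegree + 1), phi (constantCoeff (g.coeff i)) * η ^ i := by
      rw [Polynomial.map_map, Polynomial.eval_map, Polynomial.eval₂_eq_sum_range]
      rfl
    rw [h2]
    simp only [hsum]
    exact tendsto_finsetSum _ fun i _ => (lim_evr phi H _).mul (hη.pow i)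
  have h3 : (pnf P D d (fun s => (θ s : ℂ))).Separable := by
    have h4 := hsep.map (f := algebraMap ℝ ℂ)
    rw [pnf_map] at h4
    exact h4
  have h4 : (pnf P D d θK).map phi = pnf P D d (fun s => (θ s : ℂ)) := pnf_map phi θK
  have hη0 : (pnf P D d (fun s => (θ s : ℂ))).eval η = 0 := by
    have h1 := hlim p
    rw [hp, hcc, h4] at h1
    refine tendsto_nhds_unique h1 ?_
    refine tendsto_const_nhds.congr' ?_
    filter_upwards [hroot] with n hn
    exact hn.symm
  have hη1 : (pnf P D d (fun s => (θ s : ℂ))).derivative.eval η ≠ 0 := by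
    obtain ⟨a, b, hab⟩ := h3
    intro h
    have h5 := congrArg (Polynomial.eval η) hab
    rw [Polynomial.eval_add, Polynomial.eval_mul, Polynomial.eval_mul, hη0, h] at h5
    simp at h5
  have hd1 := hlim p.derivative
  have hd2 : ((p.derivative.map constantCoeff).map phi).eval η
      = (pnf P D d (fun s => (θ s : ℂ))).derivative.eval η := by
    rw [← Polynomial.derivative_map, ← Polynomial.derivative_map, hp, hcc, h4]
  rw [hd2] at hd1
  set c : ℝ := ‖(pnf P D d (fun s => (θ s : ℂ))).derivative.eval η‖ / 2 with hc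
  have hc0 : 0 < c := by
    have := norm_pos_iff.2 hη1
    positivity
  refine ⟨c, hc0, ?_⟩
  have hc1 : c < ‖(pnf P D d (fun s => (θ s : ℂ))).derivative.eval η‖ := by
    have := norm_pos_iff.2 hη1
    rw [hc]
    linarith
  filter_upwards [hd1.norm.eventually (lt_mem_nhds hc1)] with n hn
  -- the scaling
  have hsc : P.map (evx (q n) (x n) ℂ) = Polynomial.C ((q n : ℂ) ^ (P.natDegree * D + d))
      * (p.map (evr phi (vs θ q x n))).comp (Polynomial.C (((q n : ℂ) ^ D)⁻¹) * Polynomial.X) := by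
    apply Polynomial.funext
    intro z
    rw [← ptl_eval hθ hdeg (hqn0 n) (x n) z, Polynomial.eval_mul, Polynomial.eval_C,
      Polynomial.eval_comp, Polynomial.eval_mul, Polynomial.eval_C, Polynomial.eval_X]
    congr 2
    rw [div_eq_mul_inv, mul_comm]
  have hder : (P.map (evx (q n) (x n) ℂ)).derivative.eval (ρ n)
      = (q n : ℂ) ^ ((P.natDegree - 1) * D + d)
        * ((p.derivative.map (evr phi (vs θ q x n))).eval (Y n)) := by
    rw [hsc, Polynomial.derivative_mul, Polynomial.derivative_C, zero_mul, zero_add,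
      Polynomial.derivative_comp, Polynomial.eval_mul, Polynomial.eval_mul, Polynomial.eval_C,
      Polynomial.eval_comp, Polynomial.derivative_map]
    simp only [Polynomial.eval_mul, Polynomial.eval_C, Polynomial.eval_X, Polynomial.derivative_mul,
      Polynomial.derivative_C, zero_mul, Polynomial.derivative_X, mul_one, zero_add]
    have e1 : ((q n : ℂ) ^ D)⁻¹ * ρ n = Y n := by
      rw [hY]
      simp only []
      rw [div_eq_mul_inv, mul_comm]
    rw [e1]
    have e2 : (q n : ℂ) ^ (P.natDegree * D + d) = (q n : ℂ) ^ ((P.natDegree - 1) * D + d) * (q n : ℂ) ^ D := by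
      rw [← pow_add]
      congr 1
      have : P.natDegree = (P.natDegree - 1) + 1 := by omega
      conv_lhs => rw [this]
      ring
    rw [e2]
    have := pow_ne_zero D (hqc n)
    field_simp
  rw [hder, norm_mul, norm_pow, Complex.norm_natCast, mul_comm]
  exact mul_le_mul_of_nonneg_left hn.le (by positivity)

lemma fval_div (y : Option σ → ℤ) (u v : ℤ) (hv : v ≠ 0) :
    (fval P y u v : ℂ) = (v : ℂ) ^ P.natDegree
      * (P.map ((Int.castRingHom ℂ).comp (eval y))).eval ((u : ℂ) / v) := by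
  have hvc : (v : ℂ) ≠ 0 := by exact_mod_cast hv
  unfold fval
  rw [Polynomial.eval_map, Polynomial.eval₂_eq_sum_range, Int.cast_sum, Finset.mul_sum]
  refine Finset.sum_congr rfl fun i hi => ?_
  have hi' : i ≤ P.natDegree := Nat.lt_succ_iff.1 (Finset.mem_range.1 hi)
  have h2 : (v : ℂ) ^ P.natDegree = (v : ℂ) ^ (P.natDegree - i) * (v : ℂ) ^ i := by
    rw [← pow_add]
    congr 1
    omega
  rw [h2, div_pow]
  have h3 : ((v : ℂ)) ^ i ≠ 0 := pow_ne_zero _ hvc
  have hE : ((Int.castRingHom ℂ).comp (eval y)) (P.coeff i) = ((eval y (P.coeff i) : ℤ) : ℂ) := rfl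
  rw [hE]
  push_cast
  field_simp

lemma fval_mul (y : Option σ → ℤ) (m u v : ℤ) :
    fval P y (m * u) (m * v) = m ^ P.natDegree * fval P y u v := by
  unfold fval
  rw [Finset.mul_sum]
  refine Finset.sum_congr rfl fun i hi => ?_
  have hi' : i ≤ P.natDegree := Nat.lt_succ_iff.1 (Finset.mem_range.1 hi)
  have h2 : m ^ P.natDegree = m ^ (P.natDegree - i) * m ^ i := by
    rw [← pow_add]
    congr 1
    omega
  rw [h2, mul_pow, mul_pow]
  ring

/-- the integral binary form -/
noncomputable def fint (P : Polynomial (MvPolynomial (Option σ) ℤ)) (A B : MvPolynomial (Option σ) ℤ) :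
    MvPolynomial (Option σ) ℤ :=
  ∑ i ∈ Finset.range (P.natDegree + 1), P.coeff i * A ^ i * B ^ (P.natDegree - i)

lemma eval_fint (y : Option σ → ℤ) (A B : MvPolynomial (Option σ) ℤ) :
    eval y (fint P A B) = fval P y (eval y A) (eval y B) := by
  unfold fint fval
  rw [map_sum]
  refine Finset.sum_congr rfl fun i _ => ?_
  rw [map_mul, map_mul, map_pow, map_pow]

lemma map_fint (A B : MvPolynomial (Option σ) ℤ) :
    map (Int.castRingHom ℚ) (fint P A B)
      = fpol P (map (Int.castRingHom ℚ) A) (map (Int.castRingHom ℚ) B) := by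
  unfold fint fpol
  rw [map_sum]
  refine Finset.sum_congr rfl fun i _ => ?_
  rw [map_mul, map_mul, map_pow, map_pow]

lemma fpol_smul (r : ℚ) (A B : MvPolynomial (Option σ) ℚ) :
    fpol P (C r * A) (C r * B) = C (r ^ P.natDegree) * fpol P A B := by
  unfold fpol
  rw [Finset.mul_sum]
  refine Finset.sum_congr rfl fun i hi => ?_
  have hi' : i ≤ P.natDegree := Nat.lt_succ_iff.1 (Finset.mem_range.1 hi)
  have h2 : r ^ P.natDegree = r ^ (P.natDegree - i) * r ^ i := by
    rw [← pow_add]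
    congr 1
    omega
  rw [h2, mul_pow, mul_pow, map_mul, map_pow, map_pow]
  ring

include hS halg hind H

/-- **Thue inequalities along a sequence of points near a ray.** -/
theorem thue_seq [Nonempty σ] (hk : 2 ≤ P.natDegree) (hDd : 0 < (P.natDegree - 1) * D + d)
    (hlead : topv d P.leadingCoeff θ ≠ 0)
    (hdeg : ∀ i, (P.coeff i).totalDegree ≤ (P.natDegree - i) * D + d)
    (hsep : (pnf P D d θ).Separable) (K : ℕ) (u v : ℕ → ℤ) (hv0 : ∀ n, v n ≠ 0)
    (hvK : ∀ n, |v n| ≤ (q n : ℤ) ^ K)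
    (hc0 : ∀ n, fval P (px (q n) (x n)) (u n) (v n) ≠ 0)
    (hcs : ∀ ε : ℝ, 0 < ε → ∀ᶠ n in (UU : Filter ℕ),
      |(fval P (px (q n) (x n)) (u n) (v n) : ℝ)| ≤ (q n : ℝ) ^ ε) :
    ∃ (A B : MvPolynomial (Option σ) ℚ), (∃ r : ℚ, r ≠ 0 ∧ fpol P A B = C r) ∧
      ∀ᶠ n in (UU : Filter ℕ), ∃ m : ℤ, (u n : ℚ) = m * va (q n) (x n) A ∧
        (v n : ℚ) = m * va (q n) (x n) B := by
  classical
  have hqn0 : ∀ n, q n ≠ 0 := px_ne H
  have hk0 : 0 < P.natDegree := by omega
  -- the degree is constant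
  have hl0 : ∀ᶠ n in (UU : Filter ℕ), (P.map (evx (q n) (x n) ℂ)).natDegree = P.natDegree := by
    have h1 : map (Int.castRingHom ℚ) P.leadingCoeff ≠ 0 := by
      intro h
      have h2 : P.leadingCoeff = 0 := map_injective _ Int.cast_injective (by rw [h, map_zero])
      rw [h2] at hlead
      exact hlead (by unfold topv; simp)
    filter_upwards [va_ne S hS halg hind H _ h1] with n hn
    rw [map_px] at hn
    apply Polynomial.natDegree_map_of_leadingCoeff_ne_zero
    intro h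
    apply hn
    have h2 : ((eval (px (q n) (x n)) P.leadingCoeff : ℤ) : ℂ) = 0 := h
    exact_mod_cast h2
  set f : ℕ → Polynomial ℂ := fun n => P.map (evx (q n) (x n) ℂ) with hf
  have hnear : ∀ n, ∃ ρ : ℂ, 0 < (f n).natDegree → ((f n).eval ρ = 0 ∧
      ‖(u n : ℂ) / v n - ρ‖ * ‖(f n).derivative.eval ρ‖ ≤ 2 ^ ((f n).natDegree - 1)
        * ‖(f n).eval ((u n : ℂ) / v n)‖) := by
    intro n
    by_cases h : 0 < (f n).natDegree
    · obtain ⟨ρ, hρ⟩ := nearest (f n) h ((u n : ℂ) / v n)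
      exact ⟨ρ, fun _ => hρ⟩
    · exact ⟨0, fun h' => absurd h' h⟩
  choose ρ hρ using hnear
  have hroot : ∀ᶠ n in (UU : Filter ℕ), (f n).eval (ρ n) = 0 := by
    filter_upwards [hl0] with n hn
    exact (hρ n (by rw [hf]; simp only []; rw [hn]; exact hk0)).1
  obtain ⟨c, hcpos, hder⟩ := deriv_seq S halg H hk0 hlead hdeg hsep ρ hroot
  set vN : ℕ → ℕ := fun n => (v n).natAbs with hvN
  have hvN0 : ∀ n, vN n ≠ 0 := fun n => Int.natAbs_ne_zero.2 (hv0 n)
  have hvNr : ∀ n, (vN n : ℝ) = |(v n : ℝ)| := fun n => by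
    rw [hvN]
    simp only []
    rw [Nat.cast_natAbs, Int.cast_abs]
  set t : ℕ → ℤ := fun n => u n * (v n).sign with ht
  have hsgn : ∀ n, (v n).sign * v n = (vN n : ℤ) := fun n => by
    rw [hvN]
    simp only []
    rw [Int.natCast_natAbs, ← Int.sign_mul_self_eq_abs (v n)]
    try ring
  obtain ⟨A0, B0, hB0, hAB⟩ := rothT S hS halg hind H D K (1 / 2) (by norm_num) ρ
    (root_exp H halg hlead hdeg hsep ρ hroot (3 * K)) (fun _ => 1) (fun _ => one_ne_zero)
    (fun _ => by simp) (fun n => Nat.one_le_iff_ne_zero.2 (pow_ne_zero _ (hqn0 n))) vN hvN0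
    (fun n => by
      have h1 := hvK n
      have h2 : ((vN n : ℤ)) ≤ (q n : ℤ) ^ K := by
        rw [hvN]
        simp only []
        rw [Int.natCast_natAbs]
        exact h1
      exact_mod_cast h2) t (by
    have hbig := big_ev H.big (2 ^ (P.natDegree - 1) / c) (show (0 : ℝ) < 1 / 4 by norm_num)
    filter_upwards [hl0, hder, hcs (1 / 4) (by norm_num), hbig] with n h1 h2 h3 h4
    have hqp := qpos H.big n
    have hq1 := qone H.big n
    have hvp : (0 : ℝ) < vN n := by exact_mod_cast Nat.pos_of_ne_zero (hvN0 n)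
    have hv1 : (1 : ℝ) ≤ vN n := by exact_mod_cast Nat.one_le_iff_ne_zero.2 (hvN0 n)
    have hn1 : 0 < (f n).natDegree := by rw [hf]; simp only []; rw [h1]; exact hk0
    have h5 := (hρ n hn1).2
    have h6 : (f n).natDegree = P.natDegree := h1
    rw [h6] at h5
    have h7 := fval_div (P := P) (px (q n) (x n)) (u n) (v n) (hv0 n)
    have h8 : ‖(f n).eval ((u n : ℂ) / v n)‖ * (vN n : ℝ) ^ P.natDegree
        = |(fval P (px (q n) (x n)) (u n) (v n) : ℝ)| := by
      have h9 := congrArg norm h7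
      rw [norm_mul, norm_pow, Complex.norm_intCast, Complex.norm_intCast, ← hvNr] at h9
      rw [h9, mul_comm]
      rfl
    have h9 : ‖(((fun _ => 1 : ℕ → ℕ) n : ℕ) : ℂ) * (vN n : ℂ) * ρ n - t n‖
        = vN n * ‖(u n : ℂ) / v n - ρ n‖ := by
      have h10 : (((fun _ => 1 : ℕ → ℕ) n : ℕ) : ℂ) * (vN n : ℂ) * ρ n - t n
          = -((vN n : ℂ) * ((u n : ℂ) / v n - ρ n)) := by
        have hvc : (v n : ℂ) ≠ 0 := by exact_mod_cast hv0 n
        have h11 : (vN n : ℂ) = ((v n).sign : ℂ) * v n := by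
          have := hsgn n
          have h12 : (((v n).sign * v n : ℤ) : ℂ) = ((vN n : ℤ) : ℂ) := by rw [this]
          push_cast at h12
          exact h12.symm
        rw [ht]
        simp only []
        push_cast
        rw [h11]
        field_simp
        ring
      rw [h10, norm_neg, norm_mul, Complex.norm_natCast]
    rw [h9]
    -- the estimate
    have h10 : ‖(u n : ℂ) / v n - ρ n‖ * (c * (q n : ℝ) ^ ((P.natDegree - 1) * D + d))
        ≤ 2 ^ (P.natDegree - 1) * ‖(f n).eval ((u n : ℂ) / v n)‖ :=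
      (mul_le_mul_of_nonneg_left h2 (norm_nonneg _)).trans h5
    have h11 : (q n : ℝ) ≤ (q n : ℝ) ^ ((P.natDegree - 1) * D + d) := by
      calc (q n : ℝ) = (q n : ℝ) ^ 1 := (pow_one _).symm
        _ ≤ _ := pow_le_pow_right₀ hq1 (by omega)
    have h12 : ‖(f n).eval ((u n : ℂ) / v n)‖ * (vN n : ℝ) ^ 2 ≤ (q n : ℝ) ^ ((1 : ℝ) / 4) := by
      calc ‖(f n).eval ((u n : ℂ) / v n)‖ * (vN n : ℝ) ^ 2
          ≤ ‖(f n).eval ((u n : ℂ) / v n)‖ * (vN n : ℝ) ^ P.natDegree :=
            mul_le_mul_of_nonneg_left (pow_le_pow_right₀ hv1 hk) (norm_nonneg _)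
        _ ≤ _ := by rw [h8]; exact h3
    have h13 : ‖(u n : ℂ) / v n - ρ n‖ * (c * q n) * (vN n : ℝ) ^ 2
        ≤ 2 ^ (P.natDegree - 1) * (q n : ℝ) ^ ((1 : ℝ) / 4) := by
      calc ‖(u n : ℂ) / v n - ρ n‖ * (c * q n) * (vN n : ℝ) ^ 2
          ≤ (2 ^ (P.natDegree - 1) * ‖(f n).eval ((u n : ℂ) / v n)‖) * (vN n : ℝ) ^ 2 := by
            apply mul_le_mul_of_nonneg_right _ (by positivity)
            refine le_trans ?_ h10
            exact mul_le_mul_of_nonneg_left (mul_le_mul_of_nonneg_left h11 hcpos.le) (norm_nonneg _)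
        _ = 2 ^ (P.natDegree - 1) * (‖(f n).eval ((u n : ℂ) / v n)‖ * (vN n : ℝ) ^ 2) := by ring
        _ ≤ _ := mul_le_mul_of_nonneg_left h12 (by positivity)
    have h14 : (2 : ℝ) ^ (P.natDegree - 1) * (q n : ℝ) ^ ((1 : ℝ) / 4)
        ≤ c * (q n : ℝ) ^ ((1 : ℝ) / 2) := by
      have h15 : (q n : ℝ) ^ ((1 : ℝ) / 2) = (q n : ℝ) ^ ((1 : ℝ) / 4) * (q n : ℝ) ^ ((1 : ℝ) / 4) := by
        rw [← Real.rpow_add hqp]
        norm_num
      rw [div_le_iff₀ hcpos] at h4
      rw [h15, ← mul_assoc]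
      apply mul_le_mul_of_nonneg_right _ (by positivity)
      linarith
    have h15 : ‖(u n : ℂ) / v n - ρ n‖ * q n * (vN n : ℝ) ^ 2 ≤ (q n : ℝ) ^ ((1 : ℝ) / 2) := by
      have h16 : c * (‖(u n : ℂ) / v n - ρ n‖ * q n * (vN n : ℝ) ^ 2) ≤ c * (q n : ℝ) ^ ((1 : ℝ) / 2) := by
        refine le_trans (le_of_eq ?_) (h13.trans h14)
        ring
      exact le_of_mul_le_mul_left h16 hcpos
    rw [le_div_iff₀ hvp]
    have h16 : (q n : ℝ) ^ (-((1 : ℝ) / 2)) = (q n : ℝ) ^ ((1 : ℝ) / 2) / q n := by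
      rw [← Real.rpow_sub_one hqp.ne']
      norm_num
    rw [h16, le_div_iff₀ hqp]
    refine le_trans (le_of_eq ?_) h15
    ring)
  -- back to `u` and `v`
  have huv : ∀ᶠ n in (UU : Filter ℕ), (u n : ℚ) * va (q n) (x n) B0 = v n * va (q n) (x n) A0 := by
    filter_upwards [hAB] with n h1
    have h2 : ((v n).sign : ℚ) * v n = (vN n : ℚ) := by exact_mod_cast hsgn n
    have h3 : ((v n).sign : ℚ) ≠ 0 := by
      have : (v n).sign ≠ 0 := by
        rw [Ne, Int.sign_eq_zero_iff_zero]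
        exact hv0 n
      exact_mod_cast this
    rw [ht] at h1
    simp only [Nat.cast_one, one_mul] at h1
    rw [← h2] at h1
    push_cast at h1
    apply mul_left_cancel₀ h3
    linear_combination h1
  obtain ⟨A', B', e, m, hB'0, hrel, hem, hes⟩ := prim_rep S hS halg hind H A0 B0 hB0 u v
    (Eventually.of_forall hv0) huv
  -- the constant value
  have hval : ∀ᶠ n in (UU : Filter ℕ), (e n) ^ P.natDegree * fval P (px (q n) (x n)) (u n) (v n)
      = (m n) ^ P.natDegree * eval (px (q n) (x n)) (fint P A' B') ∧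
      (m n) ^ P.natDegree ∣ fval P (px (q n) (x n)) (u n) (v n) := by
    filter_upwards [hem] with n hn
    obtain ⟨h1, h2, h3, h4, ⟨u1, hu1⟩, ⟨v1, hv1⟩⟩ := hn
    constructor
    · rw [← fval_mul, h3, h4, fval_mul, eval_fint]
    · rw [hu1, hv1, fval_mul]
      exact dvd_mul_right _ _
  have hms : ∀ ε : ℝ, 0 < ε → ∀ᶠ n in (UU : Filter ℕ), |(((m n) ^ P.natDegree : ℤ) : ℝ)| ≤ (q n : ℝ) ^ ε := by
    intro ε hε
    filter_upwards [hval, hcs ε hε] with n h1 h2
    have h3 := Int.le_of_dvd (abs_pos.2 (hc0 n)) ((abs_dvd_abs _ _).2 h1.2)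
    have h4 : ((|(m n) ^ P.natDegree| : ℤ) : ℝ) ≤ ((|fval P (px (q n) (x n)) (u n) (v n)| : ℤ) : ℝ) := by
      exact_mod_cast h3
    rw [Int.cast_abs, Int.cast_abs] at h4
    exact h4.trans h2
  have hes' : ∀ ε : ℝ, 0 < ε → ∀ᶠ n in (UU : Filter ℕ),
      |(((e n) ^ P.natDegree * fval P (px (q n) (x n)) (u n) (v n) : ℤ) : ℝ)| ≤ (q n : ℝ) ^ ε := by
    intro ε hε
    have hkp : (0 : ℝ) < P.natDegree := by exact_mod_cast hk0
    filter_upwards [hes (ε / 2 / P.natDegree) (by positivity), hcs (ε / 2) (by positivity)] with n h1 h2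
    rw [Int.cast_mul, Int.cast_pow, abs_mul, abs_pow]
    have hqp := qpos H.big n
    calc |(e n : ℝ)| ^ P.natDegree * |(fval P (px (q n) (x n)) (u n) (v n) : ℝ)|
        ≤ ((q n : ℝ) ^ (ε / 2 / P.natDegree)) ^ P.natDegree * (q n : ℝ) ^ (ε / 2) := by
          apply mul_le_mul (pow_le_pow_left₀ (abs_nonneg _) h1 _) h2 (abs_nonneg _) (by positivity)
      _ = (q n : ℝ) ^ ε := by
          rw [← Real.rpow_natCast, ← Real.rpow_mul hqp.le, ← Real.rpow_add hqp]
          congr 1
          field_simp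
          ring
  obtain ⟨hR, hRv⟩ := small_constT S hS halg hind H (map (Int.castRingHom ℚ) (fint P A' B'))
    (fun n => (e n) ^ P.natDegree * fval P (px (q n) (x n)) (u n) (v n))
    (fun n => (m n) ^ P.natDegree) (by
      filter_upwards [hem] with n hn
      exact pow_ne_zero _ hn.2.1) (by
      filter_upwards [hval] with n hn
      rw [map_px]
      have h1 := hn.1
      rw [h1]
      push_cast
      ring) hes' hms
  rw [constantCoeff_map] at hR hRv
  set r : ℤ := constantCoeff (fint P A' B') with hr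
  simp only [eq_intCast] at hR hRv
  have hrm : ∀ᶠ n in (UU : Filter ℕ), r * (m n) ^ P.natDegree
      = (e n) ^ P.natDegree * fval P (px (q n) (x n)) (u n) (v n) := by
    filter_upwards [hRv] with n hn
    exact_mod_cast hn
  have hr0 : r ≠ 0 := by
    intro h
    obtain ⟨n, h1, h2⟩ := (hrm.and hem).exists
    rw [h, zero_mul] at h1
    exact mul_ne_zero (pow_ne_zero _ h2.1) (hc0 n) h1.symm
  -- lowest terms
  have hlow : ∀ n, ∃ m' e' : ℤ, e n ≠ 0 → (IsCoprime m' e' ∧ e' ≠ 0 ∧ m n * e' = m' * e n) := by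
    intro n
    by_cases h : e n ≠ 0
    · have h1 : 0 < Int.gcd (m n) (e n) := Int.gcd_pos_of_ne_zero_right _ h
      obtain ⟨m', e', hc, hm', he'⟩ := Int.exists_gcd_one h1
      refine ⟨m', e', fun _ => ⟨Int.isCoprime_iff_gcd_eq_one.2 hc, ?_, ?_⟩⟩
      · rintro rfl
        rw [zero_mul] at he'
        exact h he'
      · conv_lhs => rw [hm']
        conv_rhs => rw [he']
        ring
    · exact ⟨0, 0, fun h' => absurd h' h⟩
  choose m' e' hlow using hlow
  have hpr : ∀ᶠ n in (UU : Filter ℕ), e' n ≠ 0 ∧ u n * e' n = m' n * eval (px (q n) (x n)) A' ∧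
      v n * e' n = m' n * eval (px (q n) (x n)) B' ∧ |e' n| ≤ |r| := by
    filter_upwards [hem, hrm] with n hn h1
    obtain ⟨h2, h3, h4, h5, -, -⟩ := hn
    obtain ⟨h6, h7, h8⟩ := hlow n h2
    refine ⟨h7, ?_, ?_, ?_⟩
    · apply mul_left_cancel₀ h2
      calc e n * (u n * e' n) = (e n * u n) * e' n := by ring
        _ = (m n * eval (px (q n) (x n)) A') * e' n := by rw [h4]
        _ = (m n * e' n) * eval (px (q n) (x n)) A' := by ring
        _ = _ := by rw [h8]; ring
    · apply mul_left_cancel₀ h2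
      calc e n * (v n * e' n) = (e n * v n) * e' n := by ring
        _ = (m n * eval (px (q n) (x n)) B') * e' n := by rw [h5]
        _ = (m n * e' n) * eval (px (q n) (x n)) B' := by ring
        _ = _ := by rw [h8]; ring
    · have h9 : r * (m' n) ^ P.natDegree = (e' n) ^ P.natDegree * fval P (px (q n) (x n)) (u n) (v n) := by
        apply mul_left_cancel₀ (pow_ne_zero P.natDegree h2)
        calc (e n) ^ P.natDegree * (r * (m' n) ^ P.natDegree) = r * (m' n * e n) ^ P.natDegree := by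
              rw [mul_pow]; ring
          _ = (r * (m n) ^ P.natDegree) * (e' n) ^ P.natDegree := by rw [← h8, mul_pow]; ring
          _ = _ := by rw [h1]; ring
      have h10 : (e' n) ^ P.natDegree ∣ r := by
        apply (h6.symm.pow (m := P.natDegree) (n := P.natDegree)).dvd_of_dvd_mul_right
        rw [h9]
        exact dvd_mul_right _ _
      have h11 : e' n ∣ r := (dvd_pow_self _ (by omega)).trans h10
      exact Int.le_of_dvd (abs_pos.2 hr0) ((abs_dvd_abs _ _).2 h11)
  obtain ⟨e0, he0⟩ := const_seq e' |r| (by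
    filter_upwards [hpr] with n hn
    exact hn.2.2.2)
  have he00 : e0 ≠ 0 := by
    obtain ⟨n, h1, h2⟩ := (he0.and hpr).exists
    rw [← h1]
    exact h2.1
  have he0q : (e0 : ℚ) ≠ 0 := by exact_mod_cast he00
  refine ⟨C (1 / (e0 : ℚ)) * map (Int.castRingHom ℚ) A', C (1 / (e0 : ℚ)) * map (Int.castRingHom ℚ) B',
    ⟨(1 / (e0 : ℚ)) ^ P.natDegree * r, ?_, ?_⟩, ?_⟩
  · have : (r : ℚ) ≠ 0 := by exact_mod_cast hr0
    positivity
  · rw [fpol_smul, ← map_fint, hR, ← map_mul]
  · filter_upwards [hpr, he0] with n hn h1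
    obtain ⟨-, h2, h3, -⟩ := hn
    refine ⟨m' n, ?_, ?_⟩
    · rw [map_mul, map_px]
      have h4 : va (q n) (x n) (C (1 / (e0 : ℚ))) = 1 / e0 := by
        unfold va
        rw [aeval_C]
        rfl
      rw [h4]
      have h5 : (u n : ℚ) * e0 = m' n * (eval (px (q n) (x n)) A' : ℤ) := by
        rw [← h1]
        exact_mod_cast h2
      field_simp
      linear_combination h5
    · rw [map_mul, map_px]
      have h4 : va (q n) (x n) (C (1 / (e0 : ℚ))) = 1 / e0 := by
        unfold va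
        rw [aeval_C]
        rfl
      rw [h4]
      have h5 : (v n : ℚ) * e0 = m' n * (eval (px (q n) (x n)) B' : ℤ) := by
        rw [← h1]
        exact_mod_cast h3
      field_simp
      linear_combination h5

end

section
variable {σ : Type} [Fintype σ] [DecidableEq σ]

/-- **Thue inequalities over all integral points near a ray.** -/
theorem thue_main [Nonempty σ] (S : Finset ℕ) (hS : ∀ p ∈ S, p.Prime) {θ : σ → ℝ}
    (halg : ∀ s, IsAlgebraic ℚ (θ s))
    (hind : LinearIndependent ℚ (fun o : Option σ => (o.elim 1 (fun s => θ s) : ℝ)))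
    (P : Polynomial (MvPolynomial (Option σ) ℤ)) (D d : ℕ)
    (hk : 2 ≤ P.natDegree) (hDd : 0 < (P.natDegree - 1) * D + d)
    (hlead : topv d P.leadingCoeff θ ≠ 0)
    (hdeg : ∀ i, (P.coeff i).totalDegree ≤ (P.natDegree - i) * D + d)
    (hsep : (pnf P D d θ).Separable) (K : ℕ) :
    ∃ (η : ℝ) (N : ℕ) (A : Finset (MvPolynomial (Option σ) ℚ × MvPolynomial (Option σ) ℚ)), 0 < η ∧
      (∀ G ∈ A, ∃ r : ℚ, r ≠ 0 ∧ fpol P G.1 G.2 = C r) ∧
      ∀ q ≥ N, ∀ x, Near S θ η q x → ∀ u v : ℤ, v ≠ 0 → |v| ≤ (q : ℤ) ^ K →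
        fval P (px q x) u v ≠ 0 → |(fval P (px q x) u v : ℝ)| ≤ (q : ℝ) ^ η →
        ∃ G ∈ A, ∃ m : ℤ, (u : ℚ) = m * va q x G.1 ∧ (v : ℚ) = m * va q x G.2 := by
  classical
  obtain ⟨η, N, A, hη, hA⟩ := finite_rep' S θ (β := MvPolynomial (Option σ) ℚ × MvPolynomial (Option σ) ℚ)
    (Δ := ℤ × ℤ)
    (fun η q x d => d.2 ≠ 0 ∧ |d.2| ≤ (q : ℤ) ^ K ∧ fval P (px q x) d.1 d.2 ≠ 0 ∧
      |(fval P (px q x) d.1 d.2 : ℝ)| ≤ (q : ℝ) ^ η)
    (fun G q x d => (∃ r : ℚ, r ≠ 0 ∧ fpol P G.1 G.2 = C r) ∧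
      ∃ m : ℤ, (d.1 : ℚ) = m * va q x G.1 ∧ (d.2 : ℚ) = m * va q x G.2)
    (by
      intro q x d H hd
      obtain ⟨A, B, h1, h2⟩ := thue_seq S hS halg hind H hk hDd hlead hdeg hsep K
        (fun n => (d n).1) (fun n => (d n).2) (fun n => (hd n).1) (fun n => (hd n).2.1)
        (fun n => (hd n).2.2.1)
        (small_of H.big _ fun n => (hd n).2.2.2)
      exact ⟨(A, B), by
        filter_upwards [h2] with n hn
        exact ⟨h1, hn⟩⟩)
  refine ⟨η, N, A.filter (fun G => ∃ r : ℚ, r ≠ 0 ∧ fpol P G.1 G.2 = C r), hη,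
    fun G hG => (Finset.mem_filter.1 hG).2, fun q hq x hx u v hv hvK h1 h2 => ?_⟩
  obtain ⟨G, hG, h3, h4⟩ := hA q hq x hx (u, v) ⟨hv, hvK, h1, h2⟩
  exact ⟨G, Finset.mem_filter.2 ⟨hG, h3⟩, h4⟩

end

end Pool.Agent.Q4.Tube
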