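import Mathlib
import Pool.Agent.Q4.Tube.Thue

set_option autoImplicit false
set_option linter.unusedSectionVars false

/-!
# Continued fractions of quotients at integral points near a ray
-/

namespace Pool.Agent.Q4.Tube

open Filter Topology Pool.Agent.TH932.Abs Pool.Agent.TH932.Germs Pool.Agent.TH932.Chi
open Pool.Agent.TH796.AL Pool.Agent.Q4.Blk Pool.Agent.Q4.Gcd Pool.Agent.Q4.Cov Module MvPolynomial

section
variable {R : Type*} [CommRing R]

/-- numerators of the convergents -/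
def cP (a : ℕ → R) : ℕ → R
  | 0 => 1
  | 1 => a 0
  | (j + 2) => a (j + 1) * cP a (j + 1) + cP a j

/-- denominators of the convergents -/
def cQ (a : ℕ → R) : ℕ → R
  | 0 => 0
  | 1 => 1
  | (j + 2) => a (j + 1) * cQ a (j + 1) + cQ a j

/-- the other fundamental solution -/
def cR (a : ℕ → R) : ℕ → R
  | 0 => 1
  | 1 => 0
  | (j + 2) => a (j + 1) * cR a (j + 1) + cR a j

lemma fund (a : ℕ → R) (y : ℕ → R) (hy : ∀ j, y (j + 2) = a (j + 1) * y (j + 1) + y j) (j : ℕ) :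
    y j = cQ a j * y 1 + cR a j * y 0 ∧ y (j + 1) = cQ a (j + 1) * y 1 + cR a (j + 1) * y 0 := by
  induction j with
  | zero => constructor <;> simp [cQ, cR]
  | succ j ih =>
    refine ⟨ih.2, ?_⟩
    rw [hy j, ih.1, ih.2]
    simp only [cQ, cR]
    ring

lemma det (a : ℕ → R) (s : ℕ) : cP a s * cQ a (s + 1) - cP a (s + 1) * cQ a s = (-1) ^ s := by
  induction s with
  | zero => simp [cP, cQ]
  | succ s ih =>
    have h1 : cP a (s + 1 + 1) = a (s + 1) * cP a (s + 1) + cP a s := rfl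
    have h2 : cQ a (s + 1 + 1) = a (s + 1) * cQ a (s + 1) + cQ a s := rfl
    rw [h1, h2, pow_succ, ← ih]
    ring

lemma cP_shift (a : ℕ → R) (s j : ℕ) :
    cP a (s + j) = cQ (fun i => a (s + i)) j * cP a (s + 1) + cR (fun i => a (s + i)) j * cP a s :=
  (fund (fun i => a (s + i)) (fun j => cP a (s + j)) (fun _ => rfl) j).1

lemma cQ_shift (a : ℕ → R) (s j : ℕ) :
    cQ a (s + j) = cQ (fun i => a (s + i)) j * cQ a (s + 1) + cR (fun i => a (s + i)) j * cQ a s :=
  (fund (fun i => a (s + i)) (fun j => cQ a (s + j)) (fun _ => rfl) j).1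

lemma det_shift (a : ℕ → R) (s j : ℕ) :
    cP a s * cQ a (s + j) - cP a (s + j) * cQ a s = (-1) ^ s * cQ (fun i => a (s + i)) j := by
  rw [cP_shift, cQ_shift, ← det a s]
  ring

lemma det_two (a : ℕ → R) (i : ℕ) :
    cP a (i + 2) * cQ a i - cP a i * cQ a (i + 2) = -(-1) ^ i * a (i + 1) := by
  have h1 : cP a (i + 2) = a (i + 1) * cP a (i + 1) + cP a i := rfl
  have h2 : cQ a (i + 2) = a (i + 1) * cQ a (i + 1) + cQ a i := rfl
  rw [h1, h2, ← det a i]
  ring

lemma map_cP {R' : Type*} [CommRing R'] (f : R →+* R') (a : ℕ → R) (j : ℕ) :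
    f (cP a j) = cP (fun i => f (a i)) j ∧ f (cP a (j + 1)) = cP (fun i => f (a i)) (j + 1) := by
  induction j with
  | zero => constructor <;> simp [cP]
  | succ j ih =>
    refine ⟨ih.2, ?_⟩
    simp only [cP, map_add, map_mul]
    rw [ih.1, ih.2]

lemma map_cQ {R' : Type*} [CommRing R'] (f : R →+* R') (a : ℕ → R) (j : ℕ) :
    f (cQ a j) = cQ (fun i => f (a i)) j ∧ f (cQ a (j + 1)) = cQ (fun i => f (a i)) (j + 1) := by
  induction j with
  | zero => constructor <;> simp [cQ]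
  | succ j ih =>
    refine ⟨ih.2, ?_⟩
    simp only [cQ, map_add, map_mul]
    rw [ih.1, ih.2]

lemma cP_congr {a b : ℕ → R} {j : ℕ} : ∀ (_ : ∀ i < j, a i = b i), cP a j = cP b j := by
  induction j using Nat.twoStepInduction with
  | zero => intro _; rfl
  | one => intro h; exact h 0 one_pos
  | more j ih1 ih2 =>
    intro h
    simp only [cP]
    rw [ih1 fun i hi => h i (by omega), ih2 fun i hi => h i (by omega), h (j + 1) (by omega)]

lemma cQ_congr {a b : ℕ → R} {j : ℕ} : ∀ (_ : ∀ i < j, a i = b i), cQ a j = cQ b j := by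
  induction j using Nat.twoStepInduction with
  | zero => intro _; rfl
  | one => intro h; rfl
  | more j ih1 ih2 =>
    intro h
    simp only [cQ]
    rw [ih1 fun i hi => h i (by omega), ih2 fun i hi => h i (by omega), h (j + 1) (by omega)]

end

section
variable {a : ℕ → ℤ} {m : ℕ}

lemma cR_nonneg (ha : ∀ i, 1 ≤ i → i ≤ m → 1 ≤ a i) :
    ∀ j, j ≤ m + 1 → 0 ≤ cR a j := by
  intro j
  induction j using Nat.twoStepInduction with
  | zero => intro _; simp [cR]
  | one => intro _; simp [cR]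
  | more j ih1 ih2 =>
    intro h
    simp only [cR]
    have h1 := ih1 (by omega)
    have h2 := ih2 (by omega)
    have h3 := ha (j + 1) (by omega) (by omega)
    nlinarith

lemma cQ_pos (ha : ∀ i, 1 ≤ i → i ≤ m → 1 ≤ a i) :
    ∀ j, j ≤ m → 1 ≤ cQ a (j + 1) ∧ 0 ≤ cQ a j := by
  intro j
  induction j with
  | zero => intro _; simp [cQ]
  | succ j ih =>
    intro h
    obtain ⟨h1, h2⟩ := ih (by omega)
    have h3 := ha (j + 1) (by omega) (by omega)
    refine ⟨?_, by linarith⟩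
    simp only [cQ]
    nlinarith

lemma cQ_mono (ha : ∀ i, 1 ≤ i → i ≤ m → 1 ≤ a i) {j : ℕ} (hj1 : 1 ≤ j) (hj : j ≤ m) :
    a j * cQ a j ≤ cQ a (j + 1) := by
  obtain ⟨i, rfl⟩ : ∃ i, j = i + 1 := ⟨j - 1, by omega⟩
  have h1 := (cQ_pos ha i (by omega)).2
  change _ ≤ a (i + 1) * cQ a (i + 1) + cQ a i
  linarith

lemma cQ_le (ha : ∀ i, 1 ≤ i → i ≤ m → 1 ≤ a i) {i j : ℕ} (hij : i ≤ j) (hj : j ≤ m + 1) :
    cQ a i ≤ cQ a j := by
  induction j with
  | zero =>
    obtain rfl : i = 0 := by omega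
    exact le_rfl
  | succ j ih =>
    rcases Nat.lt_or_ge i (j + 1) with h | h
    · have h1 := ih (by omega) (by omega)
      refine h1.trans ?_
      rcases Nat.eq_zero_or_pos j with h2 | h2
      · rw [h2]
        simp [cQ]
      · have h3 := cQ_mono ha h2 (by omega)
        have h4 := ha j h2 (by omega)
        have h5 : 0 ≤ cQ a j := (cQ_pos ha j (by omega)).2
        nlinarith
    · obtain rfl : i = j + 1 := by omega
      exact le_rfl

lemma le_cQ (ha : ∀ i, 1 ≤ i → i ≤ m → 1 ≤ a i) {i j : ℕ} (hi : 1 ≤ i) (hij : i < j)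
    (hj : j ≤ m + 1) : a i ≤ cQ a j := by
  refine le_trans ?_ (cQ_le ha (show i + 1 ≤ j by omega) hj)
  refine le_trans ?_ (cQ_mono ha hi (by omega))
  obtain ⟨k, rfl⟩ : ∃ k, i = k + 1 := ⟨i - 1, by omega⟩
  have h1 := (cQ_pos ha k (by omega)).1
  have h2 := ha (k + 1) (by omega) (by omega)
  nlinarith

end

section
variable {σ : Type} [Fintype σ] [DecidableEq σ]
variable (S : Finset ℕ) (hS : ∀ p ∈ S, p.Prime) {θ : σ → ℝ} (halg : ∀ s, IsAlgebraic ℚ (θ s))
  (hind : LinearIndependent ℚ (fun o : Option σ => (o.elim 1 (fun s => θ s) : ℝ)))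
  {q : ℕ → ℕ} {x : ℕ → σ → ℤ} (H : Tub S θ q x)

/-- sequences given by rational polynomials -/
def Pol (q : ℕ → ℕ) (x : ℕ → σ → ℤ) (f : ℕ → ℤ) : Prop :=
  ∃ A : MvPolynomial (Option σ) ℚ, ∀ᶠ n in (UU : Filter ℕ), (f n : ℚ) = va (q n) (x n) A

lemma Pol.add {f g : ℕ → ℤ} (hf : Pol q x f) (hg : Pol q x g) : Pol q x (fun n => f n + g n) := by
  obtain ⟨A, hA⟩ := hf
  obtain ⟨B, hB⟩ := hg
  refine ⟨A + B, ?_⟩
  filter_upwards [hA, hB] with n h1 h2
  rw [map_add, ← h1, ← h2]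
  push_cast
  rfl

lemma Pol.mul {f g : ℕ → ℤ} (hf : Pol q x f) (hg : Pol q x g) : Pol q x (fun n => f n * g n) := by
  obtain ⟨A, hA⟩ := hf
  obtain ⟨B, hB⟩ := hg
  refine ⟨A * B, ?_⟩
  filter_upwards [hA, hB] with n h1 h2
  rw [map_mul, ← h1, ← h2]
  push_cast
  rfl

lemma Pol.const (c : ℤ) : Pol q x (fun _ => c) := by
  refine ⟨C (c : ℚ), Eventually.of_forall fun n => ?_⟩
  unfold va
  rw [aeval_C]
  rfl

lemma Pol.congr {f g : ℕ → ℤ} (hf : Pol q x f) (h : ∀ᶠ n in (UU : Filter ℕ), g n = f n) : Pol q x g := by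
  obtain ⟨A, hA⟩ := hf
  refine ⟨A, ?_⟩
  filter_upwards [hA, h] with n h1 h2
  rw [h2, h1]

/-- division by a nonzero constant -/
lemma Pol.div {f g : ℕ → ℤ} {c : ℤ} (hc : c ≠ 0) (hf : Pol q x f)
    (h : ∀ᶠ n in (UU : Filter ℕ), c * g n = f n) : Pol q x g := by
  obtain ⟨A, hA⟩ := hf
  have hc' : (c : ℚ) ≠ 0 := by exact_mod_cast hc
  refine ⟨C (1 / (c : ℚ)) * A, ?_⟩
  filter_upwards [hA, h] with n h1 h2
  rw [map_mul, ← h1, ← h2]
  unfold va
  rw [aeval_C]
  push_cast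
  change (g n : ℚ) = 1 / c * (c * g n)
  field_simp

omit [Fintype σ] [DecidableEq σ] in
/-- dichotomy for the size -/
lemma small_or_big {q : ℕ → ℕ} (f : ℕ → ℤ) : (Sm q 0 (fun n => (f n : ℂ))) ∨
    ∃ δ : ℝ, 0 < δ ∧ ∀ᶠ n in (UU : Filter ℕ), (q n : ℝ) ^ δ ≤ |(f n : ℝ)| := by
  by_cases h : Sm q 0 (fun n => (f n : ℂ))
  · exact Or.inl h
  · right
    unfold Sm at h
    push Not at h
    obtain ⟨ε, hε, h1⟩ := h
    refine ⟨ε, hε, ?_⟩
    filter_upwards [h1] with n hn
    rw [Complex.norm_intCast, zero_add] at hn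
    exact hn.le

lemma Sm.int {f : ℕ → ℤ} (hf : Sm q 0 (fun n => (f n : ℂ))) (ε : ℝ) (hε : 0 < ε) :
    ∀ᶠ n in (UU : Filter ℕ), |(f n : ℝ)| ≤ (q n : ℝ) ^ ε := by
  filter_upwards [hf ε hε] with n hn
  rw [Complex.norm_intCast, zero_add] at hn
  exact hn

include H in
/-- continuants of small numbers are small -/
lemma cQ_small (b : ℕ → ℕ → ℤ) (t : ℕ) (hb : ∀ i, 1 ≤ i → i < t → Sm q 0 (fun n => (b n i : ℂ))) :
    ∀ j, j ≤ t → Sm q 0 (fun n => ((cQ (b n) j : ℤ) : ℂ)) := by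
  intro j
  induction j using Nat.twoStepInduction with
  | zero => intro _; simpa [cQ] using Sm.zero H.big 0
  | one => intro _; simpa [cQ] using Sm.const H.big 1
  | more j ih1 ih2 =>
    intro h
    have h1 := ih1 (by omega)
    have h2 := ih2 (by omega)
    have h3 := Sm.mul H.big (hb (j + 1) (by omega) (by omega)) h2
    rw [add_zero] at h3
    refine (Sm.add H.big h3 h1).congr (Eventually.of_forall fun n => ?_)
    simp only [cQ]
    push_cast
    rfl

include hS halg hind H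

/-- integers of the form (integral polynomial)/(small) whose determinant with polynomials is small -/
lemma step (a : ℕ → ℕ → ℤ) (m : ℕ) (ha : ∀ n i, 1 ≤ i → i ≤ m → 1 ≤ a n i) (s t : ℕ) (hst : s < t)
    (htm : t ≤ m + 1) (hsm : ∀ i, s < i → i < t → Sm q 0 (fun n => (a n i : ℂ)))
    (hP : Pol q x (fun n => cP (a n) s)) (hQ : Pol q x (fun n => cQ (a n) s))
    (A B : MvPolynomial (Option σ) ℤ) (e : ℕ → ℤ) (he0 : ∀ᶠ n in (UU : Filter ℕ), e n ≠ 0)
    (hes : Sm q 0 (fun n => (e n : ℂ)))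
    (hA : ∀ᶠ n in (UU : Filter ℕ), e n * cP (a n) t = eval (px (q n) (x n)) A)
    (hB : ∀ᶠ n in (UU : Filter ℕ), e n * cQ (a n) t = eval (px (q n) (x n)) B) :
    ∀ i, s ≤ i → i ≤ t → Pol q x (fun n => cP (a n) i) ∧ Pol q x (fun n => cQ (a n) i) := by
  classical
  obtain ⟨j, rfl⟩ : ∃ j, t = s + j := ⟨t - s, by omega⟩
  have hj : 1 ≤ j := by omega
  set b : ℕ → ℕ → ℤ := fun n i => a n (s + i) with hb
  set k : ℕ → ℤ := fun n => cQ (b n) j with hk
  have hbs : ∀ i, 1 ≤ i → i < j → Sm q 0 (fun n => (b n i : ℂ)) := fun i h1 h2 =>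
    hsm (s + i) (by omega) (by omega)
  have hb1 : ∀ n i, 1 ≤ i → i ≤ j - 1 → 1 ≤ b n i := fun n i h1 h2 => ha n (s + i) (by omega) (by omega)
  have hks : Sm q 0 (fun n => (k n : ℂ)) := cQ_small S H b j hbs j le_rfl
  have hk1 : ∀ n, 1 ≤ k n := by
    intro n
    have := (cQ_pos (hb1 n) (j - 1) le_rfl).1
    have e1 : j - 1 + 1 = j := by omega
    rw [e1] at this
    exact this
  obtain ⟨P0, hP0⟩ := hP
  obtain ⟨Q0, hQ0⟩ := hQ
  -- the determinant
  set R0 : MvPolynomial (Option σ) ℚ := P0 * map (Int.castRingHom ℚ) B - map (Int.castRingHom ℚ) A * Q0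
    with hR0
  have hdet : ∀ᶠ n in (UU : Filter ℕ), va (q n) (x n) R0 * ((1 : ℤ) : ℚ)
      = (((-1) ^ s * (e n * k n) : ℤ) : ℚ) := by
    filter_upwards [hP0, hQ0, hA, hB] with n h1 h2 h3 h4
    rw [hR0, map_sub, map_mul, map_mul, map_px, map_px, ← h1, ← h2, ← h3, ← h4]
    have h5 := det_shift (a n) s j
    have h6 : (((cP (a n) s * cQ (a n) (s + j) - cP (a n) (s + j) * cQ (a n) s : ℤ)) : ℚ)
        = (((-1) ^ s * k n : ℤ) : ℚ) := by rw [h5]
    push_cast at h6 ⊢
    linear_combination (e n : ℚ) * h6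
  have hsmall : ∀ ε : ℝ, 0 < ε → ∀ᶠ n in (UU : Filter ℕ),
      |((((-1) ^ s * (e n * k n) : ℤ)) : ℝ)| ≤ (q n : ℝ) ^ ε := by
    intro ε hε
    have h1 := Sm.mul H.big hes hks
    rw [add_zero] at h1
    have h2 : Sm q 0 (fun n => ((e n * k n : ℤ) : ℂ)) := h1.congr (Eventually.of_forall fun n => by push_cast; rfl)
    filter_upwards [h2.int ε hε] with n hn
    rw [Int.cast_mul, abs_mul]
    have h3 : |(((-1) ^ s : ℤ) : ℝ)| = 1 := by
      push_cast
      rw [abs_pow, abs_neg, abs_one, one_pow]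
    rw [h3, one_mul]
    exact hn
  obtain ⟨hR, hRv⟩ := small_constT S hS halg hind H R0 (fun n => (-1) ^ s * (e n * k n)) (fun _ => 1)
    (Eventually.of_forall fun _ => one_ne_zero) hdet hsmall (fun ε hε => by
      simpa using big_ev H.big 1 hε)
  set r : ℚ := constantCoeff R0 with hr
  -- boundedness
  have hek : ∀ᶠ n in (UU : Filter ℕ), |e n| ≤ ⌈|r|⌉ ∧ |k n| ≤ ⌈|r|⌉ := by
    filter_upwards [hRv, he0] with n h1 h2
    have h3 : |r| = |(e n : ℚ)| * |(k n : ℚ)| := by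
      have h4 : r = (-1) ^ s * ((e n : ℚ) * k n) := by
        have := h1
        push_cast at this
        rw [mul_one] at this
        exact this
      rw [h4, abs_mul, abs_pow, abs_neg, abs_one, one_pow, one_mul, abs_mul]
    have h4 : (1 : ℚ) ≤ |(k n : ℚ)| := by
      have := hk1 n
      rw [← Int.cast_abs]
      exact_mod_cast (by rw [abs_of_pos (by linarith)]; exact this : 1 ≤ |k n|)
    have h5 : (1 : ℚ) ≤ |(e n : ℚ)| := by
      rw [← Int.cast_abs]
      exact_mod_cast Int.one_le_abs h2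
    have h6 := Int.le_ceil |r|
    constructor
    · have h7 : ((|e n| : ℤ) : ℚ) ≤ ((⌈|r|⌉ : ℤ) : ℚ) := by
        rw [Int.cast_abs]
        refine le_trans ?_ h6
        rw [h3]
        nlinarith
      exact_mod_cast h7
    · have h7 : ((|k n| : ℤ) : ℚ) ≤ ((⌈|r|⌉ : ℤ) : ℚ) := by
        rw [Int.cast_abs]
        refine le_trans ?_ h6
        rw [h3]
        nlinarith
      exact_mod_cast h7
  obtain ⟨e0, he0'⟩ := const_seq e ⌈|r|⌉ (hek.mono fun n hn => hn.1)
  obtain ⟨k0, hk0⟩ := const_seq k ⌈|r|⌉ (hek.mono fun n hn => hn.2)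
  have he00 : e0 ≠ 0 := by
    obtain ⟨n, h1, h2⟩ := (he0'.and he0).exists
    rw [← h1]
    exact h2
  have hk00 : k0 ≠ 0 := by
    obtain ⟨n, h1⟩ := hk0.exists
    have := hk1 n
    omega
  -- the partial quotients in between are constant
  have hbc : ∀ i, 1 ≤ i → i < j → ∃ c : ℤ, ∀ᶠ n in (UU : Filter ℕ), b n i = c := by
    intro i h1 h2
    apply const_seq _ k0
    filter_upwards [hk0] with n hn
    have h3 := le_cQ (m := j - 1) (hb1 n) h1 h2 (by omega)
    have h4 := hb1 n i h1 (by omega)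
    rw [abs_of_pos (by linarith)]
    rw [← hn]
    exact h3
  have hbP : ∀ i, 1 ≤ i → i < j → Pol q x (fun n => b n i) := by
    intro i h1 h2
    obtain ⟨c, hc⟩ := hbc i h1 h2
    exact (Pol.const c).congr hc
  have hcRP : ∀ i, i ≤ j → Pol q x (fun n => cR (b n) i) := by
    intro i
    induction i using Nat.twoStepInduction with
    | zero => intro _; exact Pol.const 1
    | one => intro _; exact Pol.const 0
    | more i ih1 ih2 =>
      intro h
      simp only [cR]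
      exact ((hbP (i + 1) (by omega) (by omega)).mul (ih2 (by omega))).add (ih1 (by omega))
  have hPt : Pol q x (fun n => cP (a n) (s + j)) := by
    refine Pol.div he00 ⟨map (Int.castRingHom ℚ) A, ?_⟩ (f := fun n => eval (px (q n) (x n)) A) ?_
    · exact Eventually.of_forall fun n => (map_px A (q n) (x n)).symm
    · filter_upwards [hA, he0'] with n h1 h2
      rw [← h2, h1]
  have hQt : Pol q x (fun n => cQ (a n) (s + j)) := by
    refine Pol.div he00 ⟨map (Int.castRingHom ℚ) B, ?_⟩ (f := fun n => eval (px (q n) (x n)) B) ?_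
    · exact Eventually.of_forall fun n => (map_px B (q n) (x n)).symm
    · filter_upwards [hB, he0'] with n h1 h2
      rw [← h2, h1]
  have hPs : Pol q x (fun n => cP (a n) s) := ⟨P0, hP0⟩
  have hQs : Pol q x (fun n => cQ (a n) s) := ⟨Q0, hQ0⟩
  have hPs1 : Pol q x (fun n => cP (a n) (s + 1)) := by
    refine Pol.div hk00 (f := fun n => cP (a n) (s + j) + (-1) * (cR (b n) j * cP (a n) s))
      (hPt.add ((Pol.const (-1)).mul ((hcRP j le_rfl).mul hPs))) ?_
    filter_upwards [hk0] with n hn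
    rw [cP_shift (a n) s j, ← hn]
    ring
  have hQs1 : Pol q x (fun n => cQ (a n) (s + 1)) := by
    refine Pol.div hk00 (f := fun n => cQ (a n) (s + j) + (-1) * (cR (b n) j * cQ (a n) s))
      (hQt.add ((Pol.const (-1)).mul ((hcRP j le_rfl).mul hQs))) ?_
    filter_upwards [hk0] with n hn
    rw [cQ_shift (a n) s j, ← hn]
    ring
  have hall : ∀ i, i + 1 ≤ j → (Pol q x (fun n => cP (a n) (s + i)) ∧ Pol q x (fun n => cQ (a n) (s + i))) ∧
      (Pol q x (fun n => cP (a n) (s + i + 1)) ∧ Pol q x (fun n => cQ (a n) (s + i + 1))) := by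
    intro i
    induction i with
    | zero => intro _; exact ⟨⟨hPs, hQs⟩, ⟨hPs1, hQs1⟩⟩
    | succ i ih =>
      intro h
      obtain ⟨⟨h1, h2⟩, ⟨h3, h4⟩⟩ := ih (by omega)
      refine ⟨⟨h3, h4⟩, ?_, ?_⟩
      · exact ((hbP (i + 1) (by omega) (by omega)).mul h3).add h1
      · exact ((hbP (i + 1) (by omega) (by omega)).mul h4).add h2
  intro i h1 h2
  obtain ⟨i', rfl⟩ : ∃ i', i = s + i' := ⟨i - s, by omega⟩
  rcases Nat.lt_or_ge i' j with h3 | h3
  · exact (hall i' (by omega)).1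
  · obtain rfl : i' = j := by omega
    exact ⟨hPt, hQt⟩

end

end Pool.Agent.Q4.Tube
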