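import Mathlib
import Pool.Agent.Q4.Tube.Cf

set_option autoImplicit false
set_option linter.unusedSectionVars false

/-!
# Continued fractions of quotients at integral points near a ray, II
-/

namespace Pool.Agent.Q4.Tube

open Filter Topology Pool.Agent.TH932.Abs Pool.Agent.TH932.Germs Pool.Agent.TH932.Chi
open Pool.Agent.TH796.AL Pool.Agent.Q4.Blk Pool.Agent.Q4.Gcd Pool.Agent.Q4.Cov Module MvPolynomial

section
variable {σ : Type} [Fintype σ] [DecidableEq σ]
variable (S : Finset ℕ) (hS : ∀ p ∈ S, p.Prime) {θ : σ → ℝ} (halg : ∀ s, IsAlgebraic ℚ (θ s))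
  (hind : LinearIndependent ℚ (fun o : Option σ => (o.elim 1 (fun s => θ s) : ℝ)))
  {q : ℕ → ℕ} {x : ℕ → σ → ℤ} (H : Tub S θ q x)

include H in
lemma sm_px (i : Option σ) : Sm q 1 (fun n => ((px (q n) (x n) i : ℤ) : ℂ)) := by
  cases i with
  | none => exact (Sm.q1 H.big).congr (Eventually.of_forall fun n => by simp [px])
  | some s =>
    have h1 := Sm.mul H.big (Sm.const H.big ((θ s : ℝ) : ℂ)) (Sm.q1 H.big)
    rw [zero_add] at h1
    refine (Sm.sub H.big h1 ((sm_fr H s).mono H.big zero_le_one)).congr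
      (Eventually.of_forall fun n => ?_)
    simp only [px, fr, Option.elim]
    push_cast
    ring

include H in
/-- polynomials have polynomial growth -/
lemma poly_le (R : MvPolynomial (Option σ) ℤ) :
    ∃ K : ℕ, ∀ᶠ n in (UU : Filter ℕ), |eval (px (q n) (x n)) R| ≤ (q n : ℤ) ^ K := by
  classical
  have h1 : ∃ K : ℕ, Sm q K (fun n => ((eval (px (q n) (x n)) R : ℤ) : ℂ)) := by
    refine ⟨R.totalDegree, ?_⟩
    have h2 := Sm.sum H.big R.support (e := R.totalDegree)
      (fun α n => ((R.coeff α : ℤ) : ℂ) * ∏ i, ((px (q n) (x n) i : ℤ) : ℂ) ^ (α i)) (by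
      intro α hα
      have h3 : ∀ s : Finset (Option σ), Sm q (∑ i ∈ s, (α i : ℝ))
          (fun n => ∏ i ∈ s, ((px (q n) (x n) i : ℤ) : ℂ) ^ (α i)) := by
        intro s
        induction s using Finset.induction_on with
        | empty => simpa using Sm.const H.big 1
        | insert i s hi ih =>
          simp only [Finset.prod_insert hi, Finset.sum_insert hi]
          have h4 := Sm.pow H.big (sm_px S H i) (α i)
          rw [mul_one] at h4
          exact Sm.mul H.big h4 ih
      have h4 := Sm.mul H.big (Sm.const H.big ((R.coeff α : ℤ) : ℂ)) (h3 Finset.univ)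
      rw [zero_add] at h4
      refine h4.mono H.big ?_
      have h5 := le_totalDegree hα
      rw [Finsupp.sum_fintype _ _ (fun _ => rfl)] at h5
      exact_mod_cast h5)
    refine h2.congr (Eventually.of_forall fun n => ?_)
    rw [eval_eq']
    push_cast
    rfl
  obtain ⟨K, hK⟩ := h1
  refine ⟨K + 1, ?_⟩
  filter_upwards [hK 1 one_pos] with n hn
  rw [Complex.norm_intCast] at hn
  have h2 : ((|eval (px (q n) (x n)) R| : ℤ) : ℝ) ≤ (((q n : ℤ) ^ (K + 1) : ℤ) : ℝ) := by
    push_cast
    refine hn.trans (le_of_eq ?_)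
    rw [← Real.rpow_natCast]
    push_cast
    rfl
  exact_mod_cast h2

section
variable {F G : MvPolynomial (Option σ) ℤ} {D d : ℕ}

/-- the linear polynomial -/
noncomputable def lin (F G : MvPolynomial (Option σ) ℤ) : Polynomial (MvPolynomial (Option σ) ℤ) :=
  Polynomial.C G * Polynomial.X + Polynomial.C (-F)

lemma lin_deg (hG : G ≠ 0) : (lin F G).natDegree = 1 := Polynomial.natDegree_linear hG

lemma lin_lc (hG : G ≠ 0) : (lin F G).leadingCoeff = G := Polynomial.leadingCoeff_linear hG

lemma topv_ne {R : Type*} [CommRing R] {t : σ → R} (hG : topv d G t ≠ 0) : G ≠ 0 := by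
  rintro rfl
  apply hG
  unfold topv
  simp

lemma lin_hdeg (hG : G ≠ 0) (hFd : F.totalDegree ≤ D + d) (hGd : G.totalDegree ≤ d) (i : ℕ) :
    ((lin F G).coeff i).totalDegree ≤ ((lin F G).natDegree - i) * D + d := by
  rw [lin_deg hG]
  rcases i with _ | _ | i
  · have : (lin F G).coeff 0 = -F := by simp [lin]
    rw [this, totalDegree_neg]
    omega
  · have : (lin F G).coeff 1 = G := by
      simp [lin, Polynomial.coeff_C]
    rw [this]
    omega
  · have : (lin F G).coeff (i + 1 + 1) = 0 := by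
      apply Polynomial.coeff_eq_zero_of_natDegree_lt
      rw [lin_deg hG]
      omega
    rw [this, totalDegree_zero]
    omega

lemma lin_sep (hG : topv d G θ ≠ 0) : (pnf (lin F G) D d θ).Separable := by
  have hG0 := topv_ne hG
  have h1 : pnf (lin F G) D d θ = Polynomial.C (topv d G θ) * Polynomial.X
      + Polynomial.C (topv (D + d) (-F) θ) := by
    unfold pnf
    rw [lin_deg hG0, Finset.sum_range_succ, Finset.sum_range_one]
    have e0 : (lin F G).coeff 0 = -F := by simp [lin]
    have e1 : (lin F G).coeff 1 = G := by simp [lin, Polynomial.coeff_C]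
    rw [e0, e1, Nat.sub_self, Nat.sub_zero, zero_mul, zero_add, one_mul, pow_zero, mul_one, pow_one]
    ring
  rw [h1, Polynomial.separable_def]
  have h2 : (Polynomial.C (topv d G θ) * Polynomial.X
      + Polynomial.C (topv (D + d) (-F) θ)).derivative = Polynomial.C (topv d G θ) := by
    simp
  rw [h2]
  refine ⟨0, Polynomial.C (topv d G θ)⁻¹, ?_⟩
  rw [zero_mul, zero_add, ← Polynomial.C_mul, inv_mul_cancel₀ hG, Polynomial.C_1]

lemma lin_root (y : Option σ → ℤ) (hy : eval y G ≠ 0) (q : ℕ) (x : σ → ℤ) (h : y = px q x) :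
    ((lin F G).map (evx q x ℂ)).eval ((eval y F : ℂ) / (eval y G : ℤ)) = 0 := by
  subst h
  have h1 : ((eval (px q x) G : ℤ) : ℂ) ≠ 0 := by exact_mod_cast hy
  unfold lin evx
  simp only [Polynomial.map_add, Polynomial.map_mul, Polynomial.map_C, Polynomial.map_X,
    Polynomial.eval_add, Polynomial.eval_mul, Polynomial.eval_C, Polynomial.eval_X,
    RingHom.comp_apply, map_neg, Polynomial.map_neg, Polynomial.eval_neg]
  simp only [eq_intCast]
  field_simp
  ring

end

include hS halg hind H

/-- from a proportional pair of polynomials to the hypotheses of `step` -/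
lemma coprime_rep [Nonempty σ] (A B : MvPolynomial (Option σ) ℚ) (hB : B ≠ 0) (u v : ℕ → ℤ)
    (hv : ∀ᶠ n in (UU : Filter ℕ), v n ≠ 0)
    (hc : ∀ᶠ n in (UU : Filter ℕ), IsCoprime (u n) (v n))
    (h : ∀ᶠ n in (UU : Filter ℕ), (u n : ℚ) * va (q n) (x n) B = v n * va (q n) (x n) A) :
    ∃ (A' B' : MvPolynomial (Option σ) ℤ) (e : ℕ → ℤ), (∀ᶠ n in (UU : Filter ℕ), e n ≠ 0) ∧
      Sm q 0 (fun n => (e n : ℂ)) ∧
      (∀ᶠ n in (UU : Filter ℕ), e n * u n = eval (px (q n) (x n)) A') ∧
      (∀ᶠ n in (UU : Filter ℕ), e n * v n = eval (px (q n) (x n)) B') := by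
  obtain ⟨A', B', e, m, -, -, h1, h2⟩ := prim_rep S hS halg hind H A B hB u v hv h
  have hm : ∀ᶠ n in (UU : Filter ℕ), m n * m n = 1 := by
    filter_upwards [h1, hc] with n hn hn'
    obtain ⟨-, -, -, -, h3, h4⟩ := hn
    have h5 : IsUnit (m n) := hn'.isUnit_of_dvd' h3 h4
    rcases Int.isUnit_iff.1 h5 with h6 | h6 <;> rw [h6] <;> norm_num
  refine ⟨A', B', fun n => m n * e n, ?_, ?_, ?_, ?_⟩
  · filter_upwards [h1] with n hn
    exact mul_ne_zero hn.2.1 hn.1
  · intro ε hε
    filter_upwards [h2 ε hε, hm] with n h3 h4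
    rw [Complex.norm_intCast, zero_add, Int.cast_mul, abs_mul]
    have h5 : |(m n : ℝ)| = 1 := by
      have h6 : (m n : ℝ) * m n = 1 := by exact_mod_cast h4
      have h7 : |(m n : ℝ)| * |(m n : ℝ)| = 1 := by rw [← abs_mul, h6, abs_one]
      nlinarith [abs_nonneg (m n : ℝ)]
    rw [h5, one_mul]
    exact h3
  · filter_upwards [h1, hm] with n hn h3
    obtain ⟨-, -, h4, -, -, -⟩ := hn
    calc m n * e n * u n = m n * (e n * u n) := by ring
      _ = (m n * m n) * eval (px (q n) (x n)) A' := by rw [h4]; ring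
      _ = _ := by rw [h3, one_mul]
  · filter_upwards [h1, hm] with n hn h3
    obtain ⟨-, -, -, h4, -, -⟩ := hn
    calc m n * e n * v n = m n * (e n * v n) := by ring
      _ = (m n * m n) * eval (px (q n) (x n)) B' := by rw [h4]; ring
      _ = _ := by rw [h3, one_mul]

/-- **Continued fractions along a sequence of points near a ray.** -/
theorem cf_seq [Nonempty σ] (F G : MvPolynomial (Option σ) ℤ) (D d : ℕ) (hG : topv d G θ ≠ 0)
    (hGd : G.totalDegree ≤ d) (hFd : F.totalDegree ≤ D + d) (a : ℕ → ℕ → ℤ) (m : ℕ)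
    (ha : ∀ n i, 1 ≤ i → i ≤ m → 1 ≤ a n i)
    (hval : ∀ n, eval (px (q n) (x n)) F * cQ (a n) (m + 1) = eval (px (q n) (x n)) G * cP (a n) (m + 1)) :
    ∀ i ≤ m + 1, Pol q x (fun n => cP (a n) i) ∧ Pol q x (fun n => cQ (a n) i) := by
  classical
  have hG0 : G ≠ 0 := topv_ne hG
  have hGq : map (Int.castRingHom ℚ) G ≠ 0 := by
    intro h
    exact hG0 (map_injective _ Int.cast_injective (by rw [h, map_zero]))
  have hGn : ∀ᶠ n in (UU : Filter ℕ), eval (px (q n) (x n)) G ≠ 0 := by
    filter_upwards [va_ne S hS halg hind H _ hGq] with n hn h0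
    rw [map_px, h0, Int.cast_zero] at hn
    exact hn rfl
  have hqn0 : ∀ n, q n ≠ 0 := px_ne H
  -- positivity and coprimality of the denominators
  have hQ1 : ∀ n j, j ≤ m → 1 ≤ cQ (a n) (j + 1) := fun n j hj => (cQ_pos (ha n) j hj).1
  have hcop : ∀ n j, IsCoprime (cP (a n) j) (cQ (a n) j) := by
    intro n j
    have h1 := det (a n) j
    refine ⟨(-1) ^ j * cQ (a n) (j + 1), -((-1) ^ j * cP (a n) (j + 1)), ?_⟩
    have h2 : ((-1 : ℤ)) ^ j * (-1) ^ j = 1 := by rw [← mul_pow]; norm_num
    linear_combination ((-1 : ℤ)) ^ j * h1 + h2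
  -- the denominators have polynomial size
  obtain ⟨K, hK⟩ := poly_le S H G
  have hQK : ∀ᶠ n in (UU : Filter ℕ), ∀ j ≤ m + 1, cQ (a n) j ≤ (q n : ℤ) ^ K := by
    filter_upwards [hK, hGn] with n h1 h2 j hj
    refine (cQ_le (ha n) hj le_rfl).trans ?_
    have h3 : cQ (a n) (m + 1) ∣ eval (px (q n) (x n)) G := by
      apply (hcop n (m + 1)).symm.dvd_of_dvd_mul_right
      exact ⟨eval (px (q n) (x n)) F, by rw [← hval n]; ring⟩
    have h4 := Int.le_of_dvd (abs_pos.2 h2) ((dvd_abs _ _).2 h3)
    exact h4.trans h1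
  -- special indices
  have hspec : ∀ t, 1 ≤ t → t ≤ m + 1 → (t ≤ m → ¬ Sm q 0 (fun n => (a n t : ℂ))) →
      ∃ (A' B' : MvPolynomial (Option σ) ℤ) (e : ℕ → ℤ), (∀ᶠ n in (UU : Filter ℕ), e n ≠ 0) ∧
      Sm q 0 (fun n => (e n : ℂ)) ∧
      (∀ᶠ n in (UU : Filter ℕ), e n * cP (a n) t = eval (px (q n) (x n)) A') ∧
      (∀ᶠ n in (UU : Filter ℕ), e n * cQ (a n) t = eval (px (q n) (x n)) B') := by
    intro t ht1 ht hbig
    obtain ⟨t', rfl⟩ : ∃ t', t = t' + 1 := ⟨t - 1, by omega⟩
    have hvt : ∀ n, 1 ≤ cQ (a n) (t' + 1) := fun n => hQ1 n t' (by omega)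
    rcases Nat.lt_or_ge m (t' + 1) with h | h
    · obtain rfl : t' = m := by omega
      apply coprime_rep S hS halg hind H (map (Int.castRingHom ℚ) F) (map (Int.castRingHom ℚ) G) hGq
        _ _ (Eventually.of_forall fun n => by have := hvt n; omega)
        (Eventually.of_forall fun n => hcop n _)
      refine Eventually.of_forall fun n => ?_
      rw [map_px, map_px]
      have h1 := hval n
      have h2 : ((eval (px (q n) (x n)) F * cQ (a n) (t' + 1) : ℤ) : ℚ)
          = ((eval (px (q n) (x n)) G * cP (a n) (t' + 1) : ℤ) : ℚ) := by rw [h1]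
      push_cast at h2
      linear_combination -h2
    · -- a convergent followed by a large partial quotient
      obtain ⟨δ, hδ, hδa⟩ := (small_or_big (q := q) (fun n => a n (t' + 1))).resolve_left (hbig h)
      set ρ : ℕ → ℂ := fun n => ((eval (px (q n) (x n)) F : ℤ) : ℂ) / ((eval (px (q n) (x n)) G : ℤ) : ℂ)
        with hρ
      set v : ℕ → ℕ := fun n => if (cQ (a n) (t' + 1)).natAbs ≤ q n ^ K then
        (cQ (a n) (t' + 1)).natAbs else 1 with hv
      have hv0 : ∀ n, v n ≠ 0 := by
        intro n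
        rw [hv]
        simp only []
        split
        · have := hvt n
          omega
        · exact one_ne_zero
      have hvK : ∀ n, v n ≤ q n ^ K := by
        intro n
        rw [hv]
        simp only []
        split
        · assumption
        · exact Nat.one_le_iff_ne_zero.2 (pow_ne_zero _ (hqn0 n))
      have hve : ∀ᶠ n in (UU : Filter ℕ), (v n : ℤ) = cQ (a n) (t' + 1) := by
        filter_upwards [hQK] with n hn
        have h1 := hn (t' + 1) (by omega)
        have h2 := hvt n
        have h3 : (cQ (a n) (t' + 1)).natAbs ≤ q n ^ K := by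
          zify
          rw [abs_of_pos (by omega)]
          exact h1
        rw [hv]
        simp only []
        rw [if_pos h3]
        omega
      obtain ⟨A, B, hB, hAB⟩ := rothT S hS halg hind H D K δ hδ ρ
        (root_exp H halg (P := lin F G) (D := D) (d := d) (by rw [lin_lc hG0]; exact hG)
          (lin_hdeg hG0 hFd hGd) (lin_sep hG) ρ (by
            filter_upwards [hGn] with n hn
            exact lin_root _ hn (q n) (x n) rfl) (3 * K)) (fun _ => 1) (fun _ => one_ne_zero)
        (fun _ => by simp) (fun n => Nat.one_le_iff_ne_zero.2 (pow_ne_zero _ (hqn0 n))) v hv0 hvK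
        (fun n => cP (a n) (t' + 1)) (by
        filter_upwards [hve, hGn, hδa] with n h1 h2 h3
        have hqp := qpos H.big n
        obtain ⟨j, hj⟩ : ∃ j, m + 1 = (t' + 1) + (j + 1) := ⟨m - t' - 1, by omega⟩
        have h4 := det_shift (a n) (t' + 1) (j + 1)
        rw [← hj] at h4
        have h5 := cQ_shift (a n) (t' + 1) (j + 1)
        rw [← hj] at h5
        have hb1 : ∀ i, 1 ≤ i → i ≤ j → 1 ≤ a n (t' + 1 + i) := fun i hi1 hi2 =>
          ha n _ (by omega) (by omega)
        have hbQ := (cQ_pos hb1 j le_rfl).1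
        have hbR := cR_nonneg hb1 (j + 1) le_rfl
        set cb := cQ (fun i => a n (t' + 1 + i)) (j + 1) with hcb
        have hQm : 1 ≤ cQ (a n) (m + 1) := hQ1 n m le_rfl
        have hQt := hvt n
        have hQt2 : a n (t' + 1) * cQ (a n) (t' + 1) ≤ cQ (a n) (t' + 1 + 1) := cQ_mono (ha n) (by omega) h
        have hat : 1 ≤ a n (t' + 1) := ha n _ (by omega) h
        -- the main inequality in integers
        have h6 : cb * (a n (t' + 1) * cQ (a n) (t' + 1)) ≤ cQ (a n) (m + 1) := by
          have h7 : cb * (a n (t' + 1) * cQ (a n) (t' + 1)) ≤ cb * cQ (a n) (t' + 1 + 1) :=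
            mul_le_mul_of_nonneg_left hQt2 (by linarith)
          have h8 : 0 ≤ cR (fun i => a n (t' + 1 + i)) (j + 1) * cQ (a n) (t' + 1) :=
            mul_nonneg hbR (by linarith)
          rw [h5]
          linarith
        -- the value
        have h7 : ((cQ (a n) (m + 1) : ℤ) : ℂ) * (((v n : ℕ) : ℂ) * ρ n - ((cP (a n) (t' + 1) : ℤ) : ℂ))
            = -((((-1) ^ (t' + 1) * cb : ℤ)) : ℂ) := by
          have h8 : ((eval (px (q n) (x n)) G : ℤ) : ℂ) ≠ 0 := by exact_mod_cast h2
          have h9 : ((v n : ℕ) : ℂ) = ((cQ (a n) (t' + 1) : ℤ) : ℂ) := by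
            rw [← h1]
            push_cast
            rfl
          have h10 : ((cQ (a n) (m + 1) : ℤ) : ℂ) * ρ n = ((cP (a n) (m + 1) : ℤ) : ℂ) := by
            rw [hρ]
            simp only []
            rw [← mul_div_assoc, div_eq_iff h8]
            have := hval n
            have h11 : ((eval (px (q n) (x n)) F * cQ (a n) (m + 1) : ℤ) : ℂ)
                = ((eval (px (q n) (x n)) G * cP (a n) (m + 1) : ℤ) : ℂ) := by rw [this]
            push_cast at h11
            linear_combination h11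
          rw [h9, ← h4]
          push_cast
          linear_combination ((cQ (a n) (t' + 1) : ℤ) : ℂ) * h10
        have h8 := congrArg norm h7
        rw [norm_mul, norm_neg, Complex.norm_intCast, Complex.norm_intCast, Int.cast_mul, abs_mul] at h8
        have h9 : |(((-1) ^ (t' + 1) : ℤ) : ℝ)| = 1 := by
          push_cast
          rw [abs_pow, abs_neg, abs_one, one_pow]
        rw [h9, one_mul] at h8
        have hcb0 : (1 : ℝ) ≤ (cb : ℝ) := by exact_mod_cast hbQ
        have hQm0 : (1 : ℝ) ≤ ((cQ (a n) (m + 1) : ℤ) : ℝ) := by exact_mod_cast hQm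
        rw [abs_of_pos (by linarith : (0 : ℝ) < ((cQ (a n) (m + 1) : ℤ) : ℝ)),
          abs_of_pos (by linarith : (0 : ℝ) < (cb : ℝ))] at h8
        have h10 : (cb : ℝ) * ((a n (t' + 1) : ℝ) * ((cQ (a n) (t' + 1) : ℤ) : ℝ))
            ≤ ((cQ (a n) (m + 1) : ℤ) : ℝ) := by exact_mod_cast h6
        have h11 : ((v n : ℕ) : ℝ) = ((cQ (a n) (t' + 1) : ℤ) : ℝ) := by
          rw [← h1]
          push_cast
          rfl
        have hvp : (0 : ℝ) < ((v n : ℕ) : ℝ) := by exact_mod_cast Nat.pos_of_ne_zero (hv0 n)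
        have hat0 : (1 : ℝ) ≤ (a n (t' + 1) : ℝ) := by exact_mod_cast hat
        have h12 : ((1 : ℕ) : ℂ) * ((v n : ℕ) : ℂ) * ρ n - ((cP (a n) (t' + 1) : ℤ) : ℂ)
            = ((v n : ℕ) : ℂ) * ρ n - ((cP (a n) (t' + 1) : ℤ) : ℂ) := by
          push_cast
          ring
        rw [h12, le_div_iff₀ hvp]
        set X := ‖((v n : ℕ) : ℂ) * ρ n - ((cP (a n) (t' + 1) : ℤ) : ℂ)‖ with hX
        have hX0 : 0 ≤ X := norm_nonneg _
        -- `X * v * a ≤ 1`
        have h13 : X * (v n : ℝ) * (a n (t' + 1) : ℝ) ≤ 1 := by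
          have h14 : ((cQ (a n) (m + 1) : ℤ) : ℝ) * (X * (v n : ℝ) * (a n (t' + 1) : ℝ))
              ≤ ((cQ (a n) (m + 1) : ℤ) : ℝ) * 1 := by
            calc ((cQ (a n) (m + 1) : ℤ) : ℝ) * (X * (v n : ℝ) * (a n (t' + 1) : ℝ))
                = (((cQ (a n) (m + 1) : ℤ) : ℝ) * X) * ((a n (t' + 1) : ℝ) * (v n : ℝ)) := by ring
              _ = (cb : ℝ) * ((a n (t' + 1) : ℝ) * ((cQ (a n) (t' + 1) : ℤ) : ℝ)) := by rw [h8, h11]
              _ ≤ _ := by rw [mul_one]; exact h10
          exact le_of_mul_le_mul_left h14 (by linarith)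
        have h14 : (q n : ℝ) ^ (-δ) * (q n : ℝ) ^ δ = 1 := by
          rw [← Real.rpow_add hqp]
          simp
        have h15 : (q n : ℝ) ^ δ ≤ (a n (t' + 1) : ℝ) := by
          have := h3
          rw [abs_of_pos (by linarith)] at this
          exact this
        have hqδ : (0 : ℝ) < (q n : ℝ) ^ δ := Real.rpow_pos_of_pos hqp _
        have h16 : X * (v n : ℝ) * (q n : ℝ) ^ δ ≤ (q n : ℝ) ^ (-δ) * (q n : ℝ) ^ δ := by
          rw [h14]
          refine le_trans ?_ h13
          exact mul_le_mul_of_nonneg_left h15 (by positivity)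
        exact le_of_mul_le_mul_right h16 hqδ)
      apply coprime_rep S hS halg hind H A B hB _ _ (Eventually.of_forall fun n => by have := hvt n; omega)
        (Eventually.of_forall fun n => hcop n _)
      filter_upwards [hAB, hve] with n h1 h2
      rw [h1]
      have h3 : ((v n : ℕ) : ℚ) = ((cQ (a n) (t' + 1) : ℤ) : ℚ) := by
        rw [← h2]
        push_cast
        rfl
      rw [h3]
      push_cast
      ring
  -- induction over the special indices
  have main : ∀ t, t ≤ m + 1 → (t = 0 ∨ (t ≤ m → ¬ Sm q 0 (fun n => (a n t : ℂ)))) →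
      ∀ i ≤ t, Pol q x (fun n => cP (a n) i) ∧ Pol q x (fun n => cQ (a n) i) := by
    intro t
    induction t using Nat.strong_induction_on with
    | _ t ih =>
      intro htm hsp
      rcases Nat.eq_zero_or_pos t with rfl | ht
      · intro i hi
        obtain rfl : i = 0 := by omega
        exact ⟨Pol.const 1, Pol.const 0⟩
      · -- the previous special index
        set PP : ℕ → Prop := fun s => s = 0 ∨ (s ≤ m → ¬ Sm q 0 (fun n => (a n s : ℂ))) with hPP
        have hne : ((Finset.range t).filter PP).Nonempty :=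
          ⟨0, Finset.mem_filter.2 ⟨Finset.mem_range.2 ht, Or.inl rfl⟩⟩
        set s := ((Finset.range t).filter PP).max' hne with hs
        have hs1 := Finset.mem_filter.1 (Finset.max'_mem _ hne)
        have hst : s < t := Finset.mem_range.1 hs1.1
        have hsmall : ∀ i, s < i → i < t → Sm q 0 (fun n => (a n i : ℂ)) := by
          intro i h1 h2
          by_contra hcon
          have h3 : i ∈ (Finset.range t).filter PP :=
            Finset.mem_filter.2 ⟨Finset.mem_range.2 h2, Or.inr fun _ => hcon⟩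
          have h4 := Finset.le_max' _ _ h3
          omega
        have hprev := ih s hst (by omega) hs1.2
        obtain ⟨A', B', e, he0, hes, hA, hB⟩ := hspec t ht htm (hsp.resolve_left (by omega))
        have hstep := step S hS halg hind H a m ha s t hst htm hsmall (hprev s le_rfl).1
          (hprev s le_rfl).2 A' B' e he0 hes hA hB
        intro i hi
        rcases Nat.lt_or_ge s i with h1 | h1
        · exact hstep i h1.le hi
        · exact hprev i h1
  exact main (m + 1) le_rfl (Or.inr fun h => absurd h (by omega))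

end

end Pool.Agent.Q4.Tube
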