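import Mathlib
import Pool.Agent.Q4.Tube.Cf2

set_option autoImplicit false
set_option linter.unusedSectionVars false

/-!
# Continued fractions of quotients at integral points near a ray, III
-/

namespace Pool.Agent.Q4.Tube

open Filter Topology Pool.Agent.TH932.Abs Pool.Agent.TH932.Germs Pool.Agent.TH932.Chi
open Pool.Agent.TH796.AL Pool.Agent.Q4.Blk Pool.Agent.Q4.Gcd Pool.Agent.Q4.Cov Module MvPolynomial

section
variable {R : Type*} [CommRing R]

/-- numerator and denominator of the continued fraction `[a₀; a₁, …, aₘ]` -/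
def cfl : List R → R × R
  | [] => (1, 0)
  | a :: l => (a * (cfl l).1 + (cfl l).2, (cfl l).1)

lemma front (a : ℕ → R) (j : ℕ) :
    (cQ a (j + 1) = cP (fun i => a (i + 1)) j ∧ cQ a (j + 2) = cP (fun i => a (i + 1)) (j + 1)) ∧
    (cP a (j + 1) = a 0 * cP (fun i => a (i + 1)) j + cQ (fun i => a (i + 1)) j ∧
    cP a (j + 2) = a 0 * cP (fun i => a (i + 1)) (j + 1) + cQ (fun i => a (i + 1)) (j + 1)) := by
  induction j with
  | zero =>
    refine ⟨⟨by simp [cQ, cP], by simp [cQ, cP]⟩, by simp [cQ, cP], ?_⟩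
    simp only [cP, cQ]
    ring
  | succ j ih =>
    obtain ⟨⟨h1, h2⟩, h3, h4⟩ := ih
    refine ⟨⟨h2, ?_⟩, h4, ?_⟩
    · have e1 : cQ a (j + 1 + 2) = a (j + 1 + 1) * cQ a (j + 1 + 1) + cQ a (j + 1) := rfl
      have e2 : cP (fun i => a (i + 1)) (j + 1 + 1) = a (j + 1 + 1) * cP (fun i => a (i + 1)) (j + 1)
        + cP (fun i => a (i + 1)) j := rfl
      rw [e1, e2, ← h1, ← h2]
    · have e1 : cP a (j + 1 + 2) = a (j + 1 + 1) * cP a (j + 1 + 1) + cP a (j + 1) := rfl
      have e2 : cP (fun i => a (i + 1)) (j + 1 + 1) = a (j + 1 + 1) * cP (fun i => a (i + 1)) (j + 1)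
        + cP (fun i => a (i + 1)) j := rfl
      have e3 : cQ (fun i => a (i + 1)) (j + 1 + 1) = a (j + 1 + 1) * cQ (fun i => a (i + 1)) (j + 1)
        + cQ (fun i => a (i + 1)) j := rfl
      rw [e1, e2, e3, h3]
      have h4' : cP a (j + 1 + 1) = a 0 * cP (fun i => a (i + 1)) (j + 1)
        + cQ (fun i => a (i + 1)) (j + 1) := h4
      rw [h4']
      ring

lemma cfl_eq (l : List R) : cfl l = (cP (fun i => l.getD i 0) l.length, cQ (fun i => l.getD i 0) l.length) := by
  induction l with
  | nil => simp [cfl, cP, cQ]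
  | cons b l ih =>
    have h := front (fun i => (b :: l).getD i 0) l.length
    have e : (fun i => (b :: l).getD (i + 1) 0) = fun i => l.getD i 0 := by
      funext i
      simp
    rw [cfl, ih, List.length_cons]
    simp only []
    rw [h.2.1, h.1.1]
    have e' : (fun i => (fun i => (b :: l).getD i 0) (i + 1)) = fun i => l.getD i 0 := e
    rw [e']
    simp

/-- the matrix of a continued fraction is unimodular -/
lemma cfl_det (l : List R) :
    ∃ u v : R, u * (cfl l).1 + v * (cfl l).2 = 1 := by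
  rw [cfl_eq]
  set a : ℕ → R := fun i => l.getD i 0
  have h1 := det a l.length
  refine ⟨(-1) ^ l.length * cQ a (l.length + 1), -((-1) ^ l.length * cP a (l.length + 1)), ?_⟩
  have h2 : ((-1 : R)) ^ l.length * (-1) ^ l.length = 1 := by rw [← mul_pow]; norm_num
  simp only []
  linear_combination ((-1 : R)) ^ l.length * h1 + h2

end

section
variable {σ : Type} [Fintype σ] [DecidableEq σ]

omit [Fintype σ] [DecidableEq σ] in
/-- restriction to a large set of indices -/
lemma Tub.sub {S : Finset ℕ} {θ : σ → ℝ} {q : ℕ → ℕ} {x : ℕ → σ → ℤ} (H : Tub S θ q x)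
    {Q : ℕ → Prop} (hQ : ∀ᶠ n in (UU : Filter ℕ), Q n) :
    ∃ φ : ℕ → ℕ, (∀ n, Q (φ n)) ∧ (∀ᶠ n in (UU : Filter ℕ), φ n = n) ∧
      Tub S θ (fun n => q (φ n)) (fun n => x (φ n)) := by
  classical
  have h1 : ∀ n, ∃ m, n ≤ m ∧ Q m := by
    intro n
    obtain ⟨m, h2, h3⟩ := (hQ.and (ev_of_atTop (Filter.eventually_ge_atTop n))).exists
    exact ⟨m, h3, h2⟩
  choose f hf1 hf2 using h1
  set φ : ℕ → ℕ := fun n => if Q n then n else f n with hφ
  have hφ1 : ∀ n, Q (φ n) := by
    intro n
    rw [hφ]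
    simp only []
    split
    · assumption
    · exact hf2 n
  have hφ2 : ∀ᶠ n in (UU : Filter ℕ), φ n = n := by
    filter_upwards [hQ] with n hn
    rw [hφ]
    simp only []
    rw [if_pos hn]
  have hφ3 : ∀ n, n ≤ φ n := by
    intro n
    rw [hφ]
    simp only []
    split
    · exact le_rfl
    · exact hf1 n
  refine ⟨φ, hφ1, hφ2, ?_⟩
  obtain ⟨u, w, h1, h2, h3⟩ := H.unit
  refine ⟨fun n => ?_, ⟨fun n => u (φ n), fun n => w (φ n), fun n => h1 _, fun n => h2 _,
    fun ε hε => ?_⟩, fun ε hε => ?_⟩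
  · have := H.big (φ n)
    have := hφ3 n
    omega
  · filter_upwards [h3 ε hε, hφ2] with n h4 h5
    rw [h5]
    exact h4
  · filter_upwards [H.near ε hε, hφ2] with n h4 h5
    rw [h5]
    exact h4

lemma map_cfl {R R' : Type*} [CommRing R] [CommRing R'] (f : R →+* R') (l : List R) :
    cfl (l.map f) = (f (cfl l).1, f (cfl l).2) := by
  induction l with
  | nil => simp [cfl]
  | cons b l ih => simp [cfl, ih]

/-- **Continued fractions over all integral points near a ray.** -/
theorem cf_main [Nonempty σ] (S : Finset ℕ) (hS : ∀ p ∈ S, p.Prime) {θ : σ → ℝ}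
    (halg : ∀ s, IsAlgebraic ℚ (θ s))
    (hind : LinearIndependent ℚ (fun o : Option σ => (o.elim 1 (fun s => θ s) : ℝ)))
    (F G : MvPolynomial (Option σ) ℤ) (D d : ℕ) (hG : topv d G θ ≠ 0)
    (hGd : G.totalDegree ≤ d) (hFd : F.totalDegree ≤ D + d) (ℓ : ℕ) :
    ∃ (η : ℝ) (N : ℕ) (A : Finset (List (MvPolynomial (Option σ) ℚ))), 0 < η ∧
      (∀ L ∈ A, L ≠ [] ∧ map (Int.castRingHom ℚ) F * (cfl L).2 = map (Int.castRingHom ℚ) G * (cfl L).1 ∧
        (cfl L).2 ≠ 0) ∧
      ∀ q ≥ N, ∀ x, Near S θ η q x → ∀ l : List ℤ, l ≠ [] → l.length ≤ ℓ → (∀ a ∈ l.tail, 1 ≤ a) →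
        eval (px q x) F * (cfl l).2 = eval (px q x) G * (cfl l).1 →
        ∃ L ∈ A, l.map (Int.cast : ℤ → ℚ) = L.map (va q x) := by
  classical
  obtain ⟨η, N, A, hη, hA⟩ := finite_rep S θ (β := List (MvPolynomial (Option σ) ℚ))
    (Δ := List ℤ)
    (fun q x l => l ≠ [] ∧ l.length ≤ ℓ ∧ (∀ a ∈ l.tail, 1 ≤ a) ∧
      eval (px q x) F * (cfl l).2 = eval (px q x) G * (cfl l).1)
    (fun L q x l => (L ≠ [] ∧ map (Int.castRingHom ℚ) F * (cfl L).2 = map (Int.castRingHom ℚ) G * (cfl L).1
        ∧ (cfl L).2 ≠ 0) ∧ l.map (Int.cast : ℤ → ℚ) = L.map (va q x))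
    (by
      intro q0 x0 l0 H0 hl0
      -- constant length
      obtain ⟨c, hc⟩ := const_seq (fun n => ((l0 n).length : ℤ)) ℓ (Eventually.of_forall fun n => by
        have := (hl0 n).2.1
        rw [abs_of_nonneg (by positivity)]
        exact_mod_cast this)
      obtain ⟨φ, hφ1, hφ2, H⟩ := H0.sub hc
      obtain ⟨m, hm⟩ : ∃ m : ℕ, ∀ n, (l0 (φ n)).length = m + 1 := by
        have h1 := hφ1 0
        have h2 := List.length_pos_iff.2 (hl0 (φ 0)).1
        refine ⟨(l0 (φ 0)).length - 1, fun n => ?_⟩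
        have h3 := hφ1 n
        omega
      set q : ℕ → ℕ := fun n => q0 (φ n) with hq
      set x : ℕ → σ → ℤ := fun n => x0 (φ n) with hx
      set a : ℕ → ℕ → ℤ := fun n i => (l0 (φ n)).getD i 0 with ha
      have ha1 : ∀ n i, 1 ≤ i → i ≤ m → 1 ≤ a n i := by
        intro n i h1 h2
        have h3 := (hl0 (φ n)).2.2.1
        apply h3
        have h4 : i < (l0 (φ n)).length := by rw [hm n]; omega
        rw [ha]
        simp only []
        rw [List.getD_eq_getElem _ _ h4]
        obtain ⟨i', rfl⟩ : ∃ i', i = i' + 1 := ⟨i - 1, by omega⟩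
        rw [List.mem_iff_getElem]
        refine ⟨i', by rw [List.length_tail]; omega, ?_⟩
        rw [List.getElem_tail]
      have hcfl : ∀ n, cfl (l0 (φ n)) = (cP (a n) (m + 1), cQ (a n) (m + 1)) := by
        intro n
        rw [cfl_eq, hm n]
      have hval : ∀ n, eval (px (q n) (x n)) F * cQ (a n) (m + 1)
          = eval (px (q n) (x n)) G * cP (a n) (m + 1) := by
        intro n
        have h1 := (hl0 (φ n)).2.2.2
        rw [hcfl n] at h1
        exact h1
      have hPol := cf_seq S hS halg hind H F G D d hG hGd hFd a m ha1 hval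
      -- the partial quotients
      have hPa : ∀ i ≤ m, Pol q x (fun n => a n i) := by
        intro i hi
        rcases i with _ | i
        · exact (hPol 1 (by omega)).1
        · have h1 := ((hPol (i + 2) (by omega)).1.mul (hPol i (by omega)).2).add
            ((Pol.const (-1)).mul ((hPol i (by omega)).1.mul (hPol (i + 2) (by omega)).2))
          refine Pol.div (c := -(-1) ^ i) (neg_ne_zero.2 (pow_ne_zero _ (by norm_num))) h1
            (Eventually.of_forall fun n => ?_)
          have h2 := det_two (a n) i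
          rw [← h2]
          ring
      choose A hA using hPa
      set AA : ℕ → MvPolynomial (Option σ) ℚ := fun i => if h : i ≤ m then A i h else 0 with hAA
      have hAAe : ∀ᶠ n in (UU : Filter ℕ), ∀ i ∈ Finset.range (m + 1), (a n i : ℚ) = va (q n) (x n) (AA i) := by
        rw [Filter.eventually_all_finset]
        intro i hi
        have hi' : i ≤ m := Nat.lt_succ_iff.1 (Finset.mem_range.1 hi)
        filter_upwards [hA i hi'] with n hn
        rw [hn, hAA]
        simp only []
        rw [dif_pos hi']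
      set L : List (MvPolynomial (Option σ) ℚ) := (List.range (m + 1)).map AA with hL
      have hLe : ∀ᶠ n in (UU : Filter ℕ), (l0 (φ n)).map (Int.cast : ℤ → ℚ) = L.map (va (q n) (x n)) := by
        filter_upwards [hAAe] with n hn
        apply List.ext_getElem
        · rw [List.length_map, List.length_map, hL, List.length_map, List.length_range, hm n]
        · intro i h1 h2
          rw [List.length_map, hm n] at h1
          have h3 := hn i (Finset.mem_range.2 h1)
          rw [List.getElem_map, List.getElem_map]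
          simp only [hL, List.getElem_map, List.getElem_range]
          rw [← h3, ha]
          simp only []
          rw [List.getD_eq_getElem _ _ (by rw [hm n]; omega)]
      have hcL : ∀ᶠ n in (UU : Filter ℕ), ((((cfl (l0 (φ n))).1 : ℤ) : ℚ) = va (q n) (x n) (cfl L).1) ∧
          (((cfl (l0 (φ n))).2 : ℤ) : ℚ) = va (q n) (x n) (cfl L).2 := by
        filter_upwards [hLe] with n hn
        have h1 := map_cfl (Int.castRingHom ℚ) (l0 (φ n))
        have h2 := map_cfl (va (q n) (x n)).toRingHom L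
        have h3 : (l0 (φ n)).map (Int.castRingHom ℚ) = L.map (va (q n) (x n)).toRingHom := hn
        rw [h3, h2] at h1
        have h4 := congrArg Prod.fst h1
        have h5 := congrArg Prod.snd h1
        exact ⟨h4.symm, h5.symm⟩
      refine ⟨L, ?_⟩
      have hgood : L ≠ [] ∧ map (Int.castRingHom ℚ) F * (cfl L).2 = map (Int.castRingHom ℚ) G * (cfl L).1
          ∧ (cfl L).2 ≠ 0 := by
        refine ⟨?_, ?_, ?_⟩
        · intro h
          have := congrArg List.length h
          rw [hL, List.length_map, List.length_range, List.length_nil] at this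
          omega
        · apply va_inj S hS halg hind H
          filter_upwards [hcL] with n hn
          rw [map_mul, map_mul, map_px, map_px, ← hn.1, ← hn.2]
          have h1 := (hl0 (φ n)).2.2.2
          exact_mod_cast h1
        · intro h
          obtain ⟨n, hn⟩ := hcL.exists
          have h1 := hn.2
          rw [h, map_zero, hcfl n] at h1
          have h2 := (cQ_pos (ha1 n) m le_rfl).1
          have h3 : ((cQ (a n) (m + 1) : ℤ) : ℚ) = 0 := h1
          have h4 : cQ (a n) (m + 1) = 0 := by exact_mod_cast h3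
          omega
      filter_upwards [hLe, hφ2] with n h1 h2
      refine ⟨hgood, ?_⟩
      rw [hq, hx] at h1
      simp only [] at h1
      rw [h2] at h1
      exact h1)
  refine ⟨η, N, A.filter (fun L => L ≠ [] ∧ map (Int.castRingHom ℚ) F * (cfl L).2
    = map (Int.castRingHom ℚ) G * (cfl L).1 ∧ (cfl L).2 ≠ 0), hη,
    fun L hL => (Finset.mem_filter.1 hL).2, fun q hq x hx l h1 h2 h3 h4 => ?_⟩
  obtain ⟨L, hL, h5, h6⟩ := hA q hq x hx l ⟨h1, h2, h3, h4⟩
  exact ⟨L, Finset.mem_filter.2 ⟨hL, h5⟩, h6⟩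

/-- no functional continued fraction if there is a common zero -/
lemma no_cfl {F G : MvPolynomial (Option σ) ℤ} (hG : G ≠ 0)
    (hrel : IsRelPrime (map (Int.castRingHom ℚ) F) (map (Int.castRingHom ℚ) G))
    (z : Option σ → ℂ) (hF0 : aeval z F = 0) (hG0 : aeval z G = 0)
    (L : List (MvPolynomial (Option σ) ℚ))
    (h : map (Int.castRingHom ℚ) F * (cfl L).2 = map (Int.castRingHom ℚ) G * (cfl L).1) : False := by
  have hGq : map (Int.castRingHom ℚ) G ≠ 0 := by
    intro h
    exact hG (map_injective _ Int.cast_injective (by rw [h, map_zero]))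
  have h1 : map (Int.castRingHom ℚ) G ∣ (cfl L).2 := by
    apply hrel.symm.dvd_of_dvd_mul_left
    exact ⟨(cfl L).1, h⟩
  obtain ⟨T, hT⟩ := h1
  have h2 : (cfl L).1 = map (Int.castRingHom ℚ) F * T := by
    apply mul_left_cancel₀ hGq
    rw [← h, hT]
    ring
  obtain ⟨u, v, huv⟩ := cfl_det L
  rw [h2, hT] at huv
  have h3 := congrArg (aeval z : MvPolynomial (Option σ) ℚ →ₐ[ℚ] ℂ) huv
  have e : ∀ P : MvPolynomial (Option σ) ℤ, (aeval z : MvPolynomial (Option σ) ℚ →ₐ[ℚ] ℂ)
      (map (Int.castRingHom ℚ) P) = aeval z P := by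
    intro P
    rw [show (Int.castRingHom ℚ) = algebraMap ℤ ℚ from rfl, aeval_map_algebraMap]
  rw [map_add, map_mul, map_mul, map_mul, map_mul, e, e, hF0, hG0, map_one] at h3
  simp at h3

end

end Pool.Agent.Q4.Tube
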