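import Mathlib
import Pool.Agent.Q4.Tube.Cf2

set_option autoImplicit false
set_option linter.unusedSectionVars false

/-!
# Schmidt's theorem for algebraic functions, along sequences of integral points near a ray
-/

namespace Pool.Agent.Q4.Tube

open Filter Topology Pool.Agent.TH932.Abs Pool.Agent.TH932.Germs Pool.Agent.TH932.Chi
open Pool.Agent.TH796.AL Pool.Agent.Q4.Blk Pool.Agent.Q4.Gcd Pool.Agent.Q4.Cov Module

section
variable {σ : Type} [Fintype σ] [DecidableEq σ]

open MvPolynomial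

/-- from the filtration to the order of growth -/
lemma Sm.ofSR {q : ℕ → ℕ} (hq : ∀ n, n + 2 ≤ q n) {e : ℝ} {f : ℕ → ℝ}
    (hf : gr f ∈ SR (fun n => Real.log (q n)) e) : Sm q (-e) (fun n => (f n : ℂ)) := by
  rw [mem_SR] at hf
  intro ε hε
  filter_upwards [hf ε hε] with n h1
  rw [Complex.norm_real, Real.norm_eq_abs, Real.rpow_def_of_pos (qpos hq n)]
  refine h1.trans (le_of_eq ?_)
  congr 1
  ring

lemma Sm.inv_prod {q : ℕ → ℕ} (hq : ∀ n, n + 2 ≤ q n) {ι : Type} (s : Finset ι) (μ : ι → ℝ)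
    (v : ι → ℕ → ℕ) (h : ∀ i ∈ s, Sm q (-μ i) (fun n => 1 / (v i n : ℂ))) :
    Sm q (-∑ i ∈ s, μ i) (fun n => 1 / ∏ i ∈ s, (v i n : ℂ)) := by
  classical
  induction s using Finset.induction_on with
  | empty => simpa using Sm.const hq 1
  | insert i s hi ih =>
    have h1 := Sm.mul hq (h i (Finset.mem_insert_self _ _))
      (ih fun j hj => h j (Finset.mem_insert_of_mem hj))
    rw [Finset.sum_insert hi, neg_add]
    refine h1.congr (Eventually.of_forall fun n => ?_)
    rw [Finset.prod_insert hi]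
    rw [one_div_mul_one_div]

variable (S : Finset ℕ) (hS : ∀ p ∈ S, p.Prime) {θ : σ → ℝ} (halg : ∀ s, IsAlgebraic ℚ (θ s))
  (hind : LinearIndependent ℚ (fun o : Option σ => (o.elim 1 (fun s => θ s) : ℝ)))
  {q : ℕ → ℕ} {x : ℕ → σ → ℤ} (H : Tub S θ q x)

include hS halg hind H

/-- **Schmidt's theorem** for algebraic functions, along a sequence of points near a ray. -/
theorem schmidtT {ι : Type} [Fintype ι] [DecidableEq ι] (D K R : ℕ)
    (hR : (Fintype.card ι + 2) * K ≤ R) (δ : ℝ) (hδ : 0 < δ) (lam : ι → ℕ → ℂ)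
    (c : ι → Ex (Option σ) (R + D) → QB)
    (hc : ∀ i, Sm q (-1) (fun n => (q n : ℂ) ^ R * lam i n
      - ∑ a, phi (c i a) * ((zv θ (q n) (x n) a.1 : ℝ) : ℂ)))
    (cc : ι → ℕ → ℕ) (hc0 : ∀ i n, cc i n ≠ 0) (hcS : ∀ i n, (cc i n).primeFactors ⊆ S)
    (hcK : ∀ i n, cc i n ≤ q n ^ K) (w : ι → ℕ → ℤ) (hw0 : ∀ i n, w i n ≠ 0)
    (hwK : ∀ i n, (w i n).natAbs ≤ q n ^ K)
    (c0 : ℕ → ℕ) (hc00 : ∀ n, c0 n ≠ 0) (hc0S : ∀ n, (c0 n).primeFactors ⊆ S)
    (hc0K : ∀ n, c0 n ≤ q n ^ K) (t : ℕ → ℤ)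
    (happ : ∀ᶠ n in (UU : Filter ℕ), ‖∑ i, (cc i n : ℂ) * w i n * lam i n - c0 n * t n‖
      ≤ (q n : ℝ) ^ (-δ) * c0 n / ∏ i, ((w i n).natAbs : ℝ)) :
    ∃ A : Option ι → MvPolynomial (Option σ) ℚ, A ≠ 0 ∧ ∀ᶠ n in (UU : Filter ℕ),
      (c0 n : ℚ) * t n * va (q n) (x n) (A none)
        + ∑ i, (cc i n : ℚ) * w i n * va (q n) (x n) (A (some i)) = 0 := by
  classical
  have hL := tendsto_logx H
  have hqn0 : ∀ n, q n ≠ 0 := px_ne H
  set r : ℕ := Fintype.card ι with hr
  set δ' : ℝ := min δ 1 with hδ'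
  have hδ'0 : 0 < δ' := lt_min hδ one_pos
  obtain ⟨e, he⟩ := card_ratio (Option σ) (R + D) (η := δ' / (2 * (r * K + 1))) (by positivity)
  by_contra hcon
  push Not at hcon
  obtain ⟨F, hfin, θ', c', g0, κ, y, hc', HF, hlam, hg0, hκ, hu, hX, hZ⟩ :=
    tub_setup S hS θ halg hind H hL (fun a : ι × Ex (Option σ) (R + D) => (phi (c a.1 a.2)).re)
      (fun a => alg_re (alg_QB (c a.1 a.2)))
  have hg1 : lv (bas S hS) none g0 ≠ 0 := by rw [hlam]; norm_num
  have hqp : ∀ n, (0 : ℝ) < q n := qpos H.big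
  -- germs of the unit parts
  choose h κc hκc hcg using fun i => unit_seq S hS q H.big hL (cc i) (hc0 i) (hcS i) K (hcK i)
  obtain ⟨h0, κ0, hκ0, hcg0⟩ := unit_seq S hS q H.big hL c0 hc00 hc0S K hc0K
  choose μ hμ0 hμK hμ1 hμ2 using fun i => exists_mu H.big (fun n => (w i n).natAbs)
    (fun n => Int.natAbs_ne_zero.2 (hw0 i n)) K (hwK i)
  set μt : ℝ := ∑ i, μ i with hμt
  have hμt0 : 0 ≤ μt := Finset.sum_nonneg fun i _ => hμ0 i
  have hμtK : μt ≤ r * K := by
    calc μt ≤ ∑ _i : ι, (K : ℝ) := Finset.sum_le_sum fun i _ => hμK i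
      _ = r * K := by rw [Finset.sum_const, Finset.card_univ, nsmul_eq_mul]
  -- the twists
  have hκR : ∀ i, κc i * (κ ^ R)⁻¹ ≠ 0 := fun i => mul_ne_zero (hκc i) (inv_ne_zero (pow_ne_zero _ hκ))
  set hh : ι → Fin S.card → ℝ := fun i => h i - (R : ℝ) • g0 with hhh
  have hT1 : ∀ i, gm (fun n => (cc i n : ℚ) / (q n : ℚ) ^ R)
      = ((κc i * (κ ^ R)⁻¹ : KK (fun n => Real.log (q n)) hL) : GG) * ch (bas S hS) hL (hh i) := by
    intro i
    have h1 : gm (fun n => (cc i n : ℚ) / (q n : ℚ) ^ R) * gm (fun n => (q n : ℚ)) ^ R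
        = gm (fun n => (cc i n : ℚ)) := by
      rw [gm_pow, gm_mul]
      congr 1
      funext n
      have : (q n : ℚ) ≠ 0 := by exact_mod_cast hqn0 n
      field_simp
    have h2 : gm (fun n => (q n : ℚ)) ≠ 0 := by
      rw [gm_ne_zero]
      exact Eventually.of_forall fun n => by exact_mod_cast hqn0 n
    apply mul_right_cancel₀ (pow_ne_zero R h2)
    rw [h1, hcg, hu, mul_pow, ← ch_nsmul]
    have h3 : ch (bas S hS) hL (hh i) * ch (bas S hS) hL ((R : ℝ) • g0)
        = ch (bas S hS) hL (h i) := by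
      rw [← ch_add]
      congr 1
      rw [hhh]
      simp only []
      abel
    have h4 : (κ : GG) ^ R ≠ 0 := pow_ne_zero _ fun h0 => hκ (Subtype.ext h0)
    have h5 : ((κc i * (κ ^ R)⁻¹ : KK (fun n => Real.log (q n)) hL) : GG)
        = (κc i : GG) * ((κ : GG) ^ R)⁻¹ := by
      push_cast
      rfl
    rw [h5, ← h3]
    field_simp
  obtain ⟨T, hTdef⟩ : ∃ T : ι → GG, ∀ i, T i = gm (fun n => (cc i n : ℚ) / (q n : ℚ) ^ R)
    * gm (fun n => (w i n : ℚ)) := ⟨fun i => _, fun i => rfl⟩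
  have hTgm : ∀ i, T i = gm (fun n => (cc i n : ℚ) / (q n : ℚ) ^ R * w i n) := by
    intro i
    rw [hTdef, gm_mul]
  obtain ⟨T0, hT0def⟩ : ∃ T0 : GG, T0 = gm (fun n => (c0 n : ℚ)) * gm (fun n => (t n : ℚ)) := ⟨_, rfl⟩
  have hT0gm : T0 = gm (fun n => (c0 n : ℚ) * t n) := by rw [hT0def, gm_mul]
  have hT1v : ∀ i (w : Option (Fin S.card)), gm (fun n => (cc i n : ℚ) / (q n : ℚ) ^ R)
      ∈ Sv (bas S hS) (fun n => Real.log (q n)) w (lv (bas S hS) w (hh i)) := by
    intro i w
    rw [hT1]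
    have := (filt_v (B := bas S hS) hL w).mul_mem
      ((filt_v (B := bas S hS) hL w).alg_mem (κc i * (κ ^ R)⁻¹)) (ch_mem (B := bas S hS) hL w (hh i))
    rw [zero_add] at this
    exact this
  have hT0v : ∀ (w : Option (Fin S.card)), gm (fun n => (c0 n : ℚ))
      ∈ Sv (bas S hS) (fun n => Real.log (q n)) w (lv (bas S hS) w h0) := by
    intro w
    rw [hcg0]
    have := (filt_v (B := bas S hS) hL w).mul_mem
      ((filt_v (B := bas S hS) hL w).alg_mem κ0) (ch_mem (B := bas S hS) hL w h0)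
    rw [zero_add] at this
    exact this
  have hκv : ∀ (w : Option (Fin S.card)) (k : ℕ),
      (κ : GG) ^ k ∈ Sv (bas S hS) (fun n => Real.log (q n)) w 0 := by
    intro w k
    have := (filt_v (B := bas S hS) hL w).alg_mem (κ ^ k)
    have h2 : algebraMap (KK (fun n => Real.log (q n)) hL) GG (κ ^ k) = (κ : GG) ^ k := by
      rw [map_pow]; rfl
    rwa [h2] at this
  have hXv : ∀ (w : Fin S.card) (a : Option σ → ℕ), Xh hL κ g0 y (bas S hS) a
      ∈ Sv (bas S hS) (fun n => Real.log (q n)) (some w) ((a none : ℝ) * lv (bas S hS) (some w) g0) := by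
    intro w a
    have h1 := (filt_v (B := bas S hS) hL (some w)).mul_mem (hκv (some w) (∑ i, a i))
      (HF.x_fin hL w (om g0 a))
    rw [sh_om, lv_smul, zero_add] at h1
    exact h1
  have hZI : ∀ a : Option σ → ℕ, Zh hL κ g0 θ' y (bas S hS) a
      ∈ SR (fun n => Real.log (q n)) ((a none : ℝ) * lv (bas S hS) none g0) := by
    intro a
    have h1 := SR_mul hL (SR_rho (hκv none (∑ i, a i))) (HF.z_inf hL (om g0 a))
    rw [sh_om, lv_smul, zero_add, map_pow] at h1
    exact h1
  have hXint : ∀ a : Option σ → ℕ, Sint (bas S hS) (fun n => Real.log (q n))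
      (Xh hL κ g0 y (bas S hS) a) := fun a =>
    Sint.mul hL (Sint_pow (Sint.alg hL _) _ hL) (HF.x_int hL _)
  have hTint : ∀ i, Sint (bas S hS) (fun n => Real.log (q n)) (T i) := by
    intro i
    rw [hTdef, hT1]
    exact Sint.mul hL (Sint.mul hL (Sint.alg hL _) (ch_sint hL _)) (Sint_int hL _)
  have hT0int : Sint (bas S hS) (fun n => Real.log (q n)) T0 := by
    rw [hT0def, hcg0]
    exact Sint.mul hL (Sint.mul hL (Sint.alg hL _) (ch_sint hL _)) (Sint_int hL _)
  have hcoe : ∀ a b : F, ((a * b : F) : ℝ) = (a : ℝ) * (b : ℝ) := fun a b => rfl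
  -- the sizes
  have hwI : ∀ i, gr (fun n => (w i n : ℝ)) ∈ SR (fun n => Real.log (q n)) (-μ i) := by
    intro i
    apply Sm.toSR H.big
    refine (hμ1 i).le (Eventually.of_forall fun n => ?_)
    rw [Complex.norm_real, Complex.norm_natCast, Real.norm_eq_abs, Nat.cast_natAbs, Int.cast_abs]
  have hc0m : Sm q (-lv (bas S hS) none h0) (fun n => ((c0 n : ℝ) : ℂ)) := by
    apply Sm.ofSR H.big
    have h1 := SR_rho (hT0v none)
    have h2 : rho (gm (fun n => (c0 n : ℚ))) = gr (fun n => (c0 n : ℝ)) := by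
      rw [rho_gm]
      congr 1
    rwa [h2] at h1
  set cM : Ex (Option σ) e → ι × Ex (Option σ) (e + (R + D)) → F := fun b a =>
    ∑ a' : Ex (Option σ) (R + D), if a'.1 + b.1 = a.2.1 then c' (a.1, a') else 0 with hcM
  have hMM : ∀ i k : ι × Ex (Option σ) (e + (R + D)),
      ∑ j : ι × Ex (Option σ) (e + (R + D)), (if i.1 = j.1 then Mh θ' i.2.1 j.2.1 else 0)
        * (if j.1 = k.1 then Mh θ' j.2.1 k.2.1 else 0) = if i = k then 1 else 0 := by
    intro i k
    rw [Fintype.sum_prod_type]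
    simp only []
    rw [Finset.sum_eq_single i.1]
    · have h1 := Mh_sq (θ := θ') hL (B := bas S hS) hg1 (e + (R + D)) i.2 k.2
      by_cases h2 : i.1 = k.1
      · simp only [h2, if_true]
        rw [h1]
        by_cases h3 : i.2 = k.2
        · rw [if_pos h3, if_pos (Prod.ext h2 h3)]
        · rw [if_neg h3, if_neg (fun h4 => h3 (congrArg Prod.snd h4))]
      · simp only [if_neg h2, mul_zero, Finset.sum_const_zero]
        rw [if_neg (fun h4 => h2 (congrArg Prod.fst h4))]
    · intro j _ hj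
      refine Finset.sum_eq_zero fun b _ => ?_
      rw [if_neg (Ne.symm hj), zero_mul]
    · intro hn
      exact absurd (Finset.mem_univ _) hn
  have key := two_block (B := bas S hS) hL F
    (fun a : ι × Ex (Option σ) (e + (R + D)) => T a.1 * Xh hL κ g0 y (bas S hS) a.2.1)
    (fun a : ι × Ex (Option σ) (e + (R + D)) => rho (T a.1) * Zh hL κ g0 θ' y (bas S hS) a.2.1)
    (fun a b => if a.1 = b.1 then Mh θ' a.2.1 b.2.1 else 0) hMM ?_
    (fun a : Ex (Option σ) e => T0 * Xh hL κ g0 y (bas S hS) a.1)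
    (fun a : Ex (Option σ) e => rho T0 * Zh hL κ g0 θ' y (bas S hS) a.1)
    (fun a b => Mh θ' a.1 b.1) (Mh_sq hL (B := bas S hS) hg1 e) ?_ ?_ cM
    (fun w a => lv (bas S hS) (some w) (hh a.1) + (a.2.1 none : ℝ) * lv (bas S hS) (some w) g0)
    (fun a => lv (bas S hS) none (hh a.1) - μ a.1 + (a.2.1 none : ℝ) * lv (bas S hS) none g0)
    (fun w a => lv (bas S hS) (some w) h0 + (a.1 none : ℝ) * lv (bas S hS) (some w) g0)
    (fun a => (μt + δ' + lv (bas S hS) none h0) + (a.1 none : ℝ) * lv (bas S hS) none g0)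
    ?_ ?_ ?_ ?_ ?_ ?_
  · -- the contradiction
    have e1 : ∀ a : ι × Ex (Option σ) (e + (R + D)),
        ∑ w, (lv (bas S hS) (some w) (hh a.1) + (a.2.1 none : ℝ) * lv (bas S hS) (some w) g0)
          + (lv (bas S hS) none (hh a.1) - μ a.1 + (a.2.1 none : ℝ) * lv (bas S hS) none g0) = -μ a.1 := by
      intro a
      rw [Finset.sum_add_distrib, ← Finset.mul_sum, sum_fin_lv, sum_fin_lv]
      ring
    have e2 : ∀ a : Ex (Option σ) e, ∑ w, (lv (bas S hS) (some w) h0
          + (a.1 none : ℝ) * lv (bas S hS) (some w) g0)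
          + ((μt + δ' + lv (bas S hS) none h0) + (a.1 none : ℝ) * lv (bas S hS) none g0) = μt + δ' := by
      intro a
      rw [Finset.sum_add_distrib, ← Finset.mul_sum, sum_fin_lv, sum_fin_lv]
      ring
    simp only [e1, e2] at key
    rw [Fintype.sum_prod_type] at key
    simp only [Finset.sum_const, Finset.card_univ, Fintype.card_coe, nsmul_eq_mul] at key
    rw [← Finset.mul_sum, Finset.sum_neg_distrib, ← hμt] at key
    have hN : (0 : ℝ) < (Ex (Option σ) e).card := by
      have : 0 < (Ex (Option σ) e).card := Finset.card_pos.2 ⟨0, mem_Ex.2 (by simp)⟩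
      exact_mod_cast this
    have h1 : ((Ex (Option σ) (e + (R + D))).card : ℝ) * μt
        ≤ (1 + δ' / (2 * (r * K + 1))) * (Ex (Option σ) e).card * μt :=
      mul_le_mul_of_nonneg_right he hμt0
    have h2 : δ' / (2 * (r * K + 1)) * μt ≤ δ' / 2 := by
      have h3 : δ' / (2 * (r * K + 1)) * μt ≤ δ' / (2 * (r * K + 1)) * (r * K + 1) :=
        mul_le_mul_of_nonneg_left (by linarith) (by positivity)
      refine h3.trans (le_of_eq ?_)
      field_simp
    nlinarith
  · intro a
    rw [Zh_eq hL hg1 κ (e + (R + D)) a.2, Finset.mul_sum, Fintype.sum_prod_type]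
    rw [Finset.sum_eq_single a.1]
    · refine Finset.sum_congr rfl fun b _ => ?_
      simp only [if_true]
      rw [map_mul]
      ring
    · intro j _ hj
      refine Finset.sum_eq_zero fun b _ => ?_
      simp only [if_neg (Ne.symm hj)]
      have h0 : ((0 : F) : ℝ) = 0 := rfl
      rw [h0, map_zero, zero_mul]
    · intro hn
      exact absurd (Finset.mem_univ _) hn
  · intro a
    rw [Zh_eq hL hg1 κ e a, Finset.mul_sum]
    refine Finset.sum_congr rfl fun b _ => ?_
    rw [map_mul]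
    ring
  · -- independence
    intro b b' hb
    set A : Option ι → MvPolynomial (Option σ) ℚ := fun o => o.elim
      (X none ^ R * polyOf (fun a => (b' a : ℚ)))
      (fun i => polyOf (fun a : Ex (Option σ) (e + (R + D)) => (b (i, a) : ℚ))) with hA
    have hb2 : ∀ᶠ n in (UU : Filter ℕ), (∑ i, (cc i n : ℚ) / (q n : ℚ) ^ R * w i n
        * ∑ a, b (i, a) * ∏ j, (px (q n) (x n) j : ℚ) ^ (a.1 j))
        + c0 n * t n * ∑ a, b' a * ∏ i, (px (q n) (x n) i : ℚ) ^ (a.1 i) = 0 := by
      have hbi : ∀ z : ℤ, (z : GG) = gm (fun _ => (z : ℚ)) := fun z => by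
        have := rat_gm (z : ℚ)
        simpa using this
      simp only [hX, hbi, hTgm, hT0gm, gm_mul] at hb
      rw [gm_sum, gm_sum, gm_add] at hb
      have hb3 : gm (fun n => ∑ i : ι × Ex (Option σ) (e + (R + D)), (b i : ℚ) *
          ((cc i.1 n : ℚ) / (q n : ℚ) ^ R * w i.1 n * ∏ j, (px (q n) (x n) j : ℚ) ^ (i.2.1 j))
          + ∑ i : Ex (Option σ) e, (b' i : ℚ) * ((c0 n : ℚ) * t n * ∏ j, (px (q n) (x n) j : ℚ) ^ (i.1 j)))
          = gm (fun _ => (0 : ℚ)) := by
        rw [hb]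
        exact (rat_gm 0).symm.trans (by simp) |>.symm
      rw [gm_eq] at hb3
      filter_upwards [hb3] with n hn
      rw [← hn, Fintype.sum_prod_type]
      congr 1
      · refine Finset.sum_congr rfl fun i _ => ?_
        rw [Finset.mul_sum]
        exact Finset.sum_congr rfl fun a _ => by ring
      · rw [Finset.mul_sum]
        exact Finset.sum_congr rfl fun a _ => by ring
    have hA0 : A = 0 := by
      by_contra hne
      have hc9 : ∀ᶠ n in (UU : Filter ℕ), (c0 n : ℚ) * t n * va (q n) (x n) (A none)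
          + ∑ i, (cc i n : ℚ) * w i n * va (q n) (x n) (A (some i)) ≠ 0 := hcon A hne
      obtain ⟨n, hn1, hn2⟩ := (hc9.and hb2).exists
      apply hn1
      have h3 : (q n : ℚ) ≠ 0 := by exact_mod_cast hqn0 n
      have e1 : va (q n) (x n) (A none) = (q n : ℚ) ^ R
          * ∑ a, b' a * ∏ i, (px (q n) (x n) i : ℚ) ^ (a.1 i) := by
        rw [hA]
        simp only [Option.elim]
        rw [map_mul, map_pow, va_X0, va_polyOf]
      have e2 : ∀ i, va (q n) (x n) (A (some i))
          = ∑ a, b (i, a) * ∏ j, (px (q n) (x n) j : ℚ) ^ (a.1 j) := by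
        intro i
        rw [hA]
        simp only [Option.elim]
        rw [va_polyOf]
      rw [e1]
      simp only [e2]
      have h5 : ∑ i, (cc i n : ℚ) * w i n * ∑ a, b (i, a) * ∏ j, (px (q n) (x n) j : ℚ) ^ (a.1 j)
          = (q n : ℚ) ^ R * ∑ i, (cc i n : ℚ) / (q n : ℚ) ^ R * w i n
            * ∑ a, b (i, a) * ∏ j, (px (q n) (x n) j : ℚ) ^ (a.1 j) := by
        rw [Finset.mul_sum]
        refine Finset.sum_congr rfl fun i _ => ?_
        field_simp
      rw [h5]
      linear_combination (q n : ℚ) ^ R * hn2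
    constructor
    · intro ia
      have h1 := coeff_polyOf (fun a : Ex (Option σ) (e + (R + D)) => (b (ia.1, a) : ℚ)) ia.2
      have h2 : polyOf (fun a : Ex (Option σ) (e + (R + D)) => (b (ia.1, a) : ℚ)) = 0 :=
        congrFun hA0 (some ia.1)
      rw [h2, coeff_zero] at h1
      have h3 : ((b (ia.1, ia.2) : ℤ) : ℚ) = 0 := h1.symm
      exact_mod_cast h3
    · intro a
      have h1 := coeff_polyOf (fun a => (b' a : ℚ)) a
      have h2 : X none ^ R * polyOf (fun a => (b' a : ℚ)) = 0 := congrFun hA0 none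
      have h3 : polyOf (fun a => (b' a : ℚ)) = 0 :=
        (mul_eq_zero.1 h2).resolve_left (pow_ne_zero _ (X_ne_zero _))
      rw [h3, coeff_zero] at h1
      exact_mod_cast h1.symm
  · intro w' a
    have h1 := (filt_v (B := bas S hS) hL (some w')).mul_mem (hT1v a.1 (some w'))
      (int_germ hL w' (w a.1))
    rw [← hTdef, add_zero] at h1
    exact (filt_v (B := bas S hS) hL (some w')).mul_mem h1 (hXv w' a.2.1)
  · intro a
    have h1 := SR_mul hL (SR_rho (hT1v a.1 none)) (hwI a.1)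
    have h2 : rho (gm (fun n => (cc a.1 n : ℚ) / (q n : ℚ) ^ R)) * gr (fun n => (w a.1 n : ℝ))
        = rho (T a.1) := by
      rw [hTdef, map_mul]
      congr 1
    rw [h2, ← sub_eq_add_neg] at h1
    exact SR_mul hL h1 (hZI a.2.1)
  · intro a
    exact Sint.mul hL (hTint a.1) (hXint a.2.1)
  · intro w' a
    have h1 := (filt_v (B := bas S hS) hL (some w')).mul_mem (hT0v (some w')) (int_germ hL w' t)
    rw [← hT0def, add_zero] at h1
    exact (filt_v (B := bas S hS) hL (some w')).mul_mem h1 (hXv w' a.1)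
  · -- the small forms
    intro b
    have e0 : rho T0 = gr (fun n => (c0 n : ℝ) * t n) := by
      rw [hT0gm, rho_gm]
      congr 1
      funext n
      push_cast
      rfl
    have e0' : ∀ i, rho (T i) = gr (fun n => (cc i n : ℝ) / (q n : ℝ) ^ R * w i n) := by
      intro i
      rw [hTgm, rho_gm]
      congr 1
      funext n
      push_cast
      ring
    have e1 : ∑ a : ι × Ex (Option σ) (e + (R + D)), algebraMap ℝ HR (cM b a : ℝ)
        * (rho (T a.1) * Zh hL κ g0 θ' y (bas S hS) a.2.1)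
        = gr (fun n => ∑ i, (cc i n : ℝ) / (q n : ℝ) ^ R * w i n
          * (zv θ (q n) (x n) b.1 * ∑ a' : Ex (Option σ) (R + D), (phi (c i a')).re * zv θ (q n) (x n) a'.1)) := by
      simp only [e0', hZ, cst_eq, gr_mul]
      rw [gr_sum', gr_eq]
      refine Eventually.of_forall fun n => ?_
      rw [Fintype.sum_prod_type]
      refine Finset.sum_congr rfl fun i _ => ?_
      have h1 : ∀ a : Ex (Option σ) (e + (R + D)), (cM b (i, a) : ℝ)
          = ∑ a' : Ex (Option σ) (R + D), if a'.1 + b.1 = a.1 then (phi (c i a')).re else 0 := by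
        intro a
        rw [hcM]
        simp only []
        rw [AddSubmonoidClass.coe_finsetSum]
        refine Finset.sum_congr rfl fun a' _ => ?_
        split_ifs
        · exact hc' (i, a')
        · rfl
      simp only [h1, Finset.sum_mul, Finset.mul_sum]
      rw [Finset.sum_comm]
      refine Finset.sum_congr rfl fun a' _ => ?_
      have hmem : a'.1 + b.1 ∈ Ex (Option σ) (e + (R + D)) := by
        have h2 := mem_Ex.1 a'.2
        have h3 := mem_Ex.1 b.2
        rw [mem_Ex]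
        simp only [Pi.add_apply, Finset.sum_add_distrib]
        omega
      rw [Finset.sum_eq_single (⟨a'.1 + b.1, hmem⟩ : Ex (Option σ) (e + (R + D)))]
      · rw [if_pos rfl, zv_add]
        ring
      · intro a _ hne
        rw [if_neg (fun h => hne (Subtype.ext h.symm)), zero_mul]
      · intro h
        exact absurd (Finset.mem_univ _) h
    rw [e1, e0, hZ, gr_mul, gr_sub]
    -- the errors
    set ν0 : ℝ := -lv (bas S hS) none h0 with hν0
    have hinv : Sm q (-μt) (fun n => 1 / ∏ i, (((w i n).natAbs : ℕ) : ℂ)) :=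
      Sm.inv_prod H.big Finset.univ μ (fun i n => (w i n).natAbs) (fun i _ => hμ2 i)
    have hci : Sm q (ν0 - μt) (fun n => ((c0 n : ℝ) : ℂ) * (1 / ∏ i, (((w i n).natAbs : ℕ) : ℂ))) := by
      have := Sm.mul H.big hc0m hinv
      rwa [← sub_eq_add_neg] at this
    have hnorm : ∀ n, ‖((c0 n : ℝ) : ℂ) * (1 / ∏ i, (((w i n).natAbs : ℕ) : ℂ))‖
        = c0 n / ∏ i, ((w i n).natAbs : ℝ) := by
      intro n
      rw [norm_mul, norm_div, norm_one, norm_prod, Complex.norm_real,
        Real.norm_of_nonneg (Nat.cast_nonneg _)]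
      simp only [Complex.norm_natCast]
      ring
    have g1 : Sm q (ν0 - μt - δ') (fun n => ((((c0 n : ℝ) * t n - ∑ i, cc i n * w i n * (lam i n).re : ℝ)) : ℂ)) := by
      have h1 : Sm q (-δ') (fun n => (((q n : ℝ) ^ (-δ) : ℝ) : ℂ)) := by
        intro ε hε
        refine Eventually.of_forall fun n => ?_
        rw [Complex.norm_real, Real.norm_of_nonneg (by have := hqp n; positivity)]
        exact Real.rpow_le_rpow_of_exponent_le (qone H.big n) (by
          have := min_le_left δ 1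
          linarith)
      have h2 := Sm.mul H.big hci h1
      rw [← sub_eq_add_neg] at h2
      refine h2.le ?_
      filter_upwards [happ] with n hn
      have h4 := (Complex.abs_re_le_norm _).trans hn
      have h5 : (∑ i, (cc i n : ℂ) * w i n * lam i n - c0 n * t n).re
          = ∑ i, cc i n * w i n * (lam i n).re - c0 n * t n := by
        rw [Complex.sub_re, Complex.re_sum]
        congr 1
        · refine Finset.sum_congr rfl fun i _ => ?_
          have h6 : (cc i n : ℂ) * w i n * lam i n = (((cc i n : ℝ) * w i n : ℝ) : ℂ) * lam i n := by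
            push_cast; ring
          rw [h6, Complex.re_ofReal_mul]
        · have h6 : (c0 n : ℂ) * t n = (((c0 n : ℝ) * t n : ℝ) : ℂ) := by push_cast; ring
          rw [h6, Complex.ofReal_re]
      rw [h5, abs_sub_comm] at h4
      rw [Complex.norm_real, Real.norm_eq_abs, norm_mul, hnorm, Complex.norm_real,
        Real.norm_of_nonneg (by have := hqp n; positivity)]
      refine h4.trans (le_of_eq ?_)
      ring
    have g2 : ∀ i, Sm q (ν0 - μt - δ') (fun n => (((cc i n : ℝ) / (q n : ℝ) ^ R * w i n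
        * ((lam i n).re * (q n : ℝ) ^ R - ∑ a' : Ex (Option σ) (R + D), (phi (c i a')).re * zv θ (q n) (x n) a'.1) : ℝ) : ℂ)) := by
      intro i
      have h1 := Sm.mul H.big hci (hc i)
      have h2 : ν0 - μt + -1 ≤ ν0 - μt - δ' := by
        have := min_le_right δ 1
        linarith
      refine (Sm.mono H.big h1 h2).le (Eventually.of_forall fun n => ?_)
      have hq1 : (1 : ℝ) ≤ q n := qone H.big n
      have hwp : ∀ j, (1 : ℝ) ≤ ((w j n).natAbs : ℝ) := fun j => by
        exact_mod_cast Nat.one_le_iff_ne_zero.2 (Int.natAbs_ne_zero.2 (hw0 j n))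
      have hPp : (0 : ℝ) < ∏ j, ((w j n).natAbs : ℝ) := Finset.prod_pos fun j _ => by
        have := hwp j; linarith
      have hc01 : (1 : ℝ) ≤ c0 n := by exact_mod_cast Nat.one_le_iff_ne_zero.2 (hc00 n)
      have h3 : (cc i n : ℝ) / (q n : ℝ) ^ R * ((w i n).natAbs : ℝ)
          ≤ c0 n / ∏ j, ((w j n).natAbs : ℝ) := by
        have hq0 := hqp n
        rw [div_mul_eq_mul_div, div_le_div_iff₀ (by positivity) hPp]
        have h4 : (cc i n : ℝ) ≤ (q n : ℝ) ^ K := by exact_mod_cast hcK i n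
        have h5 : ∀ j, ((w j n).natAbs : ℝ) ≤ (q n : ℝ) ^ K := fun j => by exact_mod_cast hwK j n
        have h6 : ∏ j, ((w j n).natAbs : ℝ) ≤ ((q n : ℝ) ^ K) ^ r := by
          calc ∏ j, ((w j n).natAbs : ℝ) ≤ ∏ _j : ι, (q n : ℝ) ^ K :=
                Finset.prod_le_prod (fun j _ => by have := hwp j; linarith) (fun j _ => h5 j)
            _ = _ := by rw [Finset.prod_const, Finset.card_univ]
        have h7 : (0 : ℝ) ≤ (q n : ℝ) ^ K := by positivity
        calc (cc i n : ℝ) * ((w i n).natAbs : ℝ) * ∏ j, ((w j n).natAbs : ℝ)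
            ≤ (q n : ℝ) ^ K * (q n : ℝ) ^ K * ((q n : ℝ) ^ K) ^ r := by
              apply mul_le_mul _ h6 hPp.le (by positivity)
              exact mul_le_mul h4 (h5 i) (by have := hwp i; linarith) h7
          _ = (q n : ℝ) ^ ((r + 2) * K) := by
              rw [← pow_mul, ← pow_add, ← pow_add]
              congr 1
              ring
          _ ≤ (q n : ℝ) ^ R := pow_le_pow_right₀ hq1 hR
          _ = 1 * (q n : ℝ) ^ R := (one_mul _).symm
          _ ≤ c0 n * (q n : ℝ) ^ R := mul_le_mul_of_nonneg_right hc01 (by positivity)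
      have h4 : |(lam i n).re * (q n : ℝ) ^ R - ∑ a' : Ex (Option σ) (R + D), (phi (c i a')).re * zv θ (q n) (x n) a'.1|
          ≤ ‖(q n : ℂ) ^ R * lam i n - ∑ a, phi (c i a) * ((zv θ (q n) (x n) a.1 : ℝ) : ℂ)‖ := by
        refine le_trans (le_of_eq ?_) (Complex.abs_re_le_norm _)
        congr 1
        have h5 : (q n : ℂ) ^ R = (((q n : ℝ) ^ R : ℝ) : ℂ) := by push_cast; rfl
        rw [Complex.sub_re, h5, Complex.re_ofReal_mul, Complex.re_sum, mul_comm]
        congr 1
        refine Finset.sum_congr rfl fun a _ => ?_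
        rw [Complex.re_mul_ofReal]
      rw [Complex.norm_real, Real.norm_eq_abs, abs_mul, norm_mul, hnorm]
      have h5 : |(cc i n : ℝ) / (q n : ℝ) ^ R * w i n| = (cc i n : ℝ) / (q n : ℝ) ^ R * ((w i n).natAbs : ℝ) := by
        rw [abs_mul, abs_of_nonneg (show (0 : ℝ) ≤ (cc i n : ℝ) / (q n : ℝ) ^ R by
          have := hqp n; positivity), Nat.cast_natAbs, Int.cast_abs]
      rw [h5]
      exact mul_le_mul h3 h4 (abs_nonneg _) (by positivity)
    have g3 := Sm.mul H.big (sm_zv S H b.1) (Sm.add H.big g1 (Sm.sum H.big Finset.univ _ fun i _ => g2 i))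
    have g4 : Sm q (-((μt + δ' + lv (bas S hS) none h0) + (b.1 none : ℝ) * lv (bas S hS) none g0))
        (fun n => (((c0 n : ℝ) * t n * zv θ (q n) (x n) b.1 - ∑ i, cc i n / (q n : ℝ) ^ R * w i n
        * (zv θ (q n) (x n) b.1 * ∑ a' : Ex (Option σ) (R + D), (phi (c i a')).re * zv θ (q n) (x n) a'.1) : ℝ) : ℂ)) := by
      have e5 : -((μt + δ' + lv (bas S hS) none h0) + (b.1 none : ℝ) * lv (bas S hS) none g0)
          = (b.1 none : ℝ) + (ν0 - μt - δ') := by
        rw [hlam, hν0]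
        ring
      rw [e5]
      refine g3.congr (Eventually.of_forall fun n => ?_)
      have hq' : (q n : ℝ) ≠ 0 := (hqp n).ne'
      rw [← Complex.ofReal_sum, ← Complex.ofReal_add, ← Complex.ofReal_mul]
      congr 1
      have h6 : ∀ i, (cc i n : ℝ) / (q n : ℝ) ^ R * w i n
          * ((lam i n).re * (q n : ℝ) ^ R - ∑ a' : Ex (Option σ) (R + D), (phi (c i a')).re * zv θ (q n) (x n) a'.1)
          = cc i n * w i n * (lam i n).re - (cc i n : ℝ) / (q n : ℝ) ^ R * w i n
            * ∑ a' : Ex (Option σ) (R + D), (phi (c i a')).re * zv θ (q n) (x n) a'.1 := by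
        intro i
        field_simp
      have h7 : ∑ i, (cc i n : ℝ) / (q n : ℝ) ^ R * w i n
          * (zv θ (q n) (x n) b.1 * ∑ a' : Ex (Option σ) (R + D), (phi (c i a')).re * zv θ (q n) (x n) a'.1)
          = zv θ (q n) (x n) b.1 * ∑ i, (cc i n : ℝ) / (q n : ℝ) ^ R * w i n
            * ∑ a' : Ex (Option σ) (R + D), (phi (c i a')).re * zv θ (q n) (x n) a'.1 := by
        rw [Finset.mul_sum]
        exact Finset.sum_congr rfl fun i _ => by ring
      simp only [h6]
      rw [Finset.sum_sub_distrib, h7]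
      ring
    have g5 := g4.toSR H.big
    rwa [neg_neg] at g5
  · intro a
    exact Sint.mul hL hT0int (hXint a.1)

end

end Pool.Agent.Q4.Tube
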