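import Mathlib
import Pool.Agent.Q4.Tube.Sch
import Pool.Agent.Q4.Tube.Cf3

set_option autoImplicit false
set_option linter.unusedSectionVars false

/-!
# Schmidt's theorem for algebraic functions at integral points near a ray
-/

namespace Pool.Agent.Q4.Tube

open Filter Topology Pool.Agent.TH932.Abs Pool.Agent.TH932.Germs Pool.Agent.TH932.Chi
open Pool.Agent.TH796.AL Pool.Agent.Q4.Blk Pool.Agent.Q4.Gcd Pool.Agent.Q4.Cov Module MvPolynomial

section
variable {σ : Type} [Fintype σ] [DecidableEq σ]

lemma spart_S {S : Finset ℕ} (hS : ∀ p ∈ S, p.Prime) (x : ℤ) : (spart S x).primeFactors ⊆ S := by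
  intro l hl
  rw [Nat.mem_primeFactors] at hl
  unfold spart at hl
  obtain ⟨p, hp, h1⟩ := (hl.1.prime.dvd_finsetProd_iff _).1 hl.2.1
  have h2 := hl.1.dvd_of_dvd_pow h1
  rw [(Nat.prime_dvd_prime_iff_eq hl.1 (hS p hp)).1 h2]
  exact hp

lemma exp_mono {θ : σ → ℝ} {q : ℕ → ℕ} {x : ℕ → σ → ℤ} {R D D' : ℕ} (hD : D ≤ D') {lam : ℕ → ℂ}
    (h : ∃ c : Ex (Option σ) (R + D) → QB, Sm q (-1) (fun n => (q n : ℂ) ^ R * lam n
      - ∑ a, phi (c a) * ((zv θ (q n) (x n) a.1 : ℝ) : ℂ))) :
    ∃ c : Ex (Option σ) (R + D') → QB, Sm q (-1) (fun n => (q n : ℂ) ^ R * lam n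
      - ∑ a, phi (c a) * ((zv θ (q n) (x n) a.1 : ℝ) : ℂ)) := by
  classical
  obtain ⟨c, hc⟩ := h
  refine ⟨fun a => if h : a.1 ∈ Ex (Option σ) (R + D) then c ⟨a.1, h⟩ else 0, ?_⟩
  refine hc.congr (Eventually.of_forall fun n => ?_)
  congr 1
  have h1 : ∀ a : Ex (Option σ) (R + D), phi (c a) * ((zv θ (q n) (x n) a.1 : ℝ) : ℂ)
      = (fun a : Option σ → ℕ => phi (if h : a ∈ Ex (Option σ) (R + D) then c ⟨a, h⟩ else 0)
        * ((zv θ (q n) (x n) a : ℝ) : ℂ)) a.1 := by
    intro a
    simp only []
    rw [dif_pos a.2]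
  rw [Finset.sum_congr rfl fun a _ => h1 a]
  rw [Finset.sum_coe_sort (Ex (Option σ) (R + D)) (fun a : Option σ → ℕ =>
    phi (if h : a ∈ Ex (Option σ) (R + D) then c ⟨a, h⟩ else 0) * ((zv θ (q n) (x n) a : ℝ) : ℂ))]
  rw [Finset.sum_coe_sort (Ex (Option σ) (R + D')) (fun a : Option σ → ℕ =>
    phi (if h : a ∈ Ex (Option σ) (R + D) then c ⟨a, h⟩ else 0) * ((zv θ (q n) (x n) a : ℝ) : ℂ))]
  symm
  apply Finset.sum_subset
  · intro a ha
    rw [mem_Ex] at ha ⊢
    omega
  · intro a _ ha
    rw [dif_neg ha, map_zero, zero_mul]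

/-- **Schmidt's theorem** for algebraic functions over all integral points near a ray. -/
theorem schmidt_main (S : Finset ℕ) (hS : ∀ p ∈ S, p.Prime) {θ : σ → ℝ}
    (halg : ∀ s, IsAlgebraic ℚ (θ s))
    (hind : LinearIndependent ℚ (fun o : Option σ => (o.elim 1 (fun s => θ s) : ℝ)))
    {ι : Type} [Fintype ι] [DecidableEq ι]
    (P : ι → Polynomial (MvPolynomial (Option σ) ℤ)) (D d : ι → ℕ)
    (hlead : ∀ i, topv (d i) (P i).leadingCoeff θ ≠ 0)
    (hdeg : ∀ i j, ((P i).coeff j).totalDegree ≤ ((P i).natDegree - j) * D i + d i)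
    (hsep : ∀ i, (pnf (P i) (D i) (d i) θ).Separable) (K : ℕ) (ε : ℝ) (hε : 0 < ε) :
    ∃ (η : ℝ) (N : ℕ) (A : Finset (Option ι → MvPolynomial (Option σ) ℚ)), 0 < η ∧
      (∀ B ∈ A, B ≠ 0) ∧
      ∀ q ≥ N, ∀ x, Near S θ η q x → ∀ ρ : ι → ℂ,
        (∀ i, ((P i).map (evx q x ℂ)).eval (ρ i) = 0) → ∀ V : Option ι → ℤ,
        (∀ o, |V o| ≤ (q : ℤ) ^ K) →
        ‖(V none : ℂ) + ∑ i, ρ i * V (some i)‖ * ∏ i, |(V (some i) : ℝ)|
          ≤ (q : ℝ) ^ (-ε) * ∏ o, (spart S (V o) : ℝ) →
        ∃ B ∈ A, ∑ o, (V o : ℚ) * va q x (B o) = 0 := by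
  classical
  obtain ⟨η, N, A, hη, hA⟩ := finite_rep S θ (β := Option ι → MvPolynomial (Option σ) ℚ)
    (Δ := (ι → ℂ) × (Option ι → ℤ))
    (fun q x d => (∀ i, ((P i).map (evx q x ℂ)).eval (d.1 i) = 0) ∧
      (∀ o, |d.2 o| ≤ (q : ℤ) ^ K) ∧
      ‖(d.2 none : ℂ) + ∑ i, d.1 i * d.2 (some i)‖ * ∏ i, |(d.2 (some i) : ℝ)|
          ≤ (q : ℝ) ^ (-ε) * ∏ o, (spart S (d.2 o) : ℝ))
    (fun B q x d => B ≠ 0 ∧ ∑ o, (d.2 o : ℚ) * va q x (B o) = 0)
    (by
      intro q0 x0 d0 H0 hd0
      by_cases hz : ∃ o, ∀ᶠ n in (UU : Filter ℕ), (d0 n).2 o = 0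
      · obtain ⟨o, ho⟩ := hz
        refine ⟨Pi.single o 1, ?_⟩
        filter_upwards [ho] with n hn
        refine ⟨fun h => ?_, ?_⟩
        · have := congrFun h o
          rw [Pi.single_eq_same] at this
          exact one_ne_zero this
        · rw [Finset.sum_eq_single o]
          · rw [hn, Int.cast_zero, zero_mul]
          · intro o' _ ho'
            rw [Pi.single_eq_of_ne ho', map_zero, mul_zero]
          · intro h
            exact absurd (Finset.mem_univ _) h
      · push Not at hz
        have hz' : ∀ᶠ n in (UU : Filter ℕ), ∀ o, (d0 n).2 o ≠ 0 := by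
          rw [Filter.eventually_all]
          intro o
          exact hz o
        obtain ⟨φ, hφ1, hφ2, H⟩ := H0.sub hz'
        set q : ℕ → ℕ := fun n => q0 (φ n) with hq
        set x : ℕ → σ → ℤ := fun n => x0 (φ n) with hx
        set V : Option ι → ℕ → ℤ := fun o n => (d0 (φ n)).2 o with hV
        set ρ : ι → ℕ → ℂ := fun i n => (d0 (φ n)).1 i with hρ
        have hV0 : ∀ o n, V o n ≠ 0 := fun o n => hφ1 n o
        have hVK : ∀ o n, |V o n| ≤ (q n : ℤ) ^ K := fun o n => (hd0 (φ n)).2.1 o
        have hroot : ∀ i n, ((P i).map (evx (q n) (x n) ℂ)).eval (ρ i n) = 0 := fun i n =>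
          (hd0 (φ n)).1 i
        have hineq : ∀ n, ‖(V none n : ℂ) + ∑ i, ρ i n * V (some i) n‖ * ∏ i, |(V (some i) n : ℝ)|
          ≤ (q n : ℝ) ^ (-ε) * ∏ o, (spart S (V o n) : ℝ) := fun n => (hd0 (φ n)).2.2
        -- the parts
        have hdec : ∀ o n, ∃ w : ℤ, V o n = (spart S (V o n) : ℤ) * w := fun o n => spart_dvd hS _
        choose w hw using hdec
        set cc : Option ι → ℕ → ℕ := fun o n => spart S (V o n) with hcc
        have hcc0 : ∀ o n, cc o n ≠ 0 := fun o n => (spart_pos hS _).ne'
        have hw0 : ∀ o n, w o n ≠ 0 := by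
          intro o n h
          apply hV0 o n
          rw [hw o n, h, mul_zero]
        have habs : ∀ o n, (V o n).natAbs = cc o n * (w o n).natAbs := by
          intro o n
          conv_lhs => rw [hw o n, Int.natAbs_mul, Int.natAbs_natCast]
        have hVKn : ∀ o n, (V o n).natAbs ≤ q n ^ K := by
          intro o n
          have := hVK o n
          zify
          exact this
        have hccK : ∀ o n, cc o n ≤ q n ^ K := by
          intro o n
          refine le_trans ?_ (hVKn o n)
          rw [habs]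
          exact Nat.le_mul_of_pos_right _ (Nat.pos_of_ne_zero (Int.natAbs_ne_zero.2 (hw0 o n)))
        have hwK : ∀ o n, (w o n).natAbs ≤ q n ^ K := by
          intro o n
          refine le_trans ?_ (hVKn o n)
          rw [habs]
          exact Nat.le_mul_of_pos_left _ (Nat.pos_of_ne_zero (hcc0 o n))
        set R : ℕ := (Fintype.card ι + 2) * K with hR
        set DD : ℕ := ∑ i, D i with hDD
        have hexp : ∀ i, ∃ c : Ex (Option σ) (R + DD) → QB, Sm q (-1) (fun n => (q n : ℂ) ^ R * ρ i n
            - ∑ a, phi (c a) * ((zv θ (q n) (x n) a.1 : ℝ) : ℂ)) := by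
          intro i
          apply exp_mono (D := D i) (Finset.single_le_sum (f := D) (fun _ _ => Nat.zero_le _)
            (Finset.mem_univ i))
          exact root_exp H halg (hlead i) (hdeg i) (hsep i) (ρ i)
            (Eventually.of_forall fun n => hroot i n) R
        choose c hc using hexp
        obtain ⟨A, hA0, hA⟩ := schmidtT S hS halg hind H DD K R le_rfl ε hε ρ c hc
          (fun i => cc (some i)) (fun i => hcc0 (some i)) (fun i n => spart_S hS _)
          (fun i => hccK (some i)) (fun i => w (some i)) (fun i => hw0 (some i))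
          (fun i => hwK (some i)) (cc none) (hcc0 none) (fun n => spart_S hS _) (hccK none)
          (fun n => -w none n) (by
            refine Eventually.of_forall fun n => ?_
            have hP : (0 : ℝ) < ∏ i, ((w (some i) n).natAbs : ℝ) := Finset.prod_pos fun i _ => by
              exact_mod_cast Nat.pos_of_ne_zero (Int.natAbs_ne_zero.2 (hw0 (some i) n))
            have hC : (0 : ℝ) < ∏ i, (cc (some i) n : ℝ) := Finset.prod_pos fun i _ => by
              exact_mod_cast Nat.pos_of_ne_zero (hcc0 (some i) n)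
            rw [le_div_iff₀ hP]
            have e1 : ∑ i, (cc (some i) n : ℂ) * w (some i) n * ρ i n - cc none n * ((-w none n : ℤ) : ℂ)
                = (V none n : ℂ) + ∑ i, ρ i n * V (some i) n := by
              have h1 : ∀ o, (V o n : ℂ) = (cc o n : ℂ) * w o n := by
                intro o
                have := hw o n
                have h2 : (V o n : ℂ) = (((spart S (V o n) : ℤ) * w o n : ℤ) : ℂ) := by rw [← this]
                rw [h2]
                push_cast
                rfl
              simp only [h1]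
              push_cast
              rw [sub_eq_add_neg, add_comm]
              congr 1
              · ring
              · exact Finset.sum_congr rfl fun i _ => by ring
            rw [e1]
            have e2 : ∏ i, |(V (some i) n : ℝ)| = (∏ i, (cc (some i) n : ℝ)) * ∏ i, ((w (some i) n).natAbs : ℝ) := by
              rw [← Finset.prod_mul_distrib]
              refine Finset.prod_congr rfl fun i _ => ?_
              have h3 : |(V (some i) n : ℝ)| = ((V (some i) n).natAbs : ℝ) := by
                rw [Nat.cast_natAbs, Int.cast_abs]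
              rw [h3, habs]
              push_cast
              rfl
            have e3 : ∏ o, (spart S (V o n) : ℝ) = cc none n * ∏ i, (cc (some i) n : ℝ) := by
              rw [Fintype.prod_option]
            have h4 := hineq n
            rw [e2, e3] at h4
            have h5 : (∏ i, (cc (some i) n : ℝ)) * (‖(V none n : ℂ) + ∑ i, ρ i n * V (some i) n‖
                * ∏ i, ((w (some i) n).natAbs : ℝ))
                ≤ (∏ i, (cc (some i) n : ℝ)) * ((q n : ℝ) ^ (-ε) * cc none n) := by
              linarith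
            exact le_of_mul_le_mul_left h5 hC)
        refine ⟨fun o => o.elim (-A none) (fun i => A (some i)), ?_⟩
        filter_upwards [hA, hφ2] with n hn h2
        refine ⟨fun h => hA0 ?_, ?_⟩
        · funext o
          cases o with
          | none =>
            have h1 := congrFun h none
            simp only [Option.elim, Pi.zero_apply] at h1
            exact neg_eq_zero.1 h1
          | some i => exact congrFun h (some i)
        · have h1 : ∀ o, (V o n : ℚ) = (cc o n : ℚ) * w o n := by
            intro o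
            have := hw o n
            have h2 : (V o n : ℚ) = (((spart S (V o n) : ℤ) * w o n : ℤ) : ℚ) := by rw [← this]
            rw [h2]
            push_cast
            rfl
          have h3 : ∑ o, (V o n : ℚ) * va (q n) (x n) ((fun o : Option ι => o.elim (-A none)
              (fun i => A (some i))) o) = 0 := by
            rw [Fintype.sum_option]
            simp only [Option.elim, h1]
            rw [← hn]
            push_cast
            rw [map_neg]
            ring
          rw [hV, hq, hx] at h3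
          simp only [] at h3
          rw [h2] at h3
          exact h3)
  refine ⟨η, N, A.filter (fun B => B ≠ 0), hη, fun B hB => (Finset.mem_filter.1 hB).2,
    fun q hq x hx ρ hρ V hV hi => ?_⟩
  obtain ⟨B, hB, h1, h2⟩ := hA q hq x hx (ρ, V) ⟨hρ, hV, hi⟩
  exact ⟨B, Finset.mem_filter.2 ⟨hB, h1⟩, h2⟩

end

end Pool.Agent.Q4.Tube
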